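import Mathlib

/-!
# An arithmetic function with values in polynomials
-/

set_option autoImplicit false

open scoped BigOperators Polynomial
open Polynomial

noncomputable section

namespace Pool.Agent.H378.AC

variable (p : ℕ)

/-- `n ^ 2 X ^ (v_p n)` -/
def ff (n : ℕ) : ℤ[X] := C ((n : ℤ) ^ 2) * X ^ (n.factorization p)

/-- as an arithmetic function -/
def fa : ArithmeticFunction ℤ[X] := ⟨fun n => ff p n, by simp [ff]⟩

/-- the inverse transform -/
def ga : ArithmeticFunction ℤ[X] := (ArithmeticFunction.moebius : ArithmeticFunction ℤ[X]) * fa p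

lemma sum_ga {n : ℕ} (hn : n ≠ 0) : ∑ m ∈ n.divisors, ga p m = ff p n := by
  have h1 : (ArithmeticFunction.zeta : ArithmeticFunction ℤ[X]) * ga p = fa p := by
    unfold ga
    rw [← mul_assoc, ArithmeticFunction.coe_zeta_mul_coe_moebius, one_mul]
  have h2 := congrArg (fun a : ArithmeticFunction ℤ[X] => a n) h1
  simp only [ArithmeticFunction.coe_zeta_mul_apply] at h2
  exact h2

lemma ff_mul {m n : ℕ} (hm : m ≠ 0) (hn : n ≠ 0) : ff p (m * n) = ff p m * ff p n := by
  unfold ff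
  rw [Nat.factorization_mul hm hn, Finsupp.add_apply, pow_add]
  push_cast
  rw [mul_pow, C_mul]
  ring

lemma fa_mult : (fa p).IsMultiplicative := by
  rw [ArithmeticFunction.IsMultiplicative.iff_ne_zero]
  refine ⟨?_, ?_⟩
  · change ff p 1 = 1
    simp [ff]
  · intro m n hm hn _
    exact ff_mul p hm hn

lemma ga_mult : (ga p).IsMultiplicative :=
  ArithmeticFunction.isMultiplicative_moebius.intCast.mul (fa_mult p)

lemma ff_ne {n : ℕ} (hn : n ≠ 0) : ff p n ≠ 0 := by
  unfold ff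
  refine mul_ne_zero ?_ (pow_ne_zero _ X_ne_zero)
  rw [Ne, C_eq_zero]
  positivity

lemma ff_pow {q : ℕ} (hq : q ≠ 0) (k : ℕ) : ff p (q ^ k) = ff p q ^ k := by
  induction k with
  | zero => simp [ff]
  | succ k ih => rw [pow_succ, ff_mul p (pow_ne_zero _ hq) hq, ih, pow_succ]

lemma ga_prime_pow {q : ℕ} (hq : q.Prime) (k : ℕ) :
    ga p (q ^ (k + 1)) = ff p q ^ k * (ff p q - 1) := by
  have h1 := sum_ga p (pow_ne_zero (k + 1) hq.ne_zero)
  have h2 := sum_ga p (pow_ne_zero k hq.ne_zero)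
  rw [Nat.sum_divisors_prime_pow hq] at h1 h2
  rw [Finset.sum_range_succ, h2, ff_pow p hq.ne_zero, ff_pow p hq.ne_zero] at h1
  rw [eq_comm, ← sub_eq_iff_eq_add'] at h1
  rw [← h1, pow_succ]
  ring

lemma ff_ne_one {q : ℕ} (hq : q.Prime) : ff p q - 1 ≠ 0 := by
  intro h
  have h1 := congrArg (fun P : ℤ[X] => P.eval 1) h
  unfold ff at h1
  simp at h1
  have h2 : ((q : ℤ)) ^ 2 = 1 := by linarith
  have h3 : 2 ≤ (q : ℤ) := by exact_mod_cast hq.two_le
  nlinarith

theorem ga_ne {n : ℕ} (hn : n ≠ 0) : ga p n ≠ 0 := by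
  rw [(ga_mult p).multiplicative_factorization _ hn, Finsupp.prod, Finset.prod_ne_zero_iff]
  intro q hq
  have hqp := Nat.prime_of_mem_primeFactors (by simpa using hq)
  obtain ⟨k, hk⟩ : ∃ k, n.factorization q = k + 1 := by
    have : n.factorization q ≠ 0 := Finsupp.mem_support_iff.mp hq
    exact Nat.exists_eq_succ_of_ne_zero this
  rw [hk, ga_prime_pow p hqp]
  exact mul_ne_zero (pow_ne_zero _ (ff_ne p hqp.ne_zero)) (ff_ne_one p hqp)

end Pool.Agent.H378.AC
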