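import Pool.Agent.H378.AC.Dz

/-!
# Invariant functions on `G` and on the centraliser of a subgroup of order `p`
-/

set_option autoImplicit false
set_option linter.unusedSectionVars false
set_option linter.unusedVariables false

open scoped Classical BigOperators
open Pool.Agent.Y63.NV (IsClassFun IsBlock InZ centralValue redC conv)
open Pool.Agent.Y63.KR (conjSub conjSub_eq_iff mem_conjSub)
open Pool.Agent.Y925.NV (kk)

noncomputable section

namespace Pool.Agent.H378.AC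

variable {p : ℕ} [hp : Fact p.Prime] {F : Type} [Field F] [CharP F p]
  {Y : Type} [Group Y] [Finite Y] {G : Subgroup Y} [hG : G.Normal] {Q : Subgroup Y}

lemma kk_sub (H : Subgroup Y) (c : H) :
    kk c = Nat.card {n : Y // n ∈ H ∧ n * (c : Y) * n⁻¹ = c} := by
  unfold kk
  exact Nat.card_congr
    { toFun := fun n => ⟨n.1, n.1.2, congrArg Subtype.val n.2⟩
      invFun := fun n => ⟨⟨n.1, n.2.1⟩, Subtype.ext n.2.2⟩
      left_inv := fun _ => rfl
      right_inv := fun _ => rfl }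

/-- the orders of the centralisers modulo `p` -/
lemma kk_mod (hQ : IsPGroup p Q) {c : Y} (hc : c ∈ CQ G Q) :
    (kk (⟨c, (mem_CQ.mp hc).1⟩ : G) : F) = (kk (⟨c, hc⟩ : CQ G Q) : F) := by
  rw [kk_sub, kk_sub]
  have hcG := (mem_CQ.mp hc).1
  have hcQ := (mem_CQ.mp hc).2
  let S := {n : Y // n ∈ G ∧ n * c * n⁻¹ = c}
  let _ : MulAction Q S :=
    { smul := fun q n => ⟨(q : Y) * n.1 * (q : Y)⁻¹, hG.conj_mem _ n.2.1 _, by
        have h1 := hcQ q q.2
        have h2 : (q : Y)⁻¹ * c * (q : Y) = c := by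
          rw [mul_assoc, ← h1]
          group
        calc (q : Y) * n.1 * (q : Y)⁻¹ * c * ((q : Y) * n.1 * (q : Y)⁻¹)⁻¹ =
            (q : Y) * (n.1 * ((q : Y)⁻¹ * c * (q : Y)) * n.1⁻¹) * (q : Y)⁻¹ := by group
          _ = (q : Y) * c * (q : Y)⁻¹ := by rw [h2, n.2.2]
          _ = c := by rw [h1]; group⟩
      one_smul := fun n => Subtype.ext (by
        change (1 : Y) * n.1 * (1 : Y)⁻¹ = n.1
        group)
      mul_smul := fun q r n => Subtype.ext (by
        change ((q : Y) * (r : Y)) * n.1 * ((q : Y) * (r : Y))⁻¹ =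
          (q : Y) * ((r : Y) * n.1 * (r : Y)⁻¹) * (q : Y)⁻¹
        group) }
  have hsm : ∀ (q : Q) (n : S), ((q • n : S) : Y) = (q : Y) * n.1 * (q : Y)⁻¹ := fun _ _ => rfl
  have h1 := hQ.card_modEq_card_fixedPoints S
  have h2 : Nat.card (MulAction.fixedPoints Q S) =
      Nat.card {n : Y // n ∈ CQ G Q ∧ n * c * n⁻¹ = c} := by
    refine Nat.card_congr
      { toFun := fun n => ⟨n.1.1, mem_CQ.mpr ⟨n.1.2.1, fun q hq => ?_⟩, n.1.2.2⟩
        invFun := fun n => ⟨⟨n.1, (mem_CQ.mp n.2.1).1, n.2.2⟩, fun q => ?_⟩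
        left_inv := fun _ => rfl
        right_inv := fun _ => rfl }
    · have h3 := congrArg Subtype.val (n.2 ⟨q, hq⟩)
      rw [hsm] at h3
      exact mul_inv_eq_iff_eq_mul.mp h3
    · apply Subtype.ext
      rw [hsm]
      exact mul_inv_eq_iff_eq_mul.mpr ((mem_CQ.mp n.2.1).2 q q.2)
  rw [← h2]
  have h3 : ((Nat.card S : ℕ) : F) = ((Nat.card (MulAction.fixedPoints Q S) : ℕ) : F) :=
    (CharP.natCast_eq_natCast F p).mpr h1
  exact h3

/-- conjugation inside the normaliser -/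
lemma syl (hab : ∀ x y : Y, x * y * x⁻¹ * y⁻¹ ∈ G) (hQ : Nat.card Q = p) (hQG : Q ⊓ G = ⊥)
    {c c' y : Y} (hc : c ∈ CQ G Q) (hc' : c' ∈ CQ G Q) (hy : y * c * y⁻¹ = c')
    (hk : ¬ p ∣ Nat.card (G ⊓ Subgroup.centralizer {c'} : Subgroup Y)) :
    ∃ n, conjSub n Q = Q ∧ n * c * n⁻¹ = c' := by
  set T : Subgroup Y := (G ⊔ Q) ⊓ Subgroup.centralizer {c'} with hT
  have hcQ := (mem_CQ.mp hc).2
  have hcQ' := (mem_CQ.mp hc').2
  have hQT : Q ≤ T := by
    intro q hq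
    refine Subgroup.mem_inf.mpr ⟨Subgroup.mem_sup_right hq, ?_⟩
    rw [Subgroup.mem_centralizer_singleton_iff]
    exact hcQ' q hq
  set Q' := conjSub y Q with hQ'
  have hQT' : Q' ≤ T := by
    rintro _ ⟨q, hq, rfl⟩
    change y * q * y⁻¹ ∈ T
    refine Subgroup.mem_inf.mpr ⟨?_, ?_⟩
    · have e : y * q * y⁻¹ = y * q * y⁻¹ * q⁻¹ * q := by group
      rw [e]
      exact Subgroup.mul_mem _ (Subgroup.mem_sup_left (hab y q)) (Subgroup.mem_sup_right hq)
    · rw [Subgroup.mem_centralizer_singleton_iff, ← hy]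
      have h1 := hcQ q hq
      calc y * q * y⁻¹ * (y * c * y⁻¹) = y * (q * c) * y⁻¹ := by group
        _ = y * (c * q) * y⁻¹ := by rw [h1]
        _ = y * c * y⁻¹ * (y * q * y⁻¹) := by group
  have hcQ'' : Nat.card Q' = p := by
    rw [hQ', ← hQ]
    exact Nat.card_congr (Subgroup.equivMapOfInjective _ _
      (MulAut.conj y).injective).toEquiv.symm
  -- the order of `T`
  have hD : G ⊓ T = G ⊓ Subgroup.centralizer {c'} := by
    rw [hT, ← inf_assoc, inf_eq_left.mpr (le_sup_left : G ≤ G ⊔ Q)]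
  have hcT : Nat.card T = Nat.card (G ⊓ Subgroup.centralizer {c'} : Subgroup Y) *
      G.relIndex T := by
    have h1 := Subgroup.relIndex_mul_relIndex ⊥ (G ⊓ T) T bot_le inf_le_right
    rw [Subgroup.relIndex_bot_left, Subgroup.relIndex_bot_left, Subgroup.inf_relIndex_right,
      hD] at h1
    exact h1.symm
  have hidx : G.relIndex T ∣ p := by
    have h1 : G.relIndex T = G.relIndex (T ⊔ G) := by rw [Subgroup.relIndex_sup_right]
    have h2 : G.relIndex (T ⊔ G) ∣ G.relIndex (G ⊔ Q) := by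
      have h3 : T ⊔ G ≤ G ⊔ Q := sup_le inf_le_left le_sup_left
      exact Dvd.intro _ (Subgroup.relIndex_mul_relIndex G (T ⊔ G) (G ⊔ Q) le_sup_right h3)
    have h3 : G.relIndex (G ⊔ Q) = p := by
      rw [sup_comm, Subgroup.relIndex_sup_right, ← Subgroup.inf_relIndex_right, inf_comm, hQG,
        Subgroup.relIndex_bot_left, hQ]
    rw [h1, ← h3]
    exact h2
  have hpT : p ∣ Nat.card T := by
    rw [← hQ]
    exact Subgroup.card_dvd_of_le hQT
  have hidx' : G.relIndex T = p := by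
    rcases (Nat.dvd_prime hp.out).mp hidx with h1 | h1
    · rw [hcT, h1, mul_one] at hpT
      exact absurd hpT hk
    · exact h1
  have hfac : (Nat.card T).factorization p = 1 := by
    rw [hcT, hidx', Nat.factorization_mul Nat.card_pos.ne' hp.out.ne_zero, Finsupp.add_apply,
      Nat.factorization_eq_zero_of_not_dvd hk, hp.out.factorization_self, zero_add]
  have hsy : ∀ R : Subgroup Y, R ≤ T → Nat.card R = p →
      Nat.card (R.subgroupOf T) = p ^ (Nat.card T).factorization p := by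
    intro R hR hc
    rw [Nat.card_congr (Subgroup.subgroupOfEquivOfLe hR).toEquiv, hc, hfac, pow_one]
  let S := Sylow.ofCard _ (hsy Q hQT hQ)
  let S' := Sylow.ofCard _ (hsy Q' hQT' hcQ'')
  obtain ⟨t, ht⟩ := MulAction.exists_smul_eq T S' S
  have h1 : ∀ x : Y, x ∈ Q' → (t : Y) * x * (t : Y)⁻¹ ∈ Q := by
    intro x hx
    have h2 : (⟨x, hQT' hx⟩ : T) ∈ (S' : Subgroup T) := Subgroup.mem_subgroupOf.mpr hx
    have h3 : t * ⟨x, hQT' hx⟩ * t⁻¹ ∈ ((t • S' : Sylow p T) : Subgroup T) := by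
      rw [Sylow.smul_def, Sylow.pointwise_smul_def]
      exact ⟨_, h2, rfl⟩
    rw [ht] at h3
    exact Subgroup.mem_subgroupOf.mp h3
  have h2 : conjSub (t : Y) Q' ≤ Q := by
    rintro _ ⟨x, hx, rfl⟩
    exact h1 x hx
  have h3 : conjSub (t : Y) Q' = Q := by
    apply Subgroup.eq_of_le_of_card_ge h2
    rw [hQ, ← hcQ'']
    exact (Nat.card_congr (Subgroup.equivMapOfInjective _ _
      (MulAut.conj (t : Y)).injective).toEquiv).le
  refine ⟨t * y, ?_, ?_⟩
  · rw [Pool.Agent.Y63.KR.conjSub_mul, ← hQ', h3]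
  · have h4 := Subgroup.mem_centralizer_singleton_iff.mp t.2.2
    calc (t : Y) * y * c * ((t : Y) * y)⁻¹ = t * (y * c * y⁻¹) * (t : Y)⁻¹ := by group
      _ = t * c' * (t : Y)⁻¹ := by rw [hy]
      _ = c' := by rw [h4]; group

lemma kk_cent (c : G) : kk c = Nat.card (G ⊓ Subgroup.centralizer {(c : Y)} : Subgroup Y) := by
  rw [kk_sub]
  refine Nat.card_congr (Equiv.subtypeEquivRight fun n => ?_)
  rw [Subgroup.mem_inf, Subgroup.mem_centralizer_singleton_iff, mul_inv_eq_iff_eq_mul]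

lemma kk_cnj {g : Y} {c x : G} (hg : (x : Y) = g * c * g⁻¹) : kk c = kk x := by
  rw [kk_sub, kk_sub]
  have h3 : ∀ m : Y, m * (x : Y) * m⁻¹ = x → m * (g * c * g⁻¹) * m⁻¹ = g * c * g⁻¹ := by
    intro m hm
    rw [← hg]
    exact hm
  refine Nat.card_congr
    { toFun := fun n => ⟨g * n.1 * g⁻¹, hG.conj_mem _ n.2.1 g, ?_⟩
      invFun := fun n => ⟨g⁻¹ * n.1 * g, ?_, ?_⟩
      left_inv := fun n => Subtype.ext (by
        change g⁻¹ * (g * n.1 * g⁻¹) * g = n.1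
        group)
      right_inv := fun n => Subtype.ext (by
        change g * (g⁻¹ * n.1 * g) * g⁻¹ = n.1
        group) }
  · rw [hg]
    calc g * n.1 * g⁻¹ * (g * c * g⁻¹) * (g * n.1 * g⁻¹)⁻¹ = g * (n.1 * c * n.1⁻¹) * g⁻¹ := by
          group
      _ = g * c * g⁻¹ := by rw [n.2.2]
  · have := hG.conj_mem _ n.2.1 g⁻¹
    rwa [inv_inv] at this
  · have h4 := h3 n.1 n.2.2
    calc g⁻¹ * n.1 * g * (c : Y) * (g⁻¹ * n.1 * g)⁻¹ =
        g⁻¹ * (n.1 * (g * c * g⁻¹) * n.1⁻¹) * g := by group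
      _ = g⁻¹ * (g * c * g⁻¹) * g := by rw [h4]
      _ = c := by group

/-- **Extension of an invariant function from the centraliser.** -/
theorem extend (hab : ∀ x y : Y, x * y * x⁻¹ * y⁻¹ ∈ G) (hQ : Nat.card Q = p)
    (hQG : Q ⊓ G = ⊥) {h : CQ G Q → F}
    (hcl : ∀ n, conjSub n Q = Q → ∀ x y : CQ G Q, (y : Y) = n * x * n⁻¹ → h y = h x)
    (h0 : ∀ x : CQ G Q, (kk x : F) = 0 → h x = 0) :
    ∃ z : Y → F, InZ G z ∧ (∀ x : G, (kk x : F) = 0 → z x = 0) ∧
      ∀ x : CQ G Q, z x = h x := by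
  have hQp : IsPGroup p Q := IsPGroup.of_card (n := 1) (by rw [hQ, pow_one])
  -- the relation
  let Rel : Y → CQ G Q → Prop := fun x c => (∃ g : Y, x = g * c * g⁻¹) ∧ (kk c : F) ≠ 0
  have hwd : ∀ x c c', Rel x c → Rel x c' → h c = h c' := by
    rintro x c c' ⟨⟨g, hg⟩, hk⟩ ⟨⟨g', hg'⟩, hk'⟩
    have h1 : (g'⁻¹ * g) * (c : Y) * (g'⁻¹ * g)⁻¹ = c' := by
      calc (g'⁻¹ * g) * (c : Y) * (g'⁻¹ * g)⁻¹ = g'⁻¹ * (g * c * g⁻¹) * g' := by group
        _ = g'⁻¹ * (g' * c' * g'⁻¹) * g' := by rw [← hg, hg']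
        _ = c' := by group
    have h2 : ¬ p ∣ Nat.card (G ⊓ Subgroup.centralizer {(c' : Y)} : Subgroup Y) := by
      rw [← kk_cent (⟨c', (mem_CQ.mp c'.2).1⟩ : G), ← CharP.cast_eq_zero_iff F p,
        kk_mod hQp c'.2]
      exact hk'
    obtain ⟨n, hn, hnc⟩ := syl hab hQ hQG c.2 c'.2 h1 h2
    exact (hcl n hn c c' hnc.symm).symm
  let z : Y → F := fun x => if hx : ∃ c, Rel x c then h hx.choose else 0
  have hz : ∀ x c, Rel x c → z x = h c := by
    intro x c hc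
    have hx : ∃ c, Rel x c := ⟨c, hc⟩
    have : z x = h hx.choose := dif_pos hx
    rw [this]
    exact hwd x _ _ hx.choose_spec hc
  have hz0 : ∀ x, (¬ ∃ c, Rel x c) → z x = 0 := fun x hx => dif_neg hx
  have hRc : ∀ g x c, Rel (g * x * g⁻¹) c ↔ Rel x c := by
    intro g x c
    refine and_congr ⟨?_, ?_⟩ Iff.rfl
    · rintro ⟨k, hk⟩
      refine ⟨g⁻¹ * k, ?_⟩
      calc x = g⁻¹ * (g * x * g⁻¹) * g := by group
        _ = g⁻¹ * (k * c * k⁻¹) * g := by rw [hk]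
        _ = _ := by group
    · rintro ⟨k, rfl⟩
      exact ⟨g * k, by group⟩
  refine ⟨z, ⟨?_, ?_⟩, ?_, ?_⟩
  · intro g x
    by_cases hx : ∃ c, Rel x c
    · obtain ⟨c, hc⟩ := hx
      rw [hz x c hc, hz _ c ((hRc g x c).mpr hc)]
    · rw [hz0 x hx, hz0 _ (fun ⟨c, hc⟩ => hx ⟨c, (hRc g x c).mp hc⟩)]
  · intro x hx
    apply hz0
    rintro ⟨c, ⟨g, rfl⟩, _⟩
    exact hx (hG.conj_mem _ (mem_CQ.mp c.2).1 g)
  · intro x hx
    apply hz0
    rintro ⟨c, ⟨g, hg⟩, hk⟩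
    apply hk
    rw [← kk_mod hQp c.2, kk_cnj (c := (⟨(c : Y), (mem_CQ.mp c.2).1⟩ : G)) (x := x) hg]
    exact hx
  · intro x
    by_cases hk : (kk x : F) = 0
    · rw [h0 x hk]
      apply hz0
      rintro ⟨c, ⟨g, hg⟩, hkc⟩
      apply hkc
      rw [← kk_mod hQp c.2, ← hk, ← kk_mod hQp x.2,
        kk_cnj (c := (⟨(c : Y), (mem_CQ.mp c.2).1⟩ : G)) (x := (⟨(x : Y), (mem_CQ.mp x.2).1⟩ : G)) hg]
    · exact hz x x ⟨⟨1, by group⟩, hk⟩

lemma kk_iso {A B : Type} [Group A] [Group B] (e : A ≃* B) (x : A) : kk (e x) = kk x := by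
  unfold kk
  refine (Nat.card_congr (e.toEquiv.subtypeEquiv fun n => ?_)).symm
  change _ ↔ e n * e x * (e n)⁻¹ = e x
  rw [← map_mul, ← map_inv, ← map_mul, e.injective.eq_iff]

lemma norm_CQ (Q : Subgroup Y) {n : Y} (hn : conjSub n Q = Q) :
    n ∈ Subgroup.normalizer ((CQ G Q : Subgroup Y) : Set Y) := by
  have key : ∀ n : Y, conjSub n Q = Q → ∀ x, x ∈ CQ G Q → n * x * n⁻¹ ∈ CQ G Q := by
    intro n hn x hx
    rw [mem_CQ] at hx ⊢
    refine ⟨hG.conj_mem _ hx.1 n, fun q hq => ?_⟩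
    have h1 : n⁻¹ * q * n ∈ Q := by
      rw [← mem_conjSub, hn]
      exact hq
    have h2 := hx.2 _ h1
    calc q * (n * x * n⁻¹) = n * ((n⁻¹ * q * n) * x) * n⁻¹ := by group
      _ = n * (x * (n⁻¹ * q * n)) * n⁻¹ := by rw [h2]
      _ = n * x * n⁻¹ * q := by group
  rw [Subgroup.mem_normalizer_iff]
  intro x
  refine ⟨key n hn x, fun h => ?_⟩
  have hn' : conjSub n⁻¹ Q = Q := by
    conv_lhs => rw [← hn]
    rw [← Pool.Agent.Y63.KR.conjSub_mul, inv_mul_cancel, Pool.Agent.Y63.KR.conjSub_one]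
  have h1 := key n⁻¹ hn' _ h
  have e : n⁻¹ * (n * x * n⁻¹) * n⁻¹⁻¹ = x := by group
  rwa [e] at h1

/-- the action of the normaliser on the centraliser -/
def actN (G Q : Subgroup Y) [G.Normal] :
    Subgroup.normalizer (Q : Set Y) →* MulAut (CQ G Q) :=
  (Subgroup.normalizerMonoidHom (CQ G Q)).comp (Subgroup.inclusion (fun n hn =>
    norm_CQ Q (conjSub_eq_iff.mpr hn)))

lemma actN_apply (n : Subgroup.normalizer (Q : Set Y)) (x : CQ G Q) :
    ((actN G Q n x : CQ G Q) : Y) = n * x * (n : Y)⁻¹ := rfl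

/-- **The blocks of the centraliser below a block without characters of defect zero.** -/
theorem noDZ_Q (red : integralClosure ℤ ℂ →+* F) {A : Type} [Group A] [Finite A] (i : A →* Y)
    (hi : Function.Injective i) (hiG : i.range = G) (hab : ∀ x y : Y, x * y * x⁻¹ * y⁻¹ ∈ G)
    (hQ : Nat.card Q = p) (hQG : Q ⊓ G = ⊥) {B : (A → F) → F} (hB : IsBlock B)
    (hD : Pool.Agent.X209.DQ.NoDZ p red B) {β : (CQ G Q → F) → F} (hβ : IsBlock β)
    (h : ∀ z : Y → F, InZ G z → β (fun c => z c) = B (fun a => z (i a))) :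
    Pool.Agent.X209.DQ.NoDZ p red β := by
  intro χ hχ hχB hd
  obtain ⟨f, hf1, hf2, hf3, hf4⟩ := inv_value (actN G Q) red hχ hχB hd hβ
  obtain ⟨z, hz1, hz2, hz3⟩ := extend (F := F) hab hQ hQG (h := f) (by
    intro n hn x y hxy
    have h1 := hf3 ⟨n, conjSub_eq_iff.mp hn⟩ x
    rw [← h1]
    congr 1
    exact Subtype.ext hxy) hf2
  have h1 : (fun c : CQ G Q => z c) = f := funext hz3
  have h2 := h z hz1
  rw [h1] at h2
  have h3 : IsClassFun (fun a : A => z (i a)) := by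
    intro g x
    simp only [map_mul, map_inv]
    exact hz1.conj _ _
  obtain ⟨χ', h4, h5, h6⟩ := dz_of_value (p := p) red hB h3 (fun a ha => by
    have hmem : i a ∈ G := by
      rw [← hiG]
      exact ⟨a, rfl⟩
    refine hz2 ⟨i a, hmem⟩ ?_
    let e : A ≃* G := (MonoidHom.ofInjective hi).trans (MulEquiv.subgroupCongr hiG)
    have h7 : (⟨i a, hmem⟩ : G) = e a := rfl
    rw [h7, kk_iso]
    exact ha) (by rw [← h2]; exact hf4)
  exact hD χ' h4 h5 h6

end Pool.Agent.H378.AC
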