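import Pool.Agent.H378.AC.Form
import Pool.Agent.H378.AC.Trn

/-!
# Decomposition into blocks
-/

set_option autoImplicit false
set_option linter.unusedSectionVars false
set_option linter.unusedVariables false

open scoped Classical BigOperators Polynomial
open Polynomial
open Pool.Agent.Helper884.IC Pool.Agent.Y63.AWC Pool.Agent.Y63.KR Pool.Agent.X209.EQ
open Pool.Agent.X209.PJ Pool.Agent.X209.DI Pool.Agent.X209.DQ Pool.Agent.X209.NB
open Pool.Agent.Y63.NV (IsClassFun IsBlock InZ centralValue redC conv classValue)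

noncomputable section

namespace Pool.Agent.H378.AC

section

variable {p : ℕ} [hp : Fact p.Prime] {F : Type} [Field F] [CharP F p]
  (red : integralClosure ℤ ℂ →+* F) {A Y : Type} [Group A] [Group Y] [Finite A] [Finite Y]

lemma pch_above {σ : Set (Subgroup A)} (h : IsPChain p σ) :
    IsChainAbove p (⊥ : Subgroup A) σ :=
  ⟨h.chain, fun P hP => ⟨h.isPGroup P hP, bot_lt_iff_ne_bot.mpr (h.ne_bot P hP)⟩⟩

lemma above_pch {σ : Set (Subgroup A)} (h : IsChainAbove p (⊥ : Subgroup A) σ) :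
    IsPChain p σ :=
  ⟨h.1, fun P hP => (h.2 P hP).1, fun P hP => (h.2 P hP).2.ne'⟩

lemma class_comp (i : A →* Y) {G : Subgroup Y} {z : Y → F} (hz : InZ G z) :
    IsClassFun (fun a : A => z (i a)) := by
  intro g x
  simp only [map_mul, map_inv]
  exact hz.conj _ _

lemma gf_dec {H ι : Type} [Group H] [Finite H] {P : (H → ℂ) → Prop} {P' : ι → (H → ℂ) → Prop}
    (s : Finset ι) (f : (H → ℂ) → ι) (h1 : ∀ χ, IsIrrChar χ → P χ → f χ ∈ s)
    (h2 : ∀ w ∈ s, ∀ χ, IsIrrChar χ → (P' w χ ↔ (P χ ∧ f χ = w))) :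
    gf p P = ∑ w ∈ s, gf p (P' w) := by
  unfold gf
  rw [← Finset.sum_fiberwise_of_maps_to (g := f) (t := s)]
  · refine Finset.sum_congr rfl fun w hw => ?_
    refine Finset.sum_congr ?_ fun _ _ => rfl
    ext χ
    rw [Finset.mem_filter, Finset.mem_filter, Finset.mem_filter, mem_IrF]
    constructor
    · rintro ⟨⟨h3, h4⟩, h5⟩
      exact ⟨h3, (h2 w hw χ h3).mpr ⟨h4, h5⟩⟩
    · rintro ⟨h3, h4⟩
      have h5 := (h2 w hw χ h3).mp h4
      exact ⟨⟨h3, h5.1⟩, h5.2⟩
  · intro χ hχ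
    rw [Finset.mem_filter, mem_IrF] at hχ
    exact h1 χ hχ.1 hχ.2

/-- **The decomposition into blocks.** -/
theorem mmp_dec (i : A →* Y) (G : Subgroup Y) (v : (Y → F) → F) :
    ∃ (s : Finset (A → F)) (β : (A → F) → (A → F) → F),
      (∀ w ∈ s, IsBlock (β w) ∧ ∀ z : Y → F, InZ G z → β w (fun a => z (i a)) = v z) ∧
      ∀ α : MulAut A,
        MMP p α (fun σ θ => Cvv red G v (i.comp (chainStabilizer σ).subtype) θ) =
          ∑ w ∈ s, MMP p α (fun σ θ => Induces red (β w) θ) := by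
  have hfin : {w : A → F | ∃ σ : {σ : Set (Subgroup A) // IsPChain p σ},
      ∃ χ : chainStabilizer σ.1 → ℂ, IsIrrChar χ ∧
        Cvv red G v (i.comp (chainStabilizer σ.1).subtype) χ ∧ w = cval red χ}.Finite := by
    have h1 : ∀ σ : {σ : Set (Subgroup A) // IsPChain p σ},
        {w : A → F | ∃ χ : chainStabilizer σ.1 → ℂ, IsIrrChar χ ∧
        Cvv red G v (i.comp (chainStabilizer σ.1).subtype) χ ∧ w = cval red χ}.Finite := by
      intro τ
      have h2 : {χ : chainStabilizer τ.1 → ℂ | IsIrrChar χ}.Finite := by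
        have : Fintype (chainStabilizer τ.1) := Fintype.ofFinite _
        exact irr_finite
      refine (h2.image (fun χ => cval red χ)).subset ?_
      rintro v ⟨χ, hχ, _, rfl⟩
      exact ⟨χ, hχ, rfl⟩
    refine (Set.finite_iUnion h1).subset ?_
    rintro v ⟨τ, hv⟩
    exact Set.mem_iUnion.mpr ⟨τ, hv⟩
  have hex : ∀ w : A → F, ∃ β : (A → F) → F, w ∈ hfin.toFinset →
      (IsBlock β ∧ (∀ x, classValue β x = w x) ∧
        ∀ z : Y → F, InZ G z → β (fun a => z (i a)) = v z) := by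
    intro w
    by_cases hw : w ∈ hfin.toFinset
    · rw [Set.Finite.mem_toFinset] at hw
      obtain ⟨τ, χ, hχ, hcov, rfl⟩ := hw
      refine ⟨fun1 red χ, fun _ => ⟨?_, fun x => rfl, hcov⟩⟩
      exact induces_block (p := p) red τ.2.chain (fun P hP => τ.2.isPGroup P hP) hχ
        (fun _ _ => rfl)
    · exact ⟨fun _ => 0, fun h => absurd h hw⟩
  choose β hβ using hex
  refine ⟨hfin.toFinset, β, fun w hw => ⟨(hβ w hw).1, (hβ w hw).2.2⟩, fun α => ?_⟩
  unfold MMP
  rw [Finset.sum_comm]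
  refine Finset.sum_congr rfl fun τ _ => ?_
  rw [← Finset.mul_sum, ← Finset.mul_sum]
  congr 2
  have key : ∀ w ∈ hfin.toFinset, ∀ χ : chainStabilizer τ.1 → ℂ, IsIrrChar χ →
      (Induces red (β w) χ ↔ (Cvv red G v (i.comp (chainStabilizer τ.1).subtype) χ ∧
        cval red χ = w)) := by
    intro w hw χ hχ
    obtain ⟨h1, h2, h3⟩ := hβ w hw
    constructor
    · intro h4
      refine ⟨fun z hz => ?_, ?_⟩
      · rw [← h3 z hz]
        exact h4 (fun a => z (i a)) (class_comp i hz)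
      · funext x
        rw [← h2 x]
        exact (induces_iff red (pch_above τ.2) hχ h1).mp h4 x
    · rintro ⟨_, h4⟩
      rw [induces_iff red (pch_above τ.2) hχ h1]
      intro x
      rw [h2, h4]
  refine gf_dec (p := p) hfin.toFinset (fun χ => cval red χ) ?_ ?_
  · intro χ hχ h
    rw [Set.Finite.mem_toFinset]
    exact ⟨τ, χ, hχ, h.1, rfl⟩
  · intro w hw χ hχ
    have h4 := key w hw χ hχ
    constructor
    · rintro ⟨h2, h3⟩
      exact ⟨⟨(h4.mp h2).1, h3⟩, (h4.mp h2).2⟩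
    · rintro ⟨⟨h1, h2⟩, h3⟩
      exact ⟨h4.mpr ⟨h1, h3⟩, h2⟩

end

end Pool.Agent.H378.AC
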