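import Pool.Agent.H378.AC.Poset
import Pool.Graph.R_pool_sql_team_seeded_64922ed1.X209.DQ.Fin
import Pool.Graph.R_seed8.R674.KB.Dz

/-!
# Blocks without characters of defect zero
-/

set_option autoImplicit false
set_option linter.unusedSectionVars false
set_option linter.unusedVariables false

open scoped Classical BigOperators
open Pool.Agent.Helper884.IC (IsIrrChar)
open Pool.Agent.Y63.KR (dg dg_spec)
open Pool.Agent.Y63.NV (IsClassFun IsBlock InZ centralValue redC conv)
open Pool.Agent.Y930.NV (Cf ind cv cv_eq_conv R)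
open Pool.Agent.Y925.NV (kk md dz_iff cv_eq tr_z)
open Pool.Agent.X209.PJ (HasDefect)
open Pool.Agent.X209.DQ (NoDZ)
open Pool.Agent.Y405.NV

noncomputable section

namespace Pool.Agent.H378.AC

section values

variable {p : ℕ} [hp : Fact p.Prime] {F : Type} [Field F] [CharP F p]
  (red : integralClosure ℤ ℂ →+* F) {G : Type} [Group G] [Finite G]

lemma blk_sum {B : (G → F) → F} (hB : IsBlock B) {ι : Type} (s : Finset ι) (a : ι → F)
    (f : ι → G → F) (hf : ∀ j ∈ s, IsClassFun (f j)) :
    IsClassFun (fun x => ∑ j ∈ s, a j * f j x) ∧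
      B (fun x => ∑ j ∈ s, a j * f j x) = ∑ j ∈ s, a j * B (f j) := by
  induction s using Finset.induction_on with
  | empty =>
    simp only [Finset.sum_empty]
    exact ⟨fun g x => rfl, block_zero hB⟩
  | insert j s hj ih =>
    have h1 := ih fun k hk => hf k (Finset.mem_insert_of_mem hk)
    have h2 := hf j (Finset.mem_insert_self _ _)
    have h3 : IsClassFun (a j • f j) := fun g x => by
      simp only [Pi.smul_apply, h2 g x]
    have e : (fun x => ∑ k ∈ insert j s, a k * f k x) =
        a j • f j + fun x => ∑ k ∈ s, a k * f k x := by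
      funext x
      rw [Finset.sum_insert hj]
      rfl
    rw [e, hB.add _ _ h3 h1.1, hB.smul _ _ h2, h1.2, Finset.sum_insert hj]
    exact ⟨fun g x => by
      rw [Pi.add_apply, Pi.add_apply, h3 g x]
      exact congrArg ((a j • f j) x + ·) (h1.1 g x), rfl⟩

/-- a block which does not vanish on the elements supported at the classes of defect zero contains
a character of defect zero -/
theorem dz_of_value {B : (G → F) → F} (hB : IsBlock B) {f : G → F} (hf : IsClassFun f)
    (h0 : ∀ x, (kk x : F) = 0 → f x = 0) (hBf : B f ≠ 0) :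
    ∃ χ : G → ℂ, IsIrrChar χ ∧ (∀ z : G → F, IsClassFun z → centralValue red χ z = B z) ∧
      HasDefect p 0 χ := by
  have : Fintype G := Fintype.ofFinite G
  have hcl : ∀ χ ∈ Pool.Agent.Helper884.IC.Irr G, IsClassFun (fun g => redC red (χ g⁻¹)) := by
    intro χ hχ g x
    have e : (g * x * g⁻¹)⁻¹ = g * x⁻¹ * g⁻¹ := by group
    simp only [e]
    rw [Pool.Agent.Y930.NV.irr_Cf (Pool.Agent.Helper884.IC.mem_Irr.1 hχ)]
  have h1 : conv f f = fun g => ∑ χ ∈ Pool.Agent.Helper884.IC.Irr G,
      ((md χ : F)⁻¹ * centralValue red χ f * centralValue red χ f) * redC red (χ g⁻¹) := by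
    rw [cv_eq_conv]
    funext g
    exact cv_eq red hf hf h0 h0 g
  have h2 : B f * B f = ∑ χ ∈ Pool.Agent.Helper884.IC.Irr G,
      ((md χ : F)⁻¹ * centralValue red χ f * centralValue red χ f) *
        B (fun g => redC red (χ g⁻¹)) := by
    rw [← hB.mul f f hf hf, h1]
    exact (blk_sum hB _ _ _ hcl).2
  have h3 : ∑ χ ∈ Pool.Agent.Helper884.IC.Irr G,
      ((md χ : F)⁻¹ * centralValue red χ f * centralValue red χ f) *
        B (fun g => redC red (χ g⁻¹)) ≠ 0 := by
    rw [← h2]
    exact mul_ne_zero hBf hBf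
  obtain ⟨χ, hχ, hne⟩ := Finset.exists_ne_zero_of_sum_ne_zero h3
  have hχ' : IsIrrChar χ := Pool.Agent.Helper884.IC.mem_Irr.1 hχ
  have hBu : B (fun g => redC red (χ g⁻¹)) ≠ 0 := right_ne_zero_of_mul hne
  have hmd : (md χ : F) ≠ 0 := by
    have h4 := left_ne_zero_of_mul (left_ne_zero_of_mul (left_ne_zero_of_mul hne))
    exact fun h => h4 (by rw [h, inv_zero])
  refine ⟨χ, hχ', fun z hz => ?_, ?_⟩
  · have h4 : conv z (fun g => redC red (χ g⁻¹)) =
        centralValue red χ z • fun g => redC red (χ g⁻¹) := by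
      rw [cv_eq_conv]
      funext x
      have h5 := tr_z red hχ' hz x⁻¹
      rw [Pi.smul_apply, smul_eq_mul, ← h5]
      unfold cv
      refine Finset.sum_congr rfl fun y _ => ?_
      congr 3
      group
    have h5 := hB.mul z _ hz (hcl χ hχ)
    rw [h4, hB.smul _ _ (hcl χ hχ)] at h5
    exact mul_right_cancel₀ hBu h5
  · obtain ⟨n, hn, hfac⟩ := (dz_iff (p := p) hχ').2 (fun h => hmd ((CharP.cast_eq_zero_iff F p _).2 h))
    exact ⟨n, hn, by rw [add_zero]; exact hfac⟩

/-- the converse -/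
theorem value_of_dz {B : (G → F) → F} {χ : G → ℂ} (hχ : IsIrrChar χ)
    (hB : ∀ z : G → F, IsClassFun z → centralValue red χ z = B z) (hd : HasDefect p 0 χ) :
    ∃ f : G → F, IsClassFun f ∧ (∀ x, (kk x : F) = 0 → f x = 0) ∧ B f ≠ 0 := by
  have : Fintype G := Fintype.ofFinite G
  have hw : Pool.Agent.Y63.NV.IsWt p (⊥ : Subgroup G) χ := by
    refine ⟨hχ, ?_, ?_⟩
    · intro q hq x
      rw [Subgroup.mem_bot.mp hq, one_mul]
    · obtain ⟨n, hn, h1⟩ := hd
      refine ⟨n, hn, ?_⟩
      rw [Subgroup.card_bot, Nat.factorization_one, Finsupp.zero_apply]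
      exact h1
  obtain ⟨C, hC, hR⟩ := Pool.Agent.R674.KB.dz_class (F := F) red hw
  refine ⟨ind F C, Pool.Agent.R674.KB.isClassFun_ind C, ?_, ?_⟩
  · intro x hx
    unfold ind
    rw [if_neg]
    intro h
    apply hC
    rw [← CharP.cast_eq_zero_iff F p, ← hx]
    have h2 : kk C.out = kk x :=
      Pool.Agent.Y930.NV.Cf_out (A := ℕ) (fun g y => Pool.Agent.Y925.NV.kk_conj g y) h
    rw [h2]
  · rw [← hB _ (Pool.Agent.R674.KB.isClassFun_ind C), Pool.Agent.R674.KB.cval_ind red hχ]
    exact hR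

end values

/-! ### Invariant elements -/

section inv

variable {F : Type} [Field F] {A : Type} [Group A] [Finite A]

/-- an automorphism on the centre -/
def sa (α : MulAut A) : Subring.center (MonoidAlgebra F A) ≃+* Subring.center (MonoidAlgebra F A) :=
  Subring.centerCongr (MonoidAlgebra.domCongr F F α).toRingEquiv

lemma coeff_sa (α : MulAut A) (z : Subring.center (MonoidAlgebra F A)) (x : A) :
    (sa α z).1.coeff x = z.1.coeff (α⁻¹ x) := by
  change (MonoidAlgebra.domCongr F F α z.1).coeff x = _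
  rw [MonoidAlgebra.coeff_domCongr]
  rfl

lemma sa_sa (α β : MulAut A) (z : Subring.center (MonoidAlgebra F A)) :
    sa α (sa β z) = sa (α * β) z := by
  apply Subtype.ext
  ext x
  rw [coeff_sa, coeff_sa, coeff_sa, mul_inv_rev]
  rfl

lemma sa_one (z : Subring.center (MonoidAlgebra F A)) : sa 1 z = z := by
  apply Subtype.ext
  ext x
  rw [coeff_sa, inv_one]
  rfl

lemma sa_ofS (α : MulAut A) (c : F) :
    sa α (ofS c : Subring.center (MonoidAlgebra F A)) = ofS c := by
  apply Subtype.ext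
  ext x
  rw [coeff_sa, coeff_ofS, coeff_ofS]
  by_cases hx : x = 1
  · rw [if_pos hx, if_pos (by rw [hx, map_one])]
  · rw [if_neg hx, if_neg (fun h => hx (by rwa [EmbeddingLike.map_eq_one_iff] at h))]

variable {Γ : Type} [Group Γ] [Finite Γ] (a : Γ →* MulAut A)

/-- **An invariant block is determined by its values at the invariant elements.** -/
theorem uniq_aut {B B' : (A → F) → F} (hB : IsBlock B) (hB' : IsBlock B')
    (hI : ∀ (g : Γ) (f : A → F), IsClassFun f → B (fun x => f (a g x)) = B f)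
    (h : ∀ z : A → F, IsClassFun z → (∀ g x, z (a g x) = z x) → B' z = B z) {f : A → F}
    (hf : IsClassFun f) : B' f = B f := by
  let _ := Fintype.ofFinite Γ
  let w : Subring.center (MonoidAlgebra F A) := ∏ g : Γ, (sa (a g) (ofC f hf) - ofS (B' f))
  have hw : ∀ k : Γ, sa (a k) w = w := by
    intro k
    change sa (a k) (∏ g : Γ, (sa (a g) (ofC f hf) - ofS (B' f))) = _
    rw [map_prod]
    simp only [map_sub, sa_sa, sa_ofS, ← map_mul]
    exact Equiv.prod_comp (Equiv.mulLeft k)
      (fun g : Γ => (sa (a g) (ofC f hf) - ofS (B' f) : Subring.center (MonoidAlgebra F A)))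
  have h1 := h (fun x => w.1.coeff x) ((class_iff w.1).mp w.2) (fun g x => by
    have h2 := hw g⁻¹
    have h3 : (sa (a g⁻¹) w).1.coeff x = w.1.coeff x := by rw [h2]
    rw [coeff_sa, map_inv, inv_inv] at h3
    exact h3)
  have h3 : toRH hB' w = toRH hB w := h1
  have h6 : toRH hB w = (B f - B' f) ^ Nat.card Γ := by
    change toRH hB (∏ g : Γ, (sa (a g) (ofC f hf) - ofS (B' f))) = _
    rw [map_prod]
    rw [Finset.prod_congr rfl (g := fun _ => B f - B' f)]
    · rw [Finset.prod_const, Finset.card_univ, Nat.card_eq_fintype_card]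
    · intro g _
      rw [map_sub, toRH_ofS, toRH_apply]
      congr 1
      have h7 := hI g⁻¹ f hf
      rw [← h7]
      refine congrArg B (funext fun x => ?_)
      rw [coeff_sa, map_inv]
      rfl
  have h5 : toRH hB' w = 0 := by
    change toRH hB' (∏ g : Γ, (sa (a g) (ofC f hf) - ofS (B' f))) = _
    rw [map_prod]
    apply Finset.prod_eq_zero (Finset.mem_univ (1 : Γ))
    rw [map_one, sa_one, map_sub, toRH_ofS, toRH_ofC, sub_self]
  rw [h5, h6] at h3
  have h4 := pow_eq_zero_iff Nat.card_pos.ne' |>.mp h3.symm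
  exact (sub_eq_zero.mp h4).symm

/-- the block of a character of defect zero does not vanish at some invariant element supported at
the classes of defect zero -/
theorem inv_value {p : ℕ} [hp : Fact p.Prime] [CharP F p] (red : integralClosure ℤ ℂ →+* F)
    {B : (A → F) → F} {χ : A → ℂ} (hχ : IsIrrChar χ)
    (hB : ∀ z : A → F, IsClassFun z → centralValue red χ z = B z) (hd : HasDefect p 0 χ)
    (hBb : IsBlock B) :
    ∃ f : A → F, IsClassFun f ∧ (∀ x, (kk x : F) = 0 → f x = 0) ∧
      (∀ g x, f (a g x) = f x) ∧ B f ≠ 0 := by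
  have _ := Fintype.ofFinite A
  let _ := Fintype.ofFinite Γ
  have hmd : (md χ : F) ≠ 0 := by
    obtain ⟨n, hn, h1⟩ := hd
    rw [add_zero] at h1
    have h2 := (dz_iff (p := p) hχ).1 ⟨n, hn, h1⟩
    rwa [ne_eq, CharP.cast_eq_zero_iff F p]
  let O : Finset (A → ℂ) := Finset.univ.image fun g : Γ => fun x => χ (a g x)
  have hO : ∀ ψ ∈ O, IsIrrChar ψ := by
    intro ψ hψ
    obtain ⟨g, -, rfl⟩ := Finset.mem_image.mp hψ
    exact Pool.Agent.Y63.AWC.irr_comp (a g) hχ
  have hOm : ∀ ψ ∈ O, (md ψ : F) ≠ 0 := by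
    intro ψ hψ
    have h1 := Pool.Agent.Y925.NV.md_spec hχ
    have h2 := Pool.Agent.Y925.NV.md_spec (hO ψ hψ)
    have h3 : ψ 1 = χ 1 := by
      obtain ⟨g, -, rfl⟩ := Finset.mem_image.mp hψ
      simp only [map_one]
    rw [h3, ← h1] at h2
    have h4 : md ψ = md χ := by
      have h5 := mul_right_cancel₀ (Pool.Agent.Y930.NV.irr_one_ne hχ) h2
      exact_mod_cast h5
    rw [h4]
    exact hmd
  have hχO : χ ∈ O := Finset.mem_image.mpr ⟨1, Finset.mem_univ _, by
    funext x
    rw [map_one]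
    rfl⟩
  have hcl : ∀ ψ ∈ O, IsClassFun (fun g => redC red (ψ g⁻¹)) := by
    intro ψ hψ g x
    have e : (g * x * g⁻¹)⁻¹ = g * x⁻¹ * g⁻¹ := by group
    simp only [e]
    rw [Pool.Agent.Y930.NV.irr_Cf (hO ψ hψ)]
  have h1 := blk_sum hBb O (fun _ => (1 : F)) (fun ψ => fun g => redC red (ψ g⁻¹)) hcl
  simp only [one_mul] at h1
  refine ⟨_, h1.1, ?_, ?_, ?_⟩
  · intro x hx
    refine Finset.sum_eq_zero fun ψ hψ => ?_
    apply Pool.Agent.Y925.NV.red_zero red (hO ψ hψ) (hOm ψ hψ)
    rw [Pool.Agent.R674.KB.kk_inv]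
    exact hx
  · intro g x
    refine Finset.sum_bij' (fun ψ _ => fun y => ψ (a g y)) (fun ψ _ => fun y => ψ (a g⁻¹ y))
      ?_ ?_ ?_ ?_ ?_
    · intro ψ hψ
      obtain ⟨k, -, rfl⟩ := Finset.mem_image.mp hψ
      refine Finset.mem_image.mpr ⟨k * g, Finset.mem_univ _, ?_⟩
      funext y
      rw [map_mul]
      rfl
    · intro ψ hψ
      obtain ⟨k, -, rfl⟩ := Finset.mem_image.mp hψ
      refine Finset.mem_image.mpr ⟨k * g⁻¹, Finset.mem_univ _, ?_⟩
      funext y
      rw [map_mul]
      rfl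
    · intro ψ _
      funext y
      change ψ (a g (a g⁻¹ y)) = ψ y
      rw [← MulAut.mul_apply, ← map_mul, mul_inv_cancel, map_one]
      rfl
    · intro ψ _
      funext y
      change ψ (a g⁻¹ (a g y)) = ψ y
      rw [← MulAut.mul_apply, ← map_mul, inv_mul_cancel, map_one]
      rfl
    · intro ψ _
      change redC red (ψ (a g x)⁻¹) = redC red (ψ (a g x⁻¹))
      rw [map_inv]
  · rw [h1.2, Finset.sum_eq_single χ]
    · rw [← hB _ (hcl χ hχO), Pool.Agent.Y925.NV.orth red hχ hχ, if_pos rfl]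
      exact hmd
    · intro ψ hψ hne
      rw [← hB _ (hcl ψ hψ), Pool.Agent.Y925.NV.orth red (hO ψ hψ) hχ, if_neg hne.symm]
    · intro h
      exact absurd hχO h

end inv

end Pool.Agent.H378.AC
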