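import Pool.Agent.H378.AC.Main

/-!
# Cyclic quotients
-/

set_option autoImplicit false
set_option linter.unusedSectionVars false
set_option linter.unusedVariables false

open scoped Classical BigOperators Polynomial
open Polynomial
open Pool.Agent.Helper884.IC Pool.Agent.Y63.AWC Pool.Agent.Y63.KR Pool.Agent.X209.EQ
open Pool.Agent.X209.PJ Pool.Agent.X209.DI Pool.Agent.X209.DQ Pool.Agent.X209.NB
open Pool.Agent.Y63.NV (IsClassFun IsBlock InZ centralValue redC conv classValue)
open Pool.Agent.Q100.IV (Op NP op_np le_op)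

noncomputable section

namespace Pool.Agent.H378.AC

section defs

variable {F : Type} [Field F] (red : integralClosure ℤ ℂ →+* F) {E : Type} [Group E]

/-- The number of the irreducible characters `ψ` of `N_G(σ)` of defect `d` in blocks which induce
`B`, such that `e ∈ N_E(σ, ψ) G`: some element of the coset `e G` normalises the members of the
chain `σ` and fixes `ψ`. -/
def kE (p : ℕ) {G : Subgroup E} (B : (G → F) → F) (d : ℕ) (e : E)
    (σ : Set (Subgroup G)) : ℕ :=
  Nat.card {ψ : chainStabilizer σ → ℂ // IsIrrChar ψ ∧ HasDefect p d ψ ∧ Induces red B ψ ∧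
    ∃ b : E, Pool.Agent.X209.NB.Fixes G σ ψ b ∧ b⁻¹ * e ∈ G}

/-- the same number as a function of subgroups -/
def PsE (p : ℕ) {G : Subgroup E} (B : (G → F) → F) (d : ℕ) (e : E)
    (S : Subgroup E) (T : Subgroup G) : ℤ :=
  (Nat.card T : ℤ) * (Nat.card {ψ : T → ℂ // IsIrrChar ψ ∧ HasDefect p d ψ ∧
    (∀ f : G → F, IsClassFun f → centralValue red ψ (fun x => f x) = B f) ∧
    ∃ b : E, (b ∈ S ∧ ∀ x y : T, ((y : G) : E) = b * ((x : G) : E) * b⁻¹ → ψ y = ψ x) ∧
      b⁻¹ * e ∈ G} : ℤ)

end defs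

section

variable {p : ℕ} [hp : Fact p.Prime] {F : Type} [Field F] [CharP F p]
  (red : integralClosure ℤ ℂ →+* F) {E : Type} [Group E] [Finite E] {G : Subgroup E}
  [hG : G.Normal] {B : (G → F) → F} {d : ℕ}

lemma stab_comap (σ : Set (Subgroup G)) :
    (chainStabilizer (Subgroup.map G.subtype '' σ)).comap G.subtype = chainStabilizer σ := by
  ext x
  rw [Subgroup.mem_comap, mem_chainStabilizer, mem_chainStabilizer]
  constructor
  · intro h P hP
    exact (conj_map_iff G.subtype G.subtype_injective x P).mp (h _ ⟨P, hP, rfl⟩)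
  · rintro h _ ⟨P, hP, rfl⟩
    exact (conj_map_iff G.subtype G.subtype_injective x P).mpr (h P hP)

lemma psE_eq (e : E) (σ : Set (Subgroup G)) :
    PsE red p B d e (chainStabilizer (Subgroup.map G.subtype '' σ))
      ((chainStabilizer (Subgroup.map G.subtype '' σ)).comap G.subtype) =
      (Nat.card (chainStabilizer σ) : ℤ) * (kE red p B d e σ : ℤ) := by
  rw [stab_comap]
  unfold PsE kE
  congr 2
  refine Nat.card_congr (Equiv.subtypeEquivRight fun χ => ?_)
  refine and_congr_right fun _ => and_congr_right fun _ => and_congr Iff.rfl ?_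
  refine exists_congr fun b => and_congr_left fun _ => ?_
  unfold Pool.Agent.X209.NB.Fixes
  rw [mem_chainStabilizer]
  refine and_congr ?_ Iff.rfl
  constructor
  · intro h P hP
    exact h _ ⟨P, hP, rfl⟩
  · rintro h _ ⟨P, hP, rfl⟩
    exact h P hP

lemma kE_conj (e : E) (g : G) (σ : Set (Subgroup G))
    (hσ : IsChainAbove p (⊥ : Subgroup G) σ) :
    kE red p B d e (conjSub g '' σ) = kE red p B d e σ := by
  have h1 : Natural p (⊥ : Subgroup G) (fun σ ψ => HasDefect p d ψ ∧ Induces red B ψ ∧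
      ∃ b : E, Pool.Agent.X209.NB.Fixes G σ ψ b ∧ b⁻¹ * e ∈ G) := by
    intro g σ hσ χ hχ h2
    refine ⟨defect_cj g σ h2.1, ?_, ?_⟩
    · intro f hf
      rw [cv_cj red g σ hχ hf]
      exact h2.2.1 f hf
    · rw [exists_iff]
      exact (inU_conj _ g σ χ e).mp ((exists_iff _ χ e).mp h2.2.2)
  exact kAll_conj h1 g σ hσ

/-- **Characters with a given coset in the stabiliser.** -/
theorem alt_kE
    (hOrd : ∀ (H : Type) [Group H] [Finite H], IsCore p (⊥ : Subgroup H) → Ord red p H)
    (hcore : IsCore p (⊥ : Subgroup G)) (hB : IsBlock B) (hD : NoDZ p red B) (d : ℕ) (e : E) :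
    altW p (IsRad p) (fun σ : Set (Subgroup G) => (kE red p B d e σ : ℤ)) = 0 := by
  have : Fintype {σ : Set (Subgroup G) // IsChainAbove p (⊥ : Subgroup G) σ} := Fintype.ofFinite _
  have h1 := card_mul_altC (p := p) (A := (⊥ : Subgroup G))
    (fun σ => if IsRad p σ then (kE red p B d e σ : ℤ) else 0) (by
      intro g σ hσ
      simp only [isRad_conj, kE_conj red e g σ hσ])
  have hO : Op p G = ⊥ := by
    have h2 := op_np (p := p) G
    have h3 : ((Op p G).subgroupOf G) ≤ ⊥ := by
      apply hcore.max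
      · constructor
        intro n hn g
        rw [Subgroup.mem_subgroupOf] at hn ⊢
        have h4 := h2.nrm g g.2
        have h5 : (g : E) * n * (g : E)⁻¹ ∈ conjSub (g : E) (Op p G) := ⟨_, hn, rfl⟩
        rw [h4] at h5
        exact h5
      · exact h2.pg.comap_subtype
    rw [le_bot_iff, Subgroup.subgroupOf_eq_bot] at h3
    rw [eq_bot_iff]
    exact h3 le_rfl h2.le
  have h2 := tt_all red hOrd G (MulAut.conjNormal e) B hB hD
  have h3 : ∑ σ : {σ : Set (Subgroup G) // IsPChain p σ}, (-1 : ℤ) ^ σ.1.ncard *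
      ((Nat.card (chainStabilizer σ.1) : ℤ) * (kE red p B d e σ.1 : ℤ)) = 0 := by
    have h4 := congrArg (fun q : ℤ[X] => q.coeff d) h2
    simp only [coeff_zero] at h4
    unfold MMP at h4
    rw [finsetSum_coeff] at h4
    refine (Finset.sum_congr rfl fun σ _ => ?_).trans h4
    have h5 : ((-1 : ℤ[X]) ^ σ.1.ncard) = C ((-1 : ℤ) ^ σ.1.ncard) := by simp
    have h6 : (Nat.card (chainStabilizer σ.1) : ℤ[X]) =
          C ((Nat.card (chainStabilizer σ.1) : ℕ) : ℤ) := by simp
    rw [h5, coeff_C_mul, h6, coeff_C_mul, coeff_gf]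
    congr 3
    unfold kE
    refine Nat.card_congr (Equiv.subtypeEquivRight fun χ => ?_)
    rw [exists_iff]
    rfl
  have h4 := cs_rad_hom G.subtype G.subtype_injective (Subgroup.range_subtype G) hO
    (fun S => PsE red p B d e S (S.comap G.subtype))
  simp only [psE_eq] at h4
  rw [h3] at h4
  have h5 : ∑ σ : {σ : Set (Subgroup G) // IsChainAbove p (⊥ : Subgroup G) σ},
      (-1 : ℤ) ^ σ.1.ncard * ((Nat.card (chainStabilizer σ.1) : ℤ) *
        (if IsRad p σ.1 then (kE red p B d e σ.1 : ℤ) else 0)) = 0 := by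
    refine (Fintype.sum_equiv (Equiv.subtypeEquivRight fun σ => ⟨above_pch, pch_above⟩) _ _
      fun σ => ?_).trans h4
    change _ = (-1 : ℤ) ^ σ.1.ncard * (if IsRad p σ.1 then
      (Nat.card (chainStabilizer σ.1) : ℤ) * (kE red p B d e σ.1 : ℤ) else 0)
    split_ifs
    · rfl
    · rw [mul_zero]
  rw [h5] at h1
  unfold altW
  refine (mul_eq_zero.mp h1).resolve_left ?_
  exact_mod_cast Nat.card_pos.ne'

/-- the decomposition by the stabilisers -/
lemma kE_sum [Fintype (Subgroup E)] (e : E) (σ : Set (Subgroup G)) :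
    kE red p B d e σ = ∑ U : Subgroup E, if e ∈ U then kI red p B d U σ else 0 := by
  obtain ⟨Q, hQ⟩ : ∃ Q : (chainStabilizer σ → ℂ) → Prop, ∀ θ, Q θ ↔
    (HasDefect p d θ ∧ Induces red B θ) := ⟨fun θ => HasDefect p d θ ∧ Induces red B θ,
      fun _ => Iff.rfl⟩
  have h1 : kE red p B d e σ = ((IrF (chainStabilizer σ)).filter
      (fun θ => Q θ ∧ e ∈ FixSub σ θ ⊔ G)).card := by
    unfold kE
    rw [← Fintype.card_coe, ← Nat.card_eq_fintype_card]
    refine Nat.card_congr (Equiv.subtypeEquivRight fun χ => ?_)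
    rw [Finset.mem_filter, mem_IrF, hQ]
    have h2 : e ∈ FixSub σ χ ⊔ G ↔ ∃ b : E, Pool.Agent.X209.NB.Fixes G σ χ b ∧ b⁻¹ * e ∈ G :=
      ((stabIs_iff' (FixSub σ χ ⊔ G) σ χ).mpr rfl) e
    rw [h2]
    tauto
  rw [h1, Finset.card_eq_sum_card_fiberwise (f := fun θ => FixSub σ θ ⊔ G)
    (t := (Finset.univ : Finset (Subgroup E))) (fun θ _ => Finset.mem_coe.mpr (Finset.mem_univ _))]
  refine Finset.sum_congr rfl fun U _ => ?_
  split_ifs with h
  · unfold kI
    rw [← Fintype.card_coe, ← Nat.card_eq_fintype_card]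
    refine Nat.card_congr (Equiv.subtypeEquivRight fun χ => ?_)
    rw [Finset.mem_filter, Finset.mem_filter, mem_IrF, stabIs_iff', hQ]
    constructor
    · rintro ⟨⟨h2, h3, h4⟩, h5⟩
      exact ⟨h2, h3.1, h3.2, h5.symm⟩
    · rintro ⟨h2, h3, h4, h5⟩
      exact ⟨⟨h2, ⟨h3, h4⟩, by rwa [← h5]⟩, h5.symm⟩
  · rw [Finset.card_eq_zero, Finset.filter_eq_empty_iff]
    intro χ hχ h2
    apply h
    rw [← h2]
    exact (Finset.mem_filter.mp hχ).2.2

lemma kI_zero {U : Subgroup E} (hU : ¬ G ≤ U) (σ : Set (Subgroup G)) :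
    kI red p B d U σ = 0 := by
  unfold kI
  rw [Nat.card_eq_zero]
  left
  constructor
  rintro ⟨χ, h1, h2, h3, h4⟩
  rw [stabIs_iff'] at h4
  exact hU (h4 ▸ le_sup_right)

lemma altW_sum {ι : Type} (s : Finset ι) (W : Set (Subgroup G) → Prop)
    (f : ι → Set (Subgroup G) → ℤ) :
    altW p W (fun σ => ∑ i ∈ s, f i σ) = ∑ i ∈ s, altW p W (f i) := by
  unfold altW
  rw [← altC_sum]
  refine altC_congr fun σ _ => ?_
  split_ifs
  · rfl
  · rw [Finset.sum_const_zero]

lemma altW_zero (W : Set (Subgroup G) → Prop) : altW p W (fun _ => (0 : ℤ)) = 0 := by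
  unfold altW
  rw [altC_congr (g := fun σ => ∑ i ∈ (∅ : Finset ℕ), (fun _ _ => (0 : ℤ)) i σ), altC_sum,
    Finset.sum_empty]
  intro σ _
  simp

lemma alt_kE_sum [Fintype (Subgroup E)] (e : E) :
    altW p (IsRad p) (fun σ : Set (Subgroup G) => (kE red p B d e σ : ℤ)) =
      ∑ U : Subgroup E, if e ∈ U then
        altW p (IsRad p) (fun σ : Set (Subgroup G) => (kI red p B d U σ : ℤ)) else 0 := by
  have h1 : (fun σ : Set (Subgroup G) => (kE red p B d e σ : ℤ)) = fun σ =>
      ∑ U : Subgroup E, (fun (U : Subgroup E) (σ : Set (Subgroup G)) =>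
        if e ∈ U then (kI red p B d U σ : ℤ) else 0) U σ := by
    funext σ
    rw [kE_sum]
    push_cast
    rfl
  rw [h1, altW_sum]
  refine Finset.sum_congr rfl fun U _ => ?_
  split_ifs
  · rfl
  · exact altW_zero _

/-- **From the cosets to the stabilisers.** -/
theorem inv_of_kE (hc : IsCyclic (E ⧸ G))
    (h : ∀ B : (G → F) → F, IsBlock B → NoDZ p red B → ∀ (d : ℕ) (e : E),
      altW p (IsRad p) (fun σ : Set (Subgroup G) => (kE red p B d e σ : ℤ)) = 0) :
    Invt red p G := by
  have : Fintype (Subgroup E) := Fintype.ofFinite _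
  intro B hB hD d
  have key : ∀ (n : ℕ) (U : Subgroup E), Nat.card E - Nat.card U = n →
      altW p (IsRad p) (fun σ : Set (Subgroup G) => (kI red p B d U σ : ℤ)) = 0 := by
    intro n
    induction n using Nat.strong_induction_on with
    | _ n ih =>
    intro U hU
    by_cases hGU : G ≤ U
    · have hcU : IsCyclic (U.map (QuotientGroup.mk' G)) := inferInstance
      obtain ⟨⟨q, hq⟩, hgen⟩ := hcU.exists_generator
      obtain ⟨u, huU, rfl⟩ := hq
      have hV : ∀ V : Subgroup E, G ≤ V → u ∈ V → U ≤ V := by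
        intro V hGV huV x hx
        obtain ⟨k, hk⟩ := hgen ⟨QuotientGroup.mk' G x, ⟨x, hx, rfl⟩⟩
        have h1 := congrArg Subtype.val hk
        have h2 : (QuotientGroup.mk (u ^ k) : E ⧸ G) = QuotientGroup.mk x := h1
        have h3 : (u ^ k)⁻¹ * x ∈ G := QuotientGroup.eq.mp h2
        have h4 : x = u ^ k * ((u ^ k)⁻¹ * x) := by group
        rw [h4]
        exact V.mul_mem (V.zpow_mem huV k) (hGV h3)
      have h1 := h B hB hD d u
      rw [alt_kE_sum red u, Finset.sum_eq_single U] at h1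
      · rwa [if_pos (SetLike.mem_coe.mp huU)] at h1
      · intro V _ hVU
        split_ifs with huV
        · by_cases hGV : G ≤ V
          · have h2 := hV V hGV huV
            have h3 : Nat.card U < Nat.card V := by
              have h4 := Subgroup.card_le_of_le h2
              refine lt_of_le_of_ne h4 fun h5 => hVU ?_
              exact (Subgroup.eq_of_le_of_card_ge h2 h5.ge).symm
            have h4 : Nat.card V ≤ Nat.card E := Nat.le_of_dvd Nat.card_pos V.card_subgroup_dvd_card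
            exact ih (Nat.card E - Nat.card V) (by omega) V rfl
          · simp only [kI_zero red hGV, Nat.cast_zero]
            exact altW_zero _
        · rfl
      · intro h2
        exact absurd (Finset.mem_univ _) h2
    · simp only [kI_zero red hGU, Nat.cast_zero]
      exact altW_zero _
  exact fun U => key _ U rfl

/-- the converse -/
theorem kE_of_inv (h : Invt red p G) (hB : IsBlock B) (hD : NoDZ p red B) (e : E) :
    altW p (IsRad p) (fun σ : Set (Subgroup G) => (kE red p B d e σ : ℤ)) = 0 := by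
  have : Fintype (Subgroup E) := Fintype.ofFinite _
  rw [alt_kE_sum]
  refine Finset.sum_eq_zero fun U _ => ?_
  rw [h B hB hD d U, ite_self]

end

section

variable {p : ℕ} [hp : Fact p.Prime] {F : Type} [Field F] [CharP F p]
  (red : integralClosure ℤ ℂ →+* F)

lemma cyc_gen {E : Type} [Group E] {G : Subgroup E} [G.Normal]
    (h : ∃ e₀ : E, G ⊔ Subgroup.zpowers e₀ = ⊤) : IsCyclic (E ⧸ G) := by
  obtain ⟨e₀, he₀⟩ := h
  refine ⟨⟨QuotientGroup.mk e₀, fun y => ?_⟩⟩
  obtain ⟨x, rfl⟩ := QuotientGroup.mk_surjective y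
  have hx : x ∈ G ⊔ Subgroup.zpowers e₀ := by
    rw [he₀]
    trivial
  rw [Subgroup.mem_sup_of_normal_left] at hx
  obtain ⟨g, hg, z, ⟨k, rfl⟩, rfl⟩ := hx
  refine ⟨k, ?_⟩
  change (QuotientGroup.mk e₀ : E ⧸ G) ^ k = QuotientGroup.mk (g * e₀ ^ k)
  have h1 : (QuotientGroup.mk g : E ⧸ G) = 1 := (QuotientGroup.eq_one_iff g).mpr hg
  rw [QuotientGroup.mk_mul, h1, one_mul, QuotientGroup.mk_zpow]

/-- **The equivalence.** -/
theorem all_cyclic : List.TFAE [
    ∀ (H : Type) [Group H] [Finite H], IsCore p (⊥ : Subgroup H) → Ord red p H,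
    ∀ (E : Type) [Group E] [Finite E] (G : Subgroup E) [G.Normal], IsCore p (⊥ : Subgroup G) →
      IsCyclic (E ⧸ G) → Invt red p G,
    ∀ (E : Type) [Group E] [Finite E] (G : Subgroup E) [G.Normal], IsCore p (⊥ : Subgroup G) →
      ∀ B : (G → F) → F, IsBlock B → NoDZ p red B → ∀ (d : ℕ) (e : E),
        altW p (IsRad p) (fun σ : Set (Subgroup G) => (kE red p B d e σ : ℤ)) = 0] := by
  tfae_have 1 → 3 := by
    intro h E _ _ G _ hc B hB hD d e
    exact alt_kE red h hc hB hD d e
  tfae_have 3 → 2 := by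
    intro h E _ _ G _ hc hcyc
    exact inv_of_kE red hcyc (h E G hc)
  tfae_have 2 → 1 := by
    intro h H _ _ hc
    exact ord_of_inv red (fun E _ _ G _ hcore _ hE => h E G hcore (cyc_gen hE)) hc
  tfae_finish

end

end Pool.Agent.H378.AC
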