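import Pool.Agent.H378.AC.Poset
import Pool.Graph.R_seed8.Q90.WR.Cfn

/-!
# Alternating sums of functions of the stabilisers
-/

set_option autoImplicit false
set_option linter.unusedSectionVars false

open scoped Classical BigOperators

noncomputable section

namespace Pool.Agent.H378.AC

open Pool.Agent.Q100.IV Pool.Agent.Q100.PX Pool.Agent.Y63.KR
open Pool.Agent.Q90.WR (exists_moebius)

variable {E : Type} [Group E] [Finite E] {p : ℕ} [hp : Fact p.Prime]

/-- the chains of nontrivial `p`-subgroups of `X` -/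
abbrev ChX (p : ℕ) (X : Subgroup E) : Type :=
  {σ : Set (Subgroup E) // IsPChain p σ ∧ ∀ P ∈ σ, P ≤ X}

instance instFintypeChX (p : ℕ) (X : Subgroup E) : Fintype (ChX p X) := Fintype.ofFinite _

section

variable {R : Type} [CommRing R]

/-- the alternating sum of a function of the stabilisers -/
def CS (p : ℕ) (X : Subgroup E) (Φ : Subgroup E → R) : R :=
  ∑ σ : ChX p X, (-1) ^ σ.1.ncard * Φ (chainStabilizer σ.1)

omit hp in
lemma chx_sum (K X : Subgroup E) :
    ∑ σ : ChX p X, (-1 : ℤ) ^ σ.1.ncard * (if K ≤ chainStabilizer σ.1 then 1 else 0) =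
      alt (· ≤ ·) (SS p (K : Set E) X ⊥) := by
  unfold alt
  have h2 : ∀ σ : ChX p X,
      (-1 : ℤ) ^ σ.1.ncard * (if K ≤ chainStabilizer σ.1 then 1 else 0) =
      if K ≤ chainStabilizer σ.1 then (-1 : ℤ) ^ σ.1.ncard else 0 := by
    intro σ
    split_ifs <;> simp
  simp only [h2]
  rw [← Finset.sum_filter]
  have hK : ∀ (σ : Set (Subgroup E)), K ≤ chainStabilizer σ ↔
      ∀ P ∈ σ, ∀ x ∈ (K : Set E), conjSub x P = P := by
    intro σ
    constructor
    · intro h P hP x hx
      exact mem_chainStabilizer.mp (h hx) P hP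
    · intro h x hx
      exact mem_chainStabilizer.mpr fun P hP => h P hP x hx
  refine Finset.sum_bij (fun σ _ => fs σ.1) ?_ ?_ ?_ ?_
  · intro σ hσ
    rw [Finset.mem_filter, hK] at hσ
    rw [mem_Ch]
    refine ⟨fun P hP => ?_, ?_⟩
    · have hP' : P ∈ σ.1 := mem_fs.mp hP
      exact mem_SS.mpr ⟨σ.2.1.isPGroup P hP', bot_lt_iff_ne_bot.mpr (σ.2.1.ne_bot P hP'),
        σ.2.2 P hP', hσ.2 P hP'⟩
    · intro P hP Q hQ hne
      exact σ.2.1.chain (mem_fs.mp hP) (mem_fs.mp hQ) hne
  · intro σ _ τ _ h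
    apply Subtype.ext
    ext P
    rw [← mem_fs (s := σ.1), h, mem_fs]
  · intro τ hτ
    rw [mem_Ch] at hτ
    have hm : ∀ P ∈ τ, IsPGroup p P ∧ ⊥ < P ∧ P ≤ X ∧ ∀ x ∈ (K : Set E), conjSub x P = P :=
      fun P hP => mem_SS.mp (hτ.1 hP)
    refine ⟨⟨(τ : Set (Subgroup E)), ⟨hτ.2, fun P hP => (hm P hP).1,
      fun P hP => (hm P hP).2.1.ne'⟩, fun P hP => (hm P hP).2.2.1⟩, ?_, ?_⟩
    · rw [Finset.mem_filter, hK]
      exact ⟨Finset.mem_univ _, fun Q hQ => (hm Q hQ).2.2.2⟩
    · ext P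
      rw [mem_fs]
      exact Iff.rfl
  · intro σ _
    congr 1
    rw [Set.ncard_eq_toFinset_card _ (Set.toFinite _)]
    rfl

omit hp in
lemma chx_sum' (K X : Subgroup E) (r : R) :
    ∑ σ : ChX p X, (-1 : R) ^ σ.1.ncard * (if K ≤ chainStabilizer σ.1 then r else 0) =
      ((alt (· ≤ ·) (SS p (K : Set E) X ⊥) : ℤ) : R) * r := by
  rw [← chx_sum, Int.cast_sum, Finset.sum_mul]
  refine Finset.sum_congr rfl fun σ _ => ?_
  split_ifs <;> simp

omit hp in
lemma cs_eq [Fintype (Subgroup E)] (X : Subgroup E) {Φ c : Subgroup E → R}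
    (hc : ∀ H, Φ H = ∑ K : Subgroup E, if K ≤ H then c K else 0) :
    CS p X Φ = ∑ K : Subgroup E, ((alt (· ≤ ·) (SS p (K : Set E) X ⊥) : ℤ) : R) * c K := by
  unfold CS
  simp only [hc, Finset.mul_sum]
  rw [Finset.sum_comm]
  exact Finset.sum_congr rfl fun K _ => chx_sum' K X (c K)

/-- **The sums for `E` and for `G`.** -/
theorem cs_rank1 {G : Subgroup E} [hG : G.Normal] (hR : R1 p G) (Φ : Subgroup E → R) :
    CS p ⊤ Φ = CS p G Φ -
      ∑ Q ∈ OQ p G, CS p (CQ G Q) (fun S => Φ (S ⊓ Subgroup.normalizer (Q : Set E))) := by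
  have : Fintype (Subgroup E) := Fintype.ofFinite _
  obtain ⟨c, hc⟩ := exists_moebius Φ
  have h1 : ∀ Q : Subgroup E, CS p (CQ G Q) (fun S => Φ (S ⊓ Subgroup.normalizer (Q : Set E))) =
      ∑ K : Subgroup E, ((alt (· ≤ ·) (SS p (K : Set E) (CQ G Q) ⊥) : ℤ) : R) *
        (if K ≤ Subgroup.normalizer (Q : Set E) then c K else 0) := by
    intro Q
    apply cs_eq
    intro H
    rw [hc]
    refine Finset.sum_congr rfl fun K _ => ?_
    rw [le_inf_iff]
    by_cases h2 : K ≤ H
    · by_cases h3 : K ≤ Subgroup.normalizer (Q : Set E)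
      · rw [if_pos ⟨h2, h3⟩, if_pos h2, if_pos h3]
      · rw [if_neg (fun h => h3 h.2), if_pos h2, if_neg h3]
    · rw [if_neg (fun h => h2 h.1), if_neg h2]
  simp only [h1]
  rw [cs_eq ⊤ hc, cs_eq G hc, Finset.sum_comm, ← Finset.sum_sub_distrib]
  refine Finset.sum_congr rfl fun K _ => ?_
  rw [alt_rank1 hR (K : Set E)]
  have h2 : ∀ Q : Subgroup E, (∀ x ∈ (K : Set E), conjSub x Q = Q) ↔
      K ≤ Subgroup.normalizer (Q : Set E) := by
    intro Q
    constructor
    · intro h x hx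
      exact conjSub_eq_iff.mp (h x hx)
    · intro h x hx
      exact conjSub_eq_iff.mpr (h hx)
  simp only [h2]
  rw [Int.cast_sub, sub_mul, Int.cast_sum, Finset.sum_mul, Finset.sum_filter]
  congr 1
  refine Finset.sum_congr rfl fun Q _ => ?_
  split_ifs <;> simp

/-- the sums vanish in the presence of a normal `p`-subgroup -/
theorem cs_zero {G U : Subgroup E} (hU : NP p G U) (hU1 : U ≠ ⊥)
    (hn : ∀ x : E, conjSub x U = U) (Φ : Subgroup E → R) : CS p G Φ = 0 := by
  have : Fintype (Subgroup E) := Fintype.ofFinite _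
  obtain ⟨c, hc⟩ := exists_moebius Φ
  rw [cs_eq G hc]
  refine Finset.sum_eq_zero fun K _ => ?_
  rw [alt_normal hU (bot_lt_iff_ne_bot.mpr hU1) (fun x _ => hn x), Int.cast_zero, zero_mul]

/-- radical chains -/
theorem cs_rad {G : Subgroup E} [hG : G.Normal] (hO : Op p G = ⊥) (Φ : Subgroup E → R)
    [Fintype {σ : Set (Subgroup E) // IsRadChain p G σ}] :
    ∑ σ : {σ : Set (Subgroup E) // IsRadChain p G σ}, (-1) ^ σ.1.ncard * Φ (chainStabilizer σ.1) =
      CS p G Φ := by
  have : Fintype (Subgroup E) := Fintype.ofFinite _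
  obtain ⟨c, hc⟩ := exists_moebius Φ
  rw [cs_eq G hc]
  simp only [hc, Finset.mul_sum]
  rw [Finset.sum_comm]
  refine Finset.sum_congr rfl fun K _ => ?_
  rw [← sum_rad (p := p) (K : Set E) hO, Int.cast_sum, Finset.sum_mul]
  refine Finset.sum_congr rfl fun σ _ => ?_
  have h : (∀ P ∈ σ.1, ∀ x ∈ (K : Set E), conjSub x P = P) ↔ K ≤ chainStabilizer σ.1 := by
    constructor
    · intro h x hx
      exact mem_chainStabilizer.mpr fun P hP => h P hP x hx
    · intro h P hP x hx
      exact mem_chainStabilizer.mp (h hx) P hP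
  simp only [h]
  split_ifs <;> simp

end

section hom

variable {R : Type} [CommRing R] {A : Type} [Group A] [Finite A] (i : A →* E)
  (hi : Function.Injective i)

instance instFintypeChA (p : ℕ) (A : Type) [Group A] [Finite A] :
    Fintype {σ : Set (Subgroup A) // IsPChain p σ} := Fintype.ofFinite _

include hi in
omit [Finite E] [Finite A] hp in
lemma pch_map {σ : Set (Subgroup A)} : IsPChain p (Subgroup.map i '' σ) ↔ IsPChain p σ := by
  have hle : ∀ P Q : Subgroup A, P.map i ≤ Q.map i ↔ P ≤ Q := fun P Q =>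
    Subgroup.map_le_map_iff_of_injective hi
  have hinj := Subgroup.map_injective hi
  constructor
  · intro h
    refine ⟨?_, ?_, ?_⟩
    · intro P hP Q hQ hne
      rcases h.chain ⟨P, hP, rfl⟩ ⟨Q, hQ, rfl⟩ (fun h => hne (hinj h)) with h1 | h1
      · exact Or.inl ((hle _ _).mp h1)
      · exact Or.inr ((hle _ _).mp h1)
    · intro P hP
      have h1 := h.isPGroup _ ⟨P, hP, rfl⟩
      have := h1.comap_of_injective i hi
      rwa [Subgroup.comap_map_eq_self_of_injective hi] at this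
    · rintro P hP rfl
      exact h.ne_bot _ ⟨⊥, hP, rfl⟩ (Subgroup.map_bot _)
  · intro h
    refine ⟨?_, ?_, ?_⟩
    · rintro _ ⟨P, hP, rfl⟩ _ ⟨Q, hQ, rfl⟩ hne
      rcases h.chain hP hQ (fun h => hne (by rw [h])) with h1 | h1
      · exact Or.inl ((hle _ _).mpr h1)
      · exact Or.inr ((hle _ _).mpr h1)
    · rintro _ ⟨P, hP, rfl⟩
      exact (h.isPGroup P hP).map _
    · rintro _ ⟨P, hP, rfl⟩ h1
      exact h.ne_bot P hP ((Subgroup.map_eq_bot_iff_of_injective _ hi).mp h1)

/-- the chains of the image -/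
def chE {X : Subgroup E} (hX : i.range = X) :
    {σ : Set (Subgroup A) // IsPChain p σ} ≃ ChX p X where
  toFun σ := ⟨Subgroup.map i '' σ.1, (pch_map i hi).mpr σ.2, by
    rintro _ ⟨P, _, rfl⟩
    rw [← hX]
    exact Subgroup.map_le_range i P⟩
  invFun τ := ⟨Subgroup.comap i '' τ.1, by
    have h1 : Subgroup.map i '' (Subgroup.comap i '' τ.1) = τ.1 := by
      rw [Set.image_image]
      have : ∀ Q ∈ τ.1, (Q.comap i).map i = Q := fun Q hQ =>
        Subgroup.map_comap_eq_self (by rw [hX]; exact τ.2.2 Q hQ)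
      rw [Set.image_congr this, Set.image_id']
    rw [← pch_map i hi, h1]
    exact τ.2.1⟩
  left_inv σ := by
    apply Subtype.ext
    change Subgroup.comap i '' (Subgroup.map i '' σ.1) = _
    rw [Set.image_image]
    have : ∀ P ∈ σ.1, (P.map i).comap i = P :=
      fun P _ => Subgroup.comap_map_eq_self_of_injective hi P
    rw [Set.image_congr this, Set.image_id']
  right_inv τ := by
    apply Subtype.ext
    change Subgroup.map i '' (Subgroup.comap i '' τ.1) = _
    rw [Set.image_image]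
    have : ∀ Q ∈ τ.1, (Q.comap i).map i = Q := fun Q hQ =>
      Subgroup.map_comap_eq_self (by rw [hX]; exact τ.2.2 Q hQ)
    rw [Set.image_congr this, Set.image_id']

include hi in
omit hp in
lemma cs_hom {X : Subgroup E} (hX : i.range = X) (Φ : Subgroup E → R) :
    CS p X Φ = ∑ σ : {σ : Set (Subgroup A) // IsPChain p σ},
      (-1) ^ σ.1.ncard * Φ (chainStabilizer (Subgroup.map i '' σ.1)) := by
  unfold CS
  refine (Fintype.sum_equiv (chE (p := p) i hi hX) _ _ fun σ => ?_).symm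
  change _ = (-1) ^ (Subgroup.map i '' σ.1).ncard * Φ (chainStabilizer (Subgroup.map i '' σ.1))
  rw [Set.ncard_image_of_injective _ (Subgroup.map_injective hi)]

end hom

end Pool.Agent.H378.AC
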