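import Pool.Agent.H378.AC.Loc
import Pool.Agent.H378.AC.Fun

/-!
# The formula for one pair
-/

set_option autoImplicit false
set_option linter.unusedSectionVars false
set_option linter.unusedVariables false

open scoped Classical BigOperators Polynomial
open Polynomial
open Pool.Agent.Helper884.IC Pool.Agent.Y63.AWC Pool.Agent.Y63.KR Pool.Agent.X209.EQ
open Pool.Agent.X209.PJ Pool.Agent.X209.DI Pool.Agent.X209.DQ Pool.Agent.X209.NB
open Pool.Agent.X209.CC
open Pool.Agent.Y63.NV (IsClassFun IsBlock InZ centralValue redC conv)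

noncomputable section

namespace Pool.Agent.H378.AC

attribute [-instance] MonoidHom.fintypeRange MonoidHom.decidableMemRange

section defs

variable {F : Type} [Field F] (red : integralClosure ℤ ℂ →+* F)

/-- the values of the central character at the invariant functions supported on `G` -/
def Cvv {Y H : Type} [Group Y] [Group H] (G : Subgroup Y) (v : (Y → F) → F) (j : H →* Y)
    (χ : H → ℂ) : Prop :=
  ∀ z : Y → F, InZ G z → centralValue red χ (fun h => z (j h)) = v z

/-- the function of the stabilisers -/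
def PhY (p : ℕ) {Y : Type} [Group Y] [Finite Y] (G : Subgroup Y) (v : (Y → F) → F)
    (S : Subgroup Y) : ℤ[X] :=
  (Nat.card S : ℤ[X]) * gf p (Cvv red G v S.subtype)

end defs

/-- the alternating sum of the generating polynomials of the characters with the property `Q` fixed,
together with their chains, by some element of the coset of `α` modulo inner automorphisms -/
def MMP (p : ℕ) {A : Type} [Group A] [Finite A] (α : MulAut A)
    (Q : ∀ σ : Set (Subgroup A), (chainStabilizer σ → ℂ) → Prop) : ℤ[X] :=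
  ∑ σ : {σ : Set (Subgroup A) // IsPChain p σ}, (-1) ^ σ.1.ncard *
    ((Nat.card (chainStabilizer σ.1) : ℤ[X]) *
      gf p (fun θ : chainStabilizer σ.1 → ℂ => Q σ.1 θ ∧
        ∃ a : A, FixAut σ.1 θ (α * MulAut.conj a)))

section

variable {A Y : Type} [Group A] [Group Y] [Finite A] [Finite Y]

/-- the automorphisms which fix the chain and the character -/
def FA (σ : Set (Subgroup A)) (θ : chainStabilizer σ → ℂ) : Subgroup (MulAut A) where
  carrier := {α | FixAut σ θ α}
  one_mem' := by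
    refine ⟨fun P _ => Subgroup.map_id P, fun x y hxy => ?_⟩
    rw [Subtype.ext (hxy : (y : A) = x)]
  mul_mem' := by
    intro a b ha hb
    refine ⟨fun P hP => ?_, fun x y hxy => ?_⟩
    · have h1 : (a * b : MulAut A).toMonoidHom = a.toMonoidHom.comp b.toMonoidHom := rfl
      rw [h1, ← Subgroup.map_map, hb.1 P hP, ha.1 P hP]
    · rw [MulAut.mul_apply] at hxy
      have h2 := mem_stab_aut hb.1 x.2
      rw [← hb.2 x ⟨_, h2⟩ rfl]
      exact ha.2 ⟨_, h2⟩ y hxy
  inv_mem' := by
    intro a ha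
    refine ⟨fun P hP => ?_, fun x y hxy => ?_⟩
    · conv_lhs => rw [← ha.1 P hP]
      rw [Subgroup.map_map]
      have h1 : ((a⁻¹ : MulAut A)).toMonoidHom.comp a.toMonoidHom = MonoidHom.id A := by
        ext x
        simp
      rw [h1, Subgroup.map_id]
    · symm
      apply ha.2 y x
      rw [hxy]
      simp

lemma mem_FA {σ : Set (Subgroup A)} {θ : chainStabilizer σ → ℂ} {α : MulAut A} :
    α ∈ FA σ θ ↔ FixAut σ θ α := Iff.rfl

variable (i : A →* Y) (hi : Function.Injective i) (N : Subgroup Y)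
  (hN : N ≤ Subgroup.normalizer (i.range : Set Y))

/-- the action of `N` on `A` -/
def actI : N →* MulAut A :=
  (MulAut.congr (MonoidHom.ofInjective hi).symm).toMonoidHom.comp
    ((Subgroup.normalizerMonoidHom i.range).comp (Subgroup.inclusion hN))

lemma actI_apply (n : N) (a : A) : i (actI i hi N hN n a) = n * i a * (n : Y)⁻¹ := by
  let E := MonoidHom.ofInjective hi
  have hE : ∀ a, ((E a : i.range) : Y) = i a := fun a => rfl
  have h1 : actI i hi N hN n a =
      E.symm (Subgroup.normalizerMonoidHom i.range (Subgroup.inclusion hN n) (E a)) := rfl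
  rw [h1, ← hE, E.apply_symm_apply]
  rfl

lemma map_actI (n : N) (P : Subgroup A) : P.map (actI i hi N hN n).toMonoidHom = P ↔
    conjSub (n : Y) (P.map i) = P.map i := by
  have h1 : conjSub (n : Y) (P.map i) = (P.map (actI i hi N hN n).toMonoidHom).map i := by
    unfold conjSub
    rw [Subgroup.map_map, Subgroup.map_map]
    congr 1
    ext a
    exact (actI_apply i hi N hN n a).symm
  rw [h1]
  exact ⟨fun h => by rw [h], fun h => Subgroup.map_injective hi h⟩

/-- the stabiliser in `N` -/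
def SN (σ : Set (Subgroup A)) : Subgroup Y := chainStabilizer (Subgroup.map i '' σ) ⊓ N

lemma mem_SN {σ : Set (Subgroup A)} {y : Y} : y ∈ SN i N σ ↔
    y ∈ N ∧ ∀ P ∈ σ, conjSub y (P.map i) = P.map i := by
  unfold SN
  rw [Subgroup.mem_inf, mem_chainStabilizer, and_comm]
  refine and_congr Iff.rfl ⟨fun h P hP => h _ ⟨P, hP, rfl⟩, ?_⟩
  rintro h _ ⟨P, hP, rfl⟩
  exact h P hP

include hi in
lemma mem_stabA {σ : Set (Subgroup A)} {a : A} : a ∈ chainStabilizer σ ↔
    ∀ P ∈ σ, conjSub (i a) (P.map i) = P.map i := by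
  rw [mem_chainStabilizer]
  refine forall_congr' fun P => imp_congr_right fun _ => ?_
  have h2 := conjSub_map' i a P
  constructor
  · intro h
    rw [h] at h2
    exact h2
  · intro h
    apply Subgroup.map_injective hi
    rw [← h2]
    exact h

variable (hle : i.range ≤ N)

/-- the inclusion of the stabilisers -/
def jS (σ : Set (Subgroup A)) : chainStabilizer σ →* SN i N σ :=
  (i.comp (Subgroup.subtype _)).codRestrict _ (fun x => by
    rw [mem_SN]
    exact ⟨hle ⟨_, rfl⟩, (mem_stabA i hi).mp x.2⟩)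

lemma jS_val (σ : Set (Subgroup A)) (x : chainStabilizer σ) :
    ((jS i hi N hle σ x : SN i N σ) : Y) = i x := rfl

lemma jS_inj (σ : Set (Subgroup A)) : Function.Injective (jS i hi N hle σ) := by
  intro x y h
  have h1 : ((jS i hi N hle σ x : SN i N σ) : Y) = jS i hi N hle σ y := by rw [h]
  exact Subtype.ext (hi h1)

lemma jS_range (σ : Set (Subgroup A)) (u : SN i N σ) :
    u ∈ (jS i hi N hle σ).range ↔ (u : Y) ∈ i.range := by
  constructor
  · rintro ⟨x, rfl⟩
    exact ⟨x, rfl⟩
  · rintro ⟨a, ha⟩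
    have h1 := ((mem_SN i N).mp u.2).2
    rw [← ha] at h1
    exact ⟨⟨a, (mem_stabA i hi).mpr h1⟩, Subtype.ext ha⟩

include hN in
lemma jS_normal (σ : Set (Subgroup A)) : (jS i hi N hle σ).range.Normal := by
  constructor
  intro n hn g
  rw [jS_range] at hn ⊢
  have h1 := hN ((mem_SN i N).mp g.2).1
  exact (Subgroup.mem_normalizer_iff.mp h1 _).mp hn

variable (y₀ : N) (hy : ∀ y : N, ∃ k : ℕ, y⁻¹ * y₀ ^ k ∈ i.range.subgroupOf N)

include hN in
lemma sub_normal : (i.range.subgroupOf N).Normal := by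
  constructor
  intro n hn g
  rw [Subgroup.mem_subgroupOf] at hn ⊢
  exact (Subgroup.mem_normalizer_iff.mp (hN g.2) _).mp hn

include hN hy in
/-- the quotient is cyclic -/
lemma jS_gen (σ : Set (Subgroup A)) :
    ∃ g : SN i N σ, ∀ y, ∃ k : ℕ, y⁻¹ * g ^ k ∈ (jS i hi N hle σ).range := by
  have hnn := sub_normal i N hN
  have hc : IsCyclic (N ⧸ i.range.subgroupOf N) := by
    refine ⟨QuotientGroup.mk y₀, fun y => ?_⟩
    obtain ⟨x, rfl⟩ := QuotientGroup.mk_surjective y
    obtain ⟨k, hk⟩ := hy x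
    refine ⟨k, ?_⟩
    change (QuotientGroup.mk y₀ : N ⧸ i.range.subgroupOf N) ^ (k : ℤ) = QuotientGroup.mk x
    rw [zpow_natCast]
    exact (QuotientGroup.eq.mpr hk :
      (QuotientGroup.mk x : N ⧸ i.range.subgroupOf N) = QuotientGroup.mk (y₀ ^ k)).symm
  have hSN : SN i N σ ≤ N := inf_le_right
  let φ : SN i N σ →* N ⧸ i.range.subgroupOf N :=
    (QuotientGroup.mk' _).comp (Subgroup.inclusion hSN)
  have hU : IsCyclic φ.range := inferInstance
  obtain ⟨⟨y, hy'⟩, hgen⟩ := hU.exists_generator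
  obtain ⟨u, rfl⟩ := hy'
  refine ⟨u, fun x => ?_⟩
  have h1 := hgen ⟨_, ⟨x, rfl⟩⟩
  rw [← mem_powers_iff_mem_zpowers] at h1
  obtain ⟨k, hk⟩ := h1
  refine ⟨k, ?_⟩
  rw [jS_range]
  have h2 := congrArg Subtype.val hk
  have h3 : (Subgroup.inclusion hSN x)⁻¹ * (Subgroup.inclusion hSN u) ^ k ∈
      i.range.subgroupOf N := QuotientGroup.eq.mp
    (h2.symm : (QuotientGroup.mk (Subgroup.inclusion hSN x) : N ⧸ i.range.subgroupOf N) =
      QuotientGroup.mk ((Subgroup.inclusion hSN u) ^ k))
  exact Subgroup.mem_subgroupOf.mp h3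

/-- the elements which fix the character -/
lemma fx_iff (σ : Set (Subgroup A)) (θ : chainStabilizer σ → ℂ) (y : SN i N σ) :
    Fx (jS i hi N hle σ) y θ ↔
      FixAut σ θ (actI i hi N hN ⟨y, ((mem_SN i N).mp y.2).1⟩) := by
  constructor
  · intro h
    refine ⟨fun P hP => (map_actI i hi N hN _ P).mpr (((mem_SN i N).mp y.2).2 P hP),
      fun a b hab => ?_⟩
    apply h a b
    apply Subtype.ext
    rw [jS_val, hab, actI_apply]
    rfl
  · intro h a b hab
    apply h.2 a b
    apply hi
    rw [actI_apply]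
    exact congrArg Subtype.val hab

lemma card_FS (σ : Set (Subgroup A)) (θ : chainStabilizer σ → ℂ) :
    Nat.card {y : SN i N σ // Fx (jS i hi N hle σ) y θ} =
      Nat.card ((FA σ θ).comap (actI i hi N hN)) := by
  refine Nat.card_congr
    { toFun := fun y => ⟨⟨y.1, ((mem_SN i N).mp y.1.2).1⟩,
        (fx_iff i hi N hN hle σ θ y.1).mp y.2⟩
      invFun := fun n => ⟨⟨n.1.1, ?_⟩, ?_⟩
      left_inv := fun y => rfl
      right_inv := fun n => rfl }
  · rw [mem_SN]
    exact ⟨n.1.2, fun P hP => (map_actI i hi N hN _ P).mp (n.2.1 P hP)⟩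
  · rw [fx_iff i hi N hN hle]
    exact n.2

lemma actI_conj (a : A) : actI i hi N hN ⟨i a, hle ⟨a, rfl⟩⟩ = MulAut.conj a := by
  ext b
  apply hi
  rw [actI_apply, MulAut.conj_apply, map_mul, map_mul, map_inv]

/-- `m` divides the order of the stabiliser modulo `A` iff the element of order `m` of the cyclic
quotient belongs to it -/
theorem dvd_wd (hy : ∀ y : N, ∃ k : ℕ, y⁻¹ * y₀ ^ k ∈ i.range.subgroupOf N)
    (σ : Set (Subgroup A)) {θ : chainStabilizer σ → ℂ} (h : IsIrrChar θ) :
    wd (jS i hi N hle σ) θ ∣ (i.range.subgroupOf N).index ∧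
    wd (jS i hi N hle σ) θ ≠ 0 ∧
    ∀ m, m ∣ (i.range.subgroupOf N).index → (m ∣ wd (jS i hi N hle σ) θ ↔
      ∃ a : A, FixAut σ θ (actI i hi N hN y₀ ^ ((i.range.subgroupOf N).index / m) *
        MulAut.conj a)) := by
  have : Fintype (chainStabilizer σ) := Fintype.ofFinite _
  have : Fintype (SN i N σ) := Fintype.ofFinite _
  have : Fintype N := Fintype.ofFinite _
  set M' := i.range.subgroupOf N with hM'
  have hMn : M'.Normal := sub_normal i N hN
  have hjn := jS_normal i hi N hN hle σ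
  set FS : Subgroup N := (FA σ θ).comap (actI i hi N hN) with hFS
  have h1 := wd_mul (jS i hi N hle σ) (jS_inj i hi N hle σ) h
  rw [card_FS i hi N hN hle] at h1
  -- the intersection
  have h2 : Nat.card (M' ⊓ FS : Subgroup N) = Nat.card (chainStabilizer σ) := by
    refine Nat.card_congr (Equiv.symm
      { toFun := fun a => ⟨⟨i a, hle ⟨a, rfl⟩⟩, ⟨a, rfl⟩, ?_⟩
        invFun := fun n => ⟨n.2.1.choose, ?_⟩
        left_inv := fun a => Subtype.ext (hi ?_)
        right_inv := fun n => Subtype.ext (Subtype.ext ?_) })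
    · change actI i hi N hN _ ∈ FA σ θ
      rw [actI_conj, mem_FA]
      refine ⟨fun P hP => ?_, fun x y hxy => ?_⟩
      · exact mem_chainStabilizer.mp a.2 P hP
      · have h3 : y = a * x * a⁻¹ := Subtype.ext hxy
        rw [h3, h.isClass]
    · have h3 := n.2.1.choose_spec
      have h4 : FixAut σ θ (actI i hi N hN n.1) := n.2.2
      rw [mem_stabA i hi]
      intro P hP
      rw [h3]
      exact (map_actI i hi N hN _ P).mp (h4.1 P hP)
    · exact Exists.choose_spec (p := fun b => i b = i a) _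
    · exact n.2.1.choose_spec
  have h3 : M'.relIndex FS = wd (jS i hi N hle σ) θ := by
    have h4 := Subgroup.relIndex_mul_relIndex ⊥ (M' ⊓ FS) FS bot_le inf_le_right
    rw [Subgroup.relIndex_bot_left, Subgroup.relIndex_bot_left, Subgroup.inf_relIndex_right, h2,
      h1, mul_comm] at h4
    exact Nat.eq_of_mul_eq_mul_right Nat.card_pos h4
  have h4 : M'.relIndex (FS ⊔ M') = wd (jS i hi N hle σ) θ := by
    rw [Subgroup.relIndex_sup_right, h3]
  have h5 : wd (jS i hi N hle σ) θ * (FS ⊔ M').index = M'.index := by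
    rw [← h4]
    exact Subgroup.relIndex_mul_index le_sup_right
  have hn0 : M'.index ≠ 0 := Subgroup.index_ne_zero_of_finite
  have hw0 : wd (jS i hi N hle σ) θ ≠ 0 := by
    intro h6
    rw [h6, zero_mul] at h5
    exact hn0 h5.symm
  refine ⟨Dvd.intro _ h5, hw0, fun m hm => ?_⟩
  obtain ⟨e, he⟩ := hm
  have hm0 : m ≠ 0 := by
    rintro rfl
    rw [zero_mul] at he
    exact hn0 he
  have he0 : e ≠ 0 := by
    rintro rfl
    rw [mul_zero] at he
    exact hn0 he
  have hdiv : M'.index / m = e := by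
    rw [he]
    exact Nat.mul_div_cancel_left _ (Nat.pos_of_ne_zero hm0)
  rw [hdiv]
  have h6 := pow_mem_iff M' hy (le_sup_right : M' ≤ FS ⊔ M') e
  have h7 : m ∣ wd (jS i hi N hle σ) θ ↔ (FS ⊔ M').index ∣ e := by
    constructor
    · rintro ⟨c, hc⟩
      refine ⟨c, ?_⟩
      rw [hc, he] at h5
      have h8 : m * ((FS ⊔ M').index * c) = m * e := by
        rw [← h5]
        ring
      exact (Nat.eq_of_mul_eq_mul_left (Nat.pos_of_ne_zero hm0) h8).symm
    · rintro ⟨c, hc⟩
      refine ⟨c, ?_⟩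
      have h9 : (FS ⊔ M').index ≠ 0 := by
        intro h9
        rw [h9, mul_zero] at h5
        exact hn0 h5.symm
      have h8 : (FS ⊔ M').index * wd (jS i hi N hle σ) θ = (FS ⊔ M').index * (m * c) := by
        rw [mul_comm, h5, he, hc]
        ring
      exact Nat.eq_of_mul_eq_mul_left (Nat.pos_of_ne_zero h9) h8
  rw [h7, ← h6, Subgroup.mem_sup_of_normal_right]
  constructor
  · rintro ⟨f, hf, n, hn, hfn⟩
    obtain ⟨a, ha⟩ := hn
    refine ⟨a⁻¹, ?_⟩
    have h8 : actI i hi N hN y₀ ^ e * MulAut.conj a⁻¹ = actI i hi N hN f := by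
      rw [← actI_conj i hi N hN hle a⁻¹, ← map_pow, ← map_mul]
      congr 1
      rw [← hfn]
      apply Subtype.ext
      change (f : Y) * (n : Y) * i a⁻¹ = f
      rw [map_inv, ha]
      change (f : Y) * (n : Y) * (n : Y)⁻¹ = f
      group
    rw [h8]
    exact hf
  · rintro ⟨a, ha⟩
    have hmem : y₀ ^ e * ⟨i a, hle ⟨a, rfl⟩⟩ ∈ FS := by
      rw [hFS, Subgroup.mem_comap, map_mul, map_pow, actI_conj]
      exact ha
    have hmem' : (⟨i a, hle ⟨a, rfl⟩⟩ : N)⁻¹ ∈ M' := M'.inv_mem (Subgroup.mem_subgroupOf.mpr ⟨a, rfl⟩)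
    exact ⟨_, hmem, _, hmem', mul_inv_cancel_right _ _⟩

omit [Finite Y] in
lemma gf_and {p : ℕ} {H : Type} [Group H] [Finite H] (P R : (H → ℂ) → Prop) (r : ℤ[X]) :
    ∑ θ ∈ (IrF H).filter P, (if R θ then X ^ dfc p θ * r else 0) =
      gf p (fun θ => P θ ∧ R θ) * r := by
  unfold gf
  rw [Finset.sum_mul, Finset.sum_filter, Finset.sum_filter]
  refine Finset.sum_congr rfl fun θ _ => ?_
  by_cases h1 : P θ
  · by_cases h2 : R θ
    · rw [if_pos h1, if_pos h2, if_pos ⟨h1, h2⟩]
    · rw [if_pos h1, if_neg h2, if_neg (fun h => h2 h.2)]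
  · rw [if_neg h1, if_neg (fun h => h1 h.1)]

include hle in
/-- **The formula for one pair.** -/
theorem op_sum {p : ℕ} [hp : Fact p.Prime] {F : Type} [Field F] [CharP F p]
    (red : integralClosure ℤ ℂ →+* F)
    (hy : ∀ y : N, ∃ k : ℕ, y⁻¹ * y₀ ^ k ∈ i.range.subgroupOf N)
    (G : Subgroup Y) (hGN : ∀ x ∈ G, x ∈ N → x ∈ i.range) (v : (Y → F) → F) :
    ∑ σ : {σ : Set (Subgroup A) // IsPChain p σ},
      (-1) ^ σ.1.ncard * PhY red p G v (SN i N σ.1) =
    ∑ m ∈ (i.range.subgroupOf N).index.divisors, ga p m *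
      MMP p (actI i hi N hN y₀ ^ ((i.range.subgroupOf N).index / m))
        (fun σ θ => Cvv red G v (i.comp (chainStabilizer σ).subtype) θ) := by
  unfold MMP
  simp only [Finset.mul_sum]
  rw [Finset.sum_comm]
  refine Finset.sum_congr rfl fun σ _ => ?_
  have : Fintype (chainStabilizer σ.1) := Fintype.ofFinite _
  have : Fintype (SN i N σ.1) := Fintype.ofFinite _
  have hjn := jS_normal i hi N hN hle σ.1
  obtain ⟨g, hg⟩ := jS_gen i hi N hN hle y₀ hy σ.1
  have h1 : PhY red p G v (SN i N σ.1) = (Nat.card (chainStabilizer σ.1) : ℤ[X]) *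
      ∑ θ ∈ (IrF (chainStabilizer σ.1)).filter
        (fun θ => Cvv red G v (i.comp (chainStabilizer σ.1).subtype) θ),
        X ^ dfc p θ * ff p (wd (jS i hi N hle σ.1) θ) := by
    unfold PhY
    refine gf_over (jS i hi N hle σ.1) (jS_inj i hi N hle σ.1) hg _ _ ?_
    intro χ θ hc h ho
    refine forall_congr' fun z => imp_congr_right fun hz => ?_
    have h2 := cv_over_hom (jS i hi N hle σ.1) (jS_inj i hi N hle σ.1) red hc h ho
      (f := fun u : SN i N σ.1 => z u) (fun a x => hz.conj _ _) (fun u hu => by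
        apply hz.supp
        intro h3
        apply hu
        rw [jS_range]
        exact hGN _ h3 ((mem_SN i N).mp u.2).1)
    have h3 : centralValue red χ (fun h => z ((SN i N σ.1).subtype h)) =
        centralValue red θ (fun h => z ((i.comp (chainStabilizer σ.1).subtype) h)) := h2
    rw [h3]
  have h4 : ∀ θ ∈ (IrF (chainStabilizer σ.1)).filter
        (fun θ => Cvv red G v (i.comp (chainStabilizer σ.1).subtype) θ),
      X ^ dfc p θ * ff p (wd (jS i hi N hle σ.1) θ) =
      ∑ m ∈ (i.range.subgroupOf N).index.divisors,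
        if ∃ a : A, FixAut σ.1 θ (actI i hi N hN y₀ ^ ((i.range.subgroupOf N).index / m) *
        MulAut.conj a) then X ^ dfc p θ * ga p m else 0 := by
    intro θ hθ
    rw [Finset.mem_filter, mem_IrF] at hθ
    obtain ⟨h5, h6, h7⟩ := dvd_wd i hi N hN hle y₀ hy σ.1 hθ.1
    have hn0 : (i.range.subgroupOf N).index ≠ 0 := Subgroup.index_ne_zero_of_finite
    rw [← sum_ga p h6, Finset.mul_sum, ← Finset.sum_filter]
    refine Finset.sum_congr ?_ fun _ _ => rfl
    ext m
    rw [Finset.mem_filter, Nat.mem_divisors, Nat.mem_divisors]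
    constructor
    · rintro ⟨h8, _⟩
      exact ⟨⟨h8.trans h5, hn0⟩, (h7 m (h8.trans h5)).mp h8⟩
    · rintro ⟨⟨h8, _⟩, h9⟩
      exact ⟨(h7 m h8).mpr h9, h6⟩
  rw [h1, Finset.sum_congr rfl h4, Finset.sum_comm, Finset.mul_sum, Finset.mul_sum]
  refine Finset.sum_congr rfl fun m _ => ?_
  rw [gf_and]
  ring

end

end Pool.Agent.H378.AC
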