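import Pool.Agent.H378.AC.Stb

/-!
# The induction
-/

set_option autoImplicit false
set_option linter.unusedSectionVars false
set_option linter.unusedVariables false

open scoped Classical BigOperators Polynomial
open Polynomial
open Pool.Agent.Helper884.IC Pool.Agent.Y63.AWC Pool.Agent.Y63.KR Pool.Agent.X209.EQ
open Pool.Agent.X209.PJ Pool.Agent.X209.DI Pool.Agent.X209.DQ Pool.Agent.X209.NB
open Pool.Agent.Y63.NV (IsClassFun IsBlock InZ centralValue redC conv classValue)
open Pool.Agent.Q100.IV (Op NP op_np le_op conj_op)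

noncomputable section

namespace Pool.Agent.H378.AC

attribute [-instance] MonoidHom.fintypeRange MonoidHom.decidableMemRange

/-- the alternating sums of the fixed characters vanish for all automorphisms of `A` and all blocks
without characters of defect zero -/
def TT (p : ℕ) {F : Type} [Field F] (red : integralClosure ℤ ℂ →+* F) (A : Type) [Group A]
    [Finite A] : Prop :=
  ∀ (α : MulAut A) (B : (A → F) → F), IsBlock B → NoDZ p red B →
    MMP p α (fun σ θ => Induces red B θ) = 0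

section

variable {p : ℕ} [hp : Fact p.Prime] {F : Type} [Field F] [CharP F p]
  (red : integralClosure ℤ ℂ →+* F) {Y : Type} [Group Y] [Finite Y] {G : Subgroup Y}
  [hG : G.Normal]

/-- a generator of a section of a cyclic group -/
lemma gen_sub (hy : ∃ y₀ : Y, ∀ y : Y, ∃ k : ℕ, y⁻¹ * y₀ ^ k ∈ G) (N C : Subgroup Y)
    (hC : ∀ x ∈ N, (x ∈ G ↔ x ∈ C)) :
    ∃ y₁ : N, ∀ y : N, ∃ k : ℕ, y⁻¹ * y₁ ^ k ∈ C.subgroupOf N := by
  obtain ⟨y₀, hy⟩ := hy
  have hc : IsCyclic (Y ⧸ G) := by
    refine ⟨QuotientGroup.mk y₀, fun y => ?_⟩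
    obtain ⟨x, rfl⟩ := QuotientGroup.mk_surjective y
    obtain ⟨k, hk⟩ := hy x
    refine ⟨k, ?_⟩
    change (QuotientGroup.mk y₀ : Y ⧸ G) ^ (k : ℤ) = QuotientGroup.mk x
    rw [zpow_natCast]
    exact (QuotientGroup.eq.mpr hk :
      (QuotientGroup.mk x : Y ⧸ G) = QuotientGroup.mk (y₀ ^ k)).symm
  let φ : N →* Y ⧸ G := (QuotientGroup.mk' G).comp N.subtype
  have hU : IsCyclic φ.range := inferInstance
  obtain ⟨⟨y, hy'⟩, hgen⟩ := hU.exists_generator
  obtain ⟨u, rfl⟩ := hy'
  refine ⟨u, fun x => ?_⟩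
  have h1 := hgen ⟨_, ⟨x, rfl⟩⟩
  rw [← mem_powers_iff_mem_zpowers] at h1
  obtain ⟨k, hk⟩ := h1
  refine ⟨k, ?_⟩
  have h2 := congrArg Subtype.val hk
  have h3 : (x : Y)⁻¹ * (u : Y) ^ k ∈ G := QuotientGroup.eq.mp
    (h2.symm : (QuotientGroup.mk (x : Y) : Y ⧸ G) = QuotientGroup.mk ((u : Y) ^ k))
  rw [Subgroup.mem_subgroupOf]
  exact (hC _ (x⁻¹ * u ^ k).2).mp h3

/-- the terms of the complements vanish -/
theorem q_term (hR : R1 p G) (hy : ∃ y₀ : Y, ∀ y : Y, ∃ k : ℕ, y⁻¹ * y₀ ^ k ∈ G)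
    {Q : Subgroup Y} (hQG : Q ⊓ G = ⊥) (hT : TT p red (CQ G Q)) (v : (Y → F) → F)
    (hD : ∀ β : (CQ G Q → F) → F, IsBlock β →
      (∀ z : Y → F, InZ G z → β (fun c => z c) = v z) → NoDZ p red β) :
    CS p (CQ G Q) (fun S => PhY red p G v (S ⊓ Subgroup.normalizer (Q : Set Y))) = 0 := by
  set N := Subgroup.normalizer (Q : Set Y) with hN
  set i : CQ G Q →* Y := (CQ G Q).subtype with hi
  have hinj : Function.Injective i := Subgroup.subtype_injective _
  have hr : i.range = CQ G Q := Subgroup.range_subtype _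
  have hCN : CQ G Q ≤ N := by
    intro x hx
    rw [hN, ← conjSub_eq_iff]
    have hx' := (mem_CQ.mp hx).2
    ext q
    rw [mem_conjSub]
    constructor
    · intro h
      have h1 := hx' _ h
      have e : q = x * (x⁻¹ * q * x) * x⁻¹ := by group
      rw [e, ← h1]
      have e2 : x⁻¹ * q * x * x * x⁻¹ = x⁻¹ * q * x := by group
      rw [e2]
      exact h
    · intro h
      have h1 := hx' _ h
      have e : x⁻¹ * q * x = q := by
        rw [mul_assoc, h1]
        group
      rw [e]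
      exact h
  have hNG : ∀ x ∈ N, (x ∈ G ↔ x ∈ CQ G Q) := by
    intro x hx
    constructor
    · intro h
      refine mem_CQ.mpr ⟨h, fun q hq => ?_⟩
      exact cent_of_norm hR hQG (conjSub_eq_iff.mpr hx) hq
    · intro h
      exact (mem_CQ.mp h).1
  have hle : i.range ≤ N := by rw [hr]; exact hCN
  have hnr : N ≤ Subgroup.normalizer (i.range : Set Y) := by
    rw [hr]
    intro n hn
    exact norm_CQ Q (conjSub_eq_iff.mpr hn)
  obtain ⟨y₁, hy₁⟩ := gen_sub hy N (CQ G Q) hNG
  have hy₁' : ∀ y : N, ∃ k : ℕ, y⁻¹ * y₁ ^ k ∈ i.range.subgroupOf N := by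
    rw [hr]
    exact hy₁
  rw [cs_hom i hinj hr]
  have h1 := op_sum (p := p) i hinj N hnr hle y₁ red hy₁' G (fun x hx hxN => by
    rw [hr]
    exact (hNG x hxN).mp hx) v
  change ∑ σ : {σ : Set (Subgroup (CQ G Q)) // IsPChain p σ},
      (-1) ^ σ.1.ncard * PhY red p G v (SN i N σ.1) = 0
  rw [h1]
  obtain ⟨s, β, h2, h3⟩ := mmp_dec (p := p) red i G v
  refine Finset.sum_eq_zero fun m _ => ?_
  rw [h3, Finset.sum_eq_zero, mul_zero]
  intro w hw
  exact hT _ _ (h2 w hw).1 (hD _ (h2 w hw).1 (h2 w hw).2)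

/-- the sum for the whole group vanishes -/
theorem top_term (hOrd : IsCore p (⊥ : Subgroup Y) → Ord red p Y) (v : (Y → F) → F)
    (hD : ∀ β : (Y → F) → F, IsBlock β → (∀ z : Y → F, InZ G z → β z = v z) → NoDZ p red β) :
    CS p (⊤ : Subgroup Y) (PhY red p G v) = 0 := by
  have hr : (MonoidHom.id Y).range = ⊤ := MonoidHom.range_eq_top.mpr fun x => ⟨x, rfl⟩
  have hinj : Function.Injective (MonoidHom.id Y) := fun x y h => h
  rw [cs_hom (MonoidHom.id Y) hinj hr]
  obtain ⟨s, β, h2, h3⟩ := mmp_dec (p := p) red (MonoidHom.id Y) G v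
  have h4 := h3 1
  have h5 : MMP p (1 : MulAut Y)
      (fun σ θ => Cvv red G v ((MonoidHom.id Y).comp (chainStabilizer σ).subtype) θ) =
      ∑ σ : {σ : Set (Subgroup Y) // IsPChain p σ},
      (-1) ^ σ.1.ncard * PhY red p G v
        (chainStabilizer (Subgroup.map (MonoidHom.id Y) '' σ.1)) := by
    unfold MMP PhY
    refine Finset.sum_congr rfl fun σ _ => ?_
    have h1 : Subgroup.map (MonoidHom.id Y) '' σ.1 = σ.1 := by
      have : (Subgroup.map (MonoidHom.id Y)) = id := funext fun P => Subgroup.map_id P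
      rw [this, Set.image_id]
    rw [h1]
    congr 2
    refine gf_congr fun χ hχ => ⟨fun h => h.1, fun h => ⟨h, 1, ?_⟩⟩
    rw [map_one, mul_one]
    exact (FA σ.1 χ).one_mem
  rw [← h5, h4]
  refine Finset.sum_eq_zero fun w hw => ?_
  exact ord_zero red hOrd (h2 w hw).1 (hD _ (h2 w hw).1 (h2 w hw).2)

end

section

variable {p : ℕ} [hp : Fact p.Prime] {F : Type} [Field F] [CharP F p]
  (red : integralClosure ℤ ℂ →+* F) {A Y : Type} [Group A] [Group Y] [Finite A] [Finite Y]
  (i : A →* Y) (hi : Function.Injective i) [hn : i.range.Normal]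

include hi in
/-- **One step.** -/
theorem step (hOrd : IsCore p (⊥ : Subgroup Y) → Ord red p Y)
    (hIH : ∀ (A' : Type) [Group A'] [Finite A'], Nat.card A' < Nat.card A → TT p red A')
    {y₀ : Y} (hy : ∀ y : Y, ∃ k : ℕ, y⁻¹ * y₀ ^ k ∈ i.range) {α : MulAut A}
    (hα : ∀ a, i (α a) = y₀ * i a * y₀⁻¹)
    (hc : Op p i.range ≠ ⊥ ∨ ∀ Q ∈ OQ p i.range, CQ i.range Q ≠ i.range)
    {B : (A → F) → F} (hB : IsBlock B) (hD : NoDZ p red B)
    (hst : ∀ f : A → F, IsClassFun f → B (fun x => f (α x)) = B f)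
    (hsub : ∀ e : ℕ, 1 < e → e ∣ i.range.index →
      MMP p (α ^ e) (fun σ θ => Induces red B θ) = 0) :
    MMP p α (fun σ θ => Induces red B θ) = 0 := by
  set G := i.range with hGdef
  set v : (Y → F) → F := fun z => B (fun a => z (i a)) with hv
  have hN : (⊤ : Subgroup Y) ≤ Subgroup.normalizer (i.range : Set Y) := by
    rw [Subgroup.normalizer_eq_top_iff.mpr hn]
  have hle : i.range ≤ (⊤ : Subgroup Y) := le_top
  have hI := stable_all i hi hN hy hα hst
  have hcyc : IsCyclic (Y ⧸ G) := by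
    refine ⟨QuotientGroup.mk y₀, fun y => ?_⟩
    obtain ⟨x, rfl⟩ := QuotientGroup.mk_surjective y
    obtain ⟨k, hk⟩ := hy x
    refine ⟨k, ?_⟩
    change (QuotientGroup.mk y₀ : Y ⧸ G) ^ (k : ℤ) = QuotientGroup.mk x
    rw [zpow_natCast]
    exact (QuotientGroup.eq.mpr hk :
      (QuotientGroup.mk x : Y ⧸ G) = QuotientGroup.mk (y₀ ^ k)).symm
  have hR : R1 p G := R1.of_cyclic hcyc
  -- the sum for `G` vanishes
  have h0 : CS p G (PhY red p G v) = 0 := by
    by_cases hO : Op p G = ⊥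
    · have h1 := cs_rank1 hR (PhY red p G v)
      rw [top_term red hOrd v (fun β hβ h => noDZ_Y red i hi hN hB hD hy hI h)] at h1
      rw [Finset.sum_eq_zero, sub_zero] at h1
      · exact h1.symm
      · intro Q hQ
        have hQ' := mem_OQ.mp hQ
        have h2 : CQ G Q ≠ G := by
          rcases hc with h2 | h2
          · exact absurd hO h2
          · exact h2 Q hQ
        refine q_term red hR ⟨y₀, hy⟩ hQ'.2 ?_ v ?_
        · apply hIH
          have h3 : CQ G Q < G := lt_of_le_of_ne inf_le_left h2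
          have h4 : Nat.card (CQ G Q) < Nat.card G := by
            rcases lt_or_ge (Nat.card (CQ G Q)) (Nat.card G) with h5 | h5
            · exact h5
            · exact absurd (Subgroup.eq_of_le_of_card_ge h3.le h5) h2
          have h5 : Nat.card A = Nat.card G := Nat.card_congr (MonoidHom.ofInjective hi).toEquiv
          rwa [h5]
        · intro β hβ h
          exact noDZ_Q red i hi rfl hR.comm hQ'.1 hQ'.2 hB hD hβ h
    · have h1 := op_np (p := p) G
      exact cs_zero h1 hO (fun x => conj_op x G (Pool.Agent.Q100.IV.conj_normal x)) _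
  -- the formula
  have hy' : ∀ y : (⊤ : Subgroup Y), ∃ k : ℕ,
      y⁻¹ * (⟨y₀, trivial⟩ : (⊤ : Subgroup Y)) ^ k ∈ i.range.subgroupOf ⊤ := by
    intro y
    obtain ⟨k, hk⟩ := hy y
    exact ⟨k, Subgroup.mem_subgroupOf.mpr hk⟩
  have h1 := op_sum (p := p) i hi ⊤ hN hle ⟨y₀, trivial⟩ red hy' G (fun x hx _ => hx) v
  have h2 : ∑ σ : {σ : Set (Subgroup A) // IsPChain p σ},
      (-1) ^ σ.1.ncard * PhY red p G v (SN i ⊤ σ.1) = 0 := by
    rw [cs_hom i hi rfl] at h0
    rw [← h0]
    refine Finset.sum_congr rfl fun σ _ => ?_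
    unfold SN
    rw [inf_top_eq]
  rw [h2] at h1
  have hact : actI i hi ⊤ hN ⟨y₀, trivial⟩ = α := by
    ext a
    apply hi
    rw [actI_apply, hα]
  have hidx : (i.range.subgroupOf ⊤).index = i.range.index := by
    have : (i.range.subgroupOf ⊤).index = i.range.relIndex ⊤ := rfl
    rw [this, Subgroup.relIndex_top_right]
  rw [hact, hidx] at h1
  have hcv : ∀ γ : MulAut A,
      MMP p γ (fun σ θ => Cvv red G v (i.comp (chainStabilizer σ).subtype) θ) =
        MMP p γ (fun σ θ => Induces red B θ) := by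
    intro γ
    unfold MMP
    refine Finset.sum_congr rfl fun σ _ => ?_
    congr 2
    refine gf_congr fun θ hθ => and_congr ?_ Iff.rfl
    exact cvv_iff red i hi hN hB hI σ.2 hθ
  have hn0 : i.range.index ≠ 0 := Subgroup.index_ne_zero_of_finite
  rw [Finset.sum_eq_single i.range.index] at h1
  · rw [Nat.div_self (Nat.pos_of_ne_zero hn0), pow_one, hcv] at h1
    exact (mul_eq_zero.mp h1.symm).resolve_left (ga_ne p hn0)
  · intro m hm hne
    rw [Nat.mem_divisors] at hm
    obtain ⟨⟨e, he⟩, _⟩ := hm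
    have hm0 : m ≠ 0 := by
      rintro rfl
      rw [zero_mul] at he
      exact hn0 he
    have hdiv : i.range.index / m = e := by
      rw [he]
      exact Nat.mul_div_cancel_left _ (Nat.pos_of_ne_zero hm0)
    rw [hdiv, hcv, hsub e ?_ ⟨m, by rw [he, mul_comm]⟩, mul_zero]
    rcases Nat.lt_trichotomy e 1 with h3 | h3 | h3
    · have : e = 0 := by omega
      rw [this, mul_zero] at he
      exact absurd he hn0
    · rw [h3, mul_one] at he
      exact absurd he.symm hne
    · exact h3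
  · intro h3
    exact absurd (Nat.mem_divisors_self _ hn0) h3

end

end Pool.Agent.H378.AC
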