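import Pool.Agent.H378.AC.Arith
import Pool.Graph.R_pool_sql_team_seeded_64922ed1.X209.DQ.Fin

/-!
# Clifford theory for a normal subgroup with cyclic quotient, with generating polynomials
-/

set_option autoImplicit false
set_option linter.unusedSectionVars false
set_option linter.unusedVariables false

open scoped Classical BigOperators Polynomial
open Polynomial
open Pool.Agent.Helper884.IC Pool.Agent.Y63.AWC Pool.Agent.Y63.KR Pool.Agent.X209.EQ
open Pool.Agent.X209.PJ Pool.Agent.X209.DI Pool.Agent.X209.DQ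

noncomputable section

namespace Pool.Agent.H378.AC

/-- the defect -/
def dfc (p : ℕ) {H : Type} [Group H] (χ : H → ℂ) : ℕ :=
  (Nat.card H).factorization p - (dg χ).factorization p

/-- the irreducible characters -/
def IrF (H : Type) [Group H] [Finite H] : Finset (H → ℂ) :=
  letI : Fintype H := Fintype.ofFinite H
  Irr H

lemma mem_IrF {H : Type} [Group H] [Finite H] {χ : H → ℂ} : χ ∈ IrF H ↔ IsIrrChar χ := by
  letI : Fintype H := Fintype.ofFinite H
  unfold IrF
  exact mem_Irr

lemma IrF_eq (H : Type) [Group H] [Fintype H] : IrF H = Irr H := by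
  ext χ
  rw [mem_IrF, mem_Irr]

lemma dg_dvd {H : Type} [Group H] [Finite H] {χ : H → ℂ} (h : IsIrrChar χ) :
    dg χ ∣ Nat.card H := by
  have : Fintype H := Fintype.ofFinite H
  exact deg_dvd h (dg_spec h).1

lemma dg_le {p : ℕ} {H : Type} [Group H] [Finite H] {χ : H → ℂ} (h : IsIrrChar χ) :
    (dg χ).factorization p ≤ (Nat.card H).factorization p := by
  have : Fintype H := Fintype.ofFinite H
  exact (Nat.factorization_le_iff_dvd (dg_spec h).2.ne' Nat.card_pos.ne').mpr (dg_dvd h) p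

lemma hasDefect_iff {p d : ℕ} {H : Type} [Group H] [Finite H] {χ : H → ℂ} (h : IsIrrChar χ) :
    HasDefect p d χ ↔ dfc p χ = d := by
  have : Fintype H := Fintype.ofFinite H
  have hle := dg_le (p := p) h
  obtain ⟨hd1, hd2⟩ := dg_spec h
  unfold dfc
  constructor
  · rintro ⟨m, hm, hmd⟩
    have h9 : m = dg χ := by
      have : (m : ℂ) = (dg χ : ℂ) := hm.symm.trans hd1
      exact_mod_cast this
    rw [h9] at hmd
    omega
  · intro h1
    exact ⟨dg χ, hd1, by omega⟩

/-- the generating polynomial of the defects -/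
def gf (p : ℕ) {H : Type} [Group H] [Finite H] (P : (H → ℂ) → Prop) : ℤ[X] :=
  ∑ χ ∈ (IrF H).filter P, X ^ dfc p χ

lemma gf_congr {p : ℕ} {H : Type} [Group H] [Finite H] {P P' : (H → ℂ) → Prop}
    (h : ∀ χ, IsIrrChar χ → (P χ ↔ P' χ)) : gf p P = gf p P' := by
  unfold gf
  rw [Finset.filter_congr fun χ hχ => h χ (mem_IrF.mp hχ)]

lemma coeff_gf {p d : ℕ} {H : Type} [Group H] [Finite H] (P : (H → ℂ) → Prop) :
    (gf p P).coeff d = (Nat.card {χ : H → ℂ // IsIrrChar χ ∧ HasDefect p d χ ∧ P χ} : ℤ) := by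
  unfold gf
  rw [finsetSum_coeff]
  simp only [coeff_X_pow]
  rw [Finset.sum_boole, Finset.filter_filter]
  congr 1
  rw [← Fintype.card_coe, ← Nat.card_eq_fintype_card]
  refine Nat.card_congr (Equiv.subtypeEquivRight fun χ => ?_)
  rw [Finset.mem_filter, mem_IrF]
  constructor
  · rintro ⟨h1, h2, h3⟩
    exact ⟨h1, (hasDefect_iff h1).mpr h3.symm, h2⟩
  · rintro ⟨h1, h2, h3⟩
    exact ⟨h1, h3, ((hasDefect_iff h1).mp h2).symm⟩

/-- the order of the stabiliser modulo `A` -/
def wd {A Y : Type} [Group A] [Group Y] (i : A →* Y) (θ : A → ℂ) : ℕ :=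
  Nat.card {y : Y // Fx i y θ} / Nat.card A

attribute [-instance] MonoidHom.fintypeRange MonoidHom.decidableMemRange

section

variable {A Y : Type} [Group A] [Group Y] [Fintype A] [Fintype Y] (i : A →* Y)
  (hi : Function.Injective i) [hn : i.range.Normal]

include hi hn in
lemma wd_mul {θ : A → ℂ} (h : IsIrrChar θ) :
    Nat.card {y : Y // Fx i y θ} = wd i θ * Nat.card A := by
  let E := MonoidHom.ofInjective hi
  have ht : IsIrrChar (fun u => θ (E.symm u)) := irr_comp E.symm h
  have h1 : Nat.card {y : Y // Fx i y θ} = Nat.card (St i.range (fun u => θ (E.symm u))) :=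
    Nat.card_congr (Equiv.subtypeEquivRight fun y => (St_iff i hi θ y).symm)
  have h2 : i.range ≤ St i.range (fun u => θ (E.symm u)) :=
    le_St i.range ht.isClass
  have h3 : Nat.card A = Nat.card i.range := Nat.card_congr E.toEquiv
  have h4 : Nat.card A ∣ Nat.card {y : Y // Fx i y θ} := by
    rw [h1, h3]
    exact Subgroup.card_dvd_of_le h2
  exact (Nat.div_mul_cancel h4).symm

variable {g : Y} (hg : ∀ y : Y, ∃ k : ℕ, y⁻¹ * g ^ k ∈ i.range)

include hg in
/-- the defects -/
lemma dfc_over {p : ℕ} [hp : Fact p.Prime] {χ : Y → ℂ}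
    {θ : A → ℂ} (hc : IsIrrChar χ) (h : IsIrrChar θ) (ho : Ov i hi χ θ) :
    dfc p χ = dfc p θ + (wd i θ).factorization p := by
  let E := MonoidHom.ofInjective hi
  have ht : IsIrrChar (fun u => θ (E.symm u)) := irr_comp E.symm h
  obtain ⟨hd1, hd2⟩ := dg_spec hc
  obtain ⟨hd3, hd4⟩ := dg_spec h
  have hd3' : (fun u => θ (E.symm u)) 1 = (dg θ : ℂ) := by
    simp only [map_one]
    exact hd3
  have h2 := deg_eq i.range hc ht ho hd1 hd3'
  have h3 : mult i.range χ (fun u => θ (E.symm u)) = 1 :=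
    le_antisymm (mult_le_one i.range hg ht hc) (Nat.pos_of_ne_zero ho)
  rw [h3, mul_one] at h2
  have h4 := card_Orb_mul i.range (fun u => θ (E.symm u))
  have h5 : Nat.card (St i.range (fun u => θ (E.symm u))) = wd i θ * Nat.card A := by
    rw [← wd_mul i hi h]
    exact Nat.card_congr (Equiv.subtypeEquivRight fun y => St_iff i hi θ y)
  rw [h5] at h4
  have h6 : (Orb i.range (fun u => θ (E.symm u))).card ≠ 0 := by
    intro h7
    rw [h7, zero_mul] at h4
    exact Nat.card_pos.ne h4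
  have h7 : wd i θ ≠ 0 := by
    intro h7
    rw [h7, zero_mul, mul_zero] at h4
    exact Nat.card_pos.ne h4
  have h8 : (dg χ).factorization p = (Orb i.range (fun u => θ (E.symm u))).card.factorization p +
      (dg θ).factorization p := by
    rw [h2, Nat.factorization_mul h6 hd4.ne', Finsupp.add_apply]
  have h9 : (Nat.card Y).factorization p =
      (Orb i.range (fun u => θ (E.symm u))).card.factorization p +
        ((wd i θ).factorization p + (Nat.card A).factorization p) := by
    rw [← h4, Nat.factorization_mul h6 (mul_ne_zero h7 Nat.card_pos.ne'), Finsupp.add_apply,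
      Nat.factorization_mul h7 Nat.card_pos.ne', Finsupp.add_apply]
  have h10 := dg_le (p := p) h
  unfold dfc
  omega

include hg in
/-- **The local formula.** -/
theorem gf_over {p : ℕ} [hp : Fact p.Prime] (P : (Y → ℂ) → Prop) (Q : (A → ℂ) → Prop)
    (hPQ : ∀ χ θ, IsIrrChar χ → IsIrrChar θ → Ov i hi χ θ → (P χ ↔ Q θ)) :
    (Nat.card Y : ℤ[X]) * gf p P =
      (Nat.card A : ℤ[X]) * ∑ θ ∈ (IrF A).filter Q, X ^ dfc p θ * ff p (wd i θ) := by
  have hA0 : (Nat.card A : ℤ[X]) ≠ 0 := by exact_mod_cast Nat.card_pos.ne'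
  have hC : ∀ n : ℕ, (n : ℤ[X]) = C (n : ℤ) := fun n => by simp
  apply mul_left_cancel₀ hA0
  ext d
  have e1 : ((Nat.card A : ℤ[X]) * ((Nat.card Y : ℤ[X]) * gf p P)).coeff d =
      ((Nat.card A * (Nat.card Y * Nat.card {χ : Y → ℂ // IsIrrChar χ ∧
        (HasDefect p d χ ∧ P χ)}) : ℕ) : ℤ) := by
    have h1 : (Nat.card A : ℤ[X]) * ((Nat.card Y : ℤ[X]) * gf p P) =
        C ((Nat.card A : ℤ) * (Nat.card Y : ℤ)) * gf p P := by
      rw [C_mul, ← hC, ← hC]
      ring
    rw [h1, coeff_C_mul, coeff_gf]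
    push_cast
    ring
  rw [e1, hom_count i hi hg (fun χ => HasDefect p d χ ∧ P χ)
    (fun θ => dfc p θ + (wd i θ).factorization p = d ∧ Q θ) ?_]
  · have h1 : (Nat.card A : ℤ[X]) * ((Nat.card A : ℤ[X]) *
        ∑ θ ∈ (IrF A).filter Q, X ^ dfc p θ * ff p (wd i θ)) =
        C ((Nat.card A : ℤ) ^ 2) * ∑ θ ∈ (IrF A).filter Q, X ^ dfc p θ * ff p (wd i θ) := by
      rw [C_pow, ← hC]
      ring
    rw [h1, coeff_C_mul, finsetSum_coeff, IrF_eq]
    have h2 : ∀ θ : A → ℂ, (X ^ dfc p θ * ff p (wd i θ)).coeff d =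
        if dfc p θ + (wd i θ).factorization p = d then ((wd i θ : ℕ) : ℤ) ^ 2 else 0 := by
      intro θ
      unfold ff
      have h3 : (X : ℤ[X]) ^ dfc p θ * (C (((wd i θ : ℕ) : ℤ) ^ 2) *
          X ^ (wd i θ).factorization p) = C (((wd i θ : ℕ) : ℤ) ^ 2) *
            X ^ (dfc p θ + (wd i θ).factorization p) := by
        rw [pow_add]
        ring
      rw [h3, coeff_C_mul, coeff_X_pow]
      by_cases h4 : d = dfc p θ + (wd i θ).factorization p
      · rw [if_pos h4, if_pos h4.symm, mul_one]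
      · rw [if_neg h4, if_neg (fun h => h4 h.symm), mul_zero]
    simp only [h2]
    rw [Nat.cast_sum, Finset.sum_filter, Finset.sum_filter, Finset.mul_sum]
    refine Finset.sum_congr rfl fun θ hθ => ?_
    rw [mem_Irr] at hθ
    have h5 := wd_mul i hi hθ
    by_cases h3 : Q θ
    · by_cases h4 : dfc p θ + (wd i θ).factorization p = d
      · rw [if_pos ⟨h4, h3⟩, if_pos h3, if_pos h4, h5]
        push_cast
        ring
      · rw [if_neg (fun h => h4 h.1), if_pos h3, if_neg h4, mul_zero]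
    · rw [if_neg (fun h => h3 h.2), if_neg h3, mul_zero]
  · intro χ θ hc h ho
    rw [hasDefect_iff hc, dfc_over i hi hg hc h ho, hPQ χ θ hc h ho]

end

end Pool.Agent.H378.AC
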