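import Pool.Agent.H378.AC.Ind

/-!
# The alternating sums of the fixed characters vanish
-/

set_option autoImplicit false
set_option linter.unusedSectionVars false
set_option linter.unusedVariables false

open scoped Classical BigOperators Polynomial
open Polynomial
open Pool.Agent.Helper884.IC Pool.Agent.Y63.AWC Pool.Agent.Y63.KR Pool.Agent.X209.EQ
open Pool.Agent.X209.PJ Pool.Agent.X209.DI Pool.Agent.X209.DQ Pool.Agent.X209.NB
open Pool.Agent.Y63.NV (IsClassFun IsBlock InZ centralValue redC conv classValue)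
open Pool.Agent.Q100.IV (Op NP op_np le_op conj_op)

noncomputable section

namespace Pool.Agent.H378.AC

attribute [-instance] MonoidHom.fintypeRange MonoidHom.decidableMemRange

section

variable {A Y : Type} [Group A] [Group Y] [Finite A] [Finite Y]
  (i : A →* Y) (hi : Function.Injective i) [hn : i.range.Normal]

lemma cyc_of {G : Subgroup Y} [G.Normal] {y₀ : Y} (hy : ∀ y : Y, ∃ k : ℕ, y⁻¹ * y₀ ^ k ∈ G) :
    (∀ q : Y ⧸ G, q ∈ Subgroup.zpowers (y₀ : Y ⧸ G)) := by
  intro q
  obtain ⟨x, rfl⟩ := QuotientGroup.mk_surjective q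
  obtain ⟨k, hk⟩ := hy x
  refine ⟨k, ?_⟩
  change (QuotientGroup.mk y₀ : Y ⧸ G) ^ (k : ℤ) = QuotientGroup.mk x
  rw [zpow_natCast]
  exact (QuotientGroup.eq.mpr hk :
    (QuotientGroup.mk x : Y ⧸ G) = QuotientGroup.mk (y₀ ^ k)).symm

/-- the subgroups above `A` -/
lemma sub_real {y₀ : Y} (hy : ∀ y : Y, ∃ k : ℕ, y⁻¹ * y₀ ^ k ∈ i.range) {e : ℕ} (he : 1 < e)
    (hed : e ∣ i.range.index) :
    Nat.card (i.range ⊔ Subgroup.zpowers (y₀ ^ e) : Subgroup Y) < Nat.card Y := by
  set W := i.range ⊔ Subgroup.zpowers (y₀ ^ e) with hW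
  have h1 : W.index ≠ 1 := by
    intro h1
    have hn0 : i.range.index ≠ 0 := Subgroup.index_ne_zero_of_finite
    -- the image of `W` in the quotient
    have h2 : W = ⊤ := Subgroup.index_eq_one.mp h1
    have h3 : (y₀ : Y ⧸ i.range) ∈ Subgroup.zpowers ((y₀ : Y ⧸ i.range) ^ e) := by
      have h4 : y₀ ∈ W := by rw [h2]; trivial
      rw [hW, Subgroup.mem_sup_of_normal_left] at h4
      obtain ⟨a, ha, b, hb, hab⟩ := h4
      obtain ⟨j, rfl⟩ := Subgroup.mem_zpowers_iff.mp hb
      refine ⟨j, ?_⟩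
      have h5 : (QuotientGroup.mk (a * (y₀ ^ e) ^ j) : Y ⧸ i.range) =
          ((QuotientGroup.mk y₀ : Y ⧸ i.range) ^ e) ^ j := by
        rw [QuotientGroup.mk_mul, (QuotientGroup.eq_one_iff a).mpr ha, one_mul,
          QuotientGroup.mk_zpow, QuotientGroup.mk_pow]
      rw [hab] at h5
      exact h5.symm
    have h4 : orderOf (y₀ : Y ⧸ i.range) = i.range.index := by
      rw [Subgroup.index]
      exact orderOf_eq_card_of_forall_mem_zpowers (cyc_of hy)
    have h5 : orderOf (y₀ : Y ⧸ i.range) ∣ orderOf ((y₀ : Y ⧸ i.range) ^ e) :=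
      orderOf_dvd_of_mem_zpowers h3
    have h6 : orderOf ((y₀ : Y ⧸ i.range) ^ e) = i.range.index / e := by
      rw [orderOf_pow' _ (by omega), h4, Nat.gcd_eq_right hed]
    rw [h6, h4] at h5
    have h7 := Nat.le_of_dvd (Nat.div_pos (Nat.le_of_dvd (Nat.pos_of_ne_zero hn0) hed)
      (by omega)) h5
    have h8 := Nat.div_lt_self (Nat.pos_of_ne_zero hn0) he
    omega
  have h2 := W.card_mul_index
  have h3 : W.index ≠ 0 := Subgroup.index_ne_zero_of_finite
  have h4 : 0 < Nat.card W := Nat.card_pos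
  rw [← h2]
  have h5 : 2 ≤ W.index := by omega
  nlinarith

include hi in
/-- a normal `p`-subgroup which meets `A` trivially, if a complement centralises `A` -/
lemma central_quot {p : ℕ} [hp : Fact p.Prime] {y₀ : Y}
    (hy : ∀ y : Y, ∃ k : ℕ, y⁻¹ * y₀ ^ k ∈ i.range) (hO : Op p i.range = ⊥) {Q : Subgroup Y}
    (hQ : Q ∈ OQ p i.range) (hQc : CQ i.range Q = i.range) :
    ∃ M : Subgroup Y, M.Normal ∧ M ≠ ⊥ ∧ M ⊓ i.range = ⊥ := by
  set G := i.range with hG
  set C := Subgroup.centralizer (G : Set Y) with hC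
  have hQ' := mem_OQ.mp hQ
  have hQp : IsPGroup p Q := IsPGroup.of_card (n := 1) (by rw [hQ'.1, pow_one])
  have hQ1 : Q ≠ ⊥ := by
    intro h
    have h1 := hQ'.1
    rw [h, Subgroup.card_bot] at h1
    exact hp.out.one_lt.ne h1
  have hCn : C.Normal := by
    constructor
    intro c hc g
    rw [hC, Subgroup.mem_centralizer_iff] at hc ⊢
    intro x hx
    have h1 : g⁻¹ * x * g ∈ (G : Set Y) := by
      have := hn.conj_mem x hx g⁻¹
      rwa [inv_inv] at this
    have h2 := hc _ h1
    calc x * (g * c * g⁻¹) = g * (g⁻¹ * x * g * c) * g⁻¹ := by group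
      _ = g * (c * (g⁻¹ * x * g)) * g⁻¹ := by rw [h2]
      _ = g * c * g⁻¹ * x := by group
  have hQC : Q ≤ C := by
    intro q hq
    rw [hC, Subgroup.mem_centralizer_iff]
    intro x hx
    have h1 : x ∈ CQ G Q := by rw [hQc]; exact hx
    exact ((mem_CQ.mp h1).2 q hq).symm
  -- `C` is abelian
  have hcyc : IsCyclic (Y ⧸ G) := ⟨_, cyc_of hy⟩
  have hab : ∀ a b : C, a * b = b * a := by
    intro a b
    have hcm : IsMulCommutative C := by
      refine MonoidHom.isMulCommutative_of_isCyclic_of_ker_le_center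
        ((QuotientGroup.mk' G).comp C.subtype) ?_
      intro x hx
      rw [Subgroup.mem_center_iff]
      intro y
      have h1 : (x : Y) ∈ G := (QuotientGroup.eq_one_iff _).mp hx
      have h2 := Subgroup.mem_centralizer_iff.mp y.2 x h1
      exact Subtype.ext h2.symm
    exact hcm.is_comm.comm a b
  have hNPQ : NP p C Q := by
    refine ⟨hQC, hQp, fun c hc => ?_⟩
    ext q
    rw [mem_conjSub]
    constructor
    · intro h
      have h1 := congrArg Subtype.val (hab ⟨c, hc⟩ ⟨_, hQC h⟩)
      have h2 : c * (c⁻¹ * q * c) = (c⁻¹ * q * c) * c := h1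
      have h3 : q = c⁻¹ * q * c := by
        have h4 : q * c = (c⁻¹ * q * c) * c := by
          rw [← h2]
          group
        exact mul_right_cancel h4
      rw [h3]
      exact h
    · intro h
      have h1 := congrArg Subtype.val (hab ⟨c, hc⟩ ⟨_, hQC h⟩)
      have h2 : c * q = q * c := h1
      rw [mul_assoc, ← h2]
      have h3 : c⁻¹ * (c * q) = q := by group
      rw [h3]
      exact h
  have hM := op_np (p := p) C
  refine ⟨Op p C, ?_, ?_, ?_⟩
  · rw [← Subgroup.normalizer_eq_top_iff, eq_top_iff]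
    intro x _
    rw [← conjSub_eq_iff]
    exact conj_op x C (Pool.Agent.Q100.IV.conj_normal x)
  · intro h
    have h1 := le_op hNPQ
    rw [h] at h1
    exact hQ1 (le_bot_iff.mp h1)
  · rw [eq_bot_iff, ← hO]
    refine le_op ⟨inf_le_right, hM.pg.to_le inf_le_left, fun x hx => ?_⟩
    ext y
    rw [mem_conjSub, Subgroup.mem_inf, Subgroup.mem_inf]
    have key : ∀ y, y ∈ C → x⁻¹ * y * x = y := by
      intro y hyC
      have h1 := Subgroup.mem_centralizer_iff.mp hyC x hx
      rw [mul_assoc, ← h1]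
      group
    constructor
    · rintro ⟨h1, h2⟩
      have h3 : x⁻¹ * y * x ∈ C := hM.le h1
      have h4 : y ∈ C := by
        have := hCn.conj_mem _ h3 x
        have e : x * (x⁻¹ * y * x) * x⁻¹ = y := by group
        rwa [e] at this
      rw [key y h4] at h1 h2
      exact ⟨h1, h2⟩
    · rintro ⟨h1, h2⟩
      rw [key y (hM.le h1)]
      exact ⟨h1, h2⟩

end

section

variable {p : ℕ} [hp : Fact p.Prime] {F : Type} [Field F] [CharP F p]
  (red : integralClosure ℤ ℂ →+* F)

/-- **The inner induction.** -/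
theorem inner (hOrd : ∀ (H : Type) [Group H] [Finite H], IsCore p (⊥ : Subgroup H) → Ord red p H)
    {A : Type} [Group A] [Finite A]
    (hIH : ∀ (A' : Type) [Group A'] [Finite A'], Nat.card A' < Nat.card A → TT p red A')
    {B : (A → F) → F} (hB : IsBlock B) (hD : NoDZ p red B) :
    ∀ (n : ℕ) (Y : Type) [Group Y] [Finite Y] (i : A →* Y), Function.Injective i →
      i.range.Normal → ∀ y₀ : Y, (∀ y : Y, ∃ k : ℕ, y⁻¹ * y₀ ^ k ∈ i.range) →
      ∀ α : MulAut A, (∀ a, i (α a) = y₀ * i a * y₀⁻¹) → Nat.card Y = n →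
      MMP p α (fun σ θ => Induces red B θ) = 0 := by
  intro n
  induction n using Nat.strong_induction_on with
  | _ n ih =>
  intro Y _ _ i hi hn y₀ hy α hα hcard
  by_cases hst : ∀ f : A → F, IsClassFun f → B (fun x => f (α x)) = B f
  swap
  · exact mmp_unstable red α hst
  by_cases hc : Op p i.range ≠ ⊥ ∨ ∀ Q ∈ OQ p i.range, CQ i.range Q ≠ i.range
  · refine step red i hi (hOrd Y) hIH hy hα hc hB hD hst ?_
    intro e he hed
    set W := i.range ⊔ Subgroup.zpowers (y₀ ^ e) with hW
    have hle : i.range ≤ W := le_sup_left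
    let j : A →* W := i.codRestrict W (fun a => hle ⟨a, rfl⟩)
    have hj : Function.Injective j := by
      intro a b h
      exact hi (congrArg Subtype.val h)
    have hjr : ∀ w : W, w ∈ j.range ↔ (w : Y) ∈ i.range := by
      intro w
      constructor
      · rintro ⟨a, rfl⟩
        exact ⟨a, rfl⟩
      · rintro ⟨a, ha⟩
        exact ⟨a, Subtype.ext ha⟩
    have hjn : j.range.Normal := by
      constructor
      intro x hx g
      rw [hjr] at hx ⊢
      exact hn.conj_mem _ hx _
    refine ih _ ?_ W j hj hjn ⟨y₀ ^ e, Subgroup.mem_sup_right (Subgroup.mem_zpowers _)⟩ ?_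
      (α ^ e) ?_ rfl
    · rw [← hcard]
      exact sub_real i hy he hed
    · rintro ⟨w, hw⟩
      rw [hW, Subgroup.mem_sup_of_normal_left] at hw
      obtain ⟨a, ha, b, hb, hab⟩ := hw
      rw [← mem_powers_iff_mem_zpowers] at hb
      obtain ⟨k, rfl⟩ := hb
      refine ⟨k, ?_⟩
      rw [hjr]
      change w⁻¹ * (y₀ ^ e) ^ k ∈ i.range
      rw [← hab]
      have e1 : (a * (y₀ ^ e) ^ k)⁻¹ * (y₀ ^ e) ^ k =
          ((y₀ ^ e) ^ k)⁻¹ * a⁻¹ * (((y₀ ^ e) ^ k)⁻¹)⁻¹ := by group
      change (a * (y₀ ^ e) ^ k)⁻¹ * (y₀ ^ e) ^ k ∈ i.range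
      rw [e1]
      exact hn.conj_mem _ (i.range.inv_mem ha) _
    · intro a
      apply Subtype.ext
      change i ((α ^ e) a) = y₀ ^ e * i a * (y₀ ^ e)⁻¹
      have h2 : ∀ (k : ℕ) (a : A), i ((α ^ k) a) = y₀ ^ k * i a * (y₀ ^ k)⁻¹ := by
        intro k
        induction k with
        | zero =>
          intro a
          simp
        | succ k ih =>
          intro a
          rw [pow_succ, MulAut.mul_apply, ih, hα]
          group
      exact h2 e a
  · push Not at hc
    obtain ⟨hO, Q, hQ, hQc⟩ := hc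
    obtain ⟨M, hMn, hM1, hMG⟩ := central_quot i hi hy hO hQ hQc
    refine ih (Nat.card (Y ⧸ M)) ?_ (Y ⧸ M) ((QuotientGroup.mk' M).comp i) ?_ ?_
      (QuotientGroup.mk y₀) ?_ α ?_ rfl
    · rw [← hcard, Subgroup.card_eq_card_quotient_mul_card_subgroup M]
      have h1 : 1 < Nat.card M := by
        rcases Nat.lt_or_ge 1 (Nat.card M) with h | h
        · exact h
        · exact absurd (Subgroup.card_le_one_iff_eq_bot M |>.mp h) hM1
      have h2 : 0 < Nat.card (Y ⧸ M) := Nat.card_pos
      nlinarith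
    · rw [injective_iff_map_eq_one]
      intro a ha
      have h1 : i a ∈ M := (QuotientGroup.eq_one_iff _).mp ha
      have h2 : i a ∈ M ⊓ i.range := ⟨h1, a, rfl⟩
      rw [hMG, Subgroup.mem_bot] at h2
      exact hi (by rw [h2, map_one])
    · rw [MonoidHom.range_comp]
      exact hn.map _ (QuotientGroup.mk'_surjective M)
    · intro q
      obtain ⟨y, rfl⟩ := QuotientGroup.mk_surjective q
      obtain ⟨k, a, ha⟩ := hy y
      refine ⟨k, a, ?_⟩
      change (QuotientGroup.mk (i a) : Y ⧸ M) = _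
      rw [ha]
      rfl
    · intro a
      change (QuotientGroup.mk (i (α a)) : Y ⧸ M) = _
      rw [hα]
      rfl

/-- **The alternating sums of the fixed characters vanish.** -/
theorem tt_all
    (hOrd : ∀ (H : Type) [Group H] [Finite H], IsCore p (⊥ : Subgroup H) → Ord red p H) :
    ∀ (A : Type) [Group A] [Finite A], TT p red A := by
  have key : ∀ (n : ℕ) (A : Type) [Group A] [Finite A], Nat.card A = n → TT p red A := by
    intro n
    induction n using Nat.strong_induction_on with
    | _ n ih =>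
    intro A _ _ hA α B hB hD
    let Z := Subgroup.zpowers α
    let Y := A ⋊[Z.subtype] Z
    have : Finite (MulAut A) := inferInstance
    have : Finite Y := Finite.of_equiv _ (SemidirectProduct.equivProd (N := A) (G := Z)
      (φ := Z.subtype)).symm
    let i : A →* Y := SemidirectProduct.inl
    have hi : Function.Injective i := SemidirectProduct.inl_injective
    have hr : i.range = (SemidirectProduct.rightHom (N := A) (G := Z) (φ := Z.subtype)).ker :=
      SemidirectProduct.range_inl_eq_ker_rightHom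
    have hn : i.range.Normal := by
      rw [hr]
      infer_instance
    let y₀ : Y := SemidirectProduct.inr ⟨α, Subgroup.mem_zpowers α⟩
    refine inner red hOrd (fun A' _ _ h => ih _ (by rw [← hA]; exact h) A' rfl) hB hD _ Y i hi hn
      y₀ ?_ α ?_ rfl
    · intro y
      have hb := y.right.2
      rw [← mem_powers_iff_mem_zpowers] at hb
      obtain ⟨k, hk⟩ := hb
      refine ⟨k, ?_⟩
      rw [hr, MonoidHom.mem_ker, map_mul, map_inv, map_pow]
      have h1 : SemidirectProduct.rightHom y₀ = (⟨α, Subgroup.mem_zpowers α⟩ : Z) := rfl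
      have h2 : SemidirectProduct.rightHom y = y.right := rfl
      rw [h1, h2, inv_mul_eq_one]
      exact Subtype.ext hk.symm
    · intro a
      have h1 := SemidirectProduct.inl_aut (φ := Z.subtype) ⟨α, Subgroup.mem_zpowers α⟩ a
      rw [map_inv] at h1
      exact h1
  intro A _ _
  exact key _ A rfl

end

end Pool.Agent.H378.AC
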