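import Pool.Agent.H378.AC.Fun
import Pool.Graph.R_pool_sql_team_seeded_64922ed1.X209.DQ.Fin

/-!
# Radical chains
-/

set_option autoImplicit false
set_option linter.unusedSectionVars false
set_option linter.unusedVariables false

open scoped Classical BigOperators

noncomputable section

namespace Pool.Agent.H378.AC

open Pool.Agent.Q100.IV Pool.Agent.Y63.KR
open Pool.Agent.X209.DQ (IsRad upTo)
open Pool.Agent.X209.CC (conjSub_map')

variable {E : Type} [Group E] [Finite E] {p : ℕ} [hp : Fact p.Prime] {R : Type} [CommRing R]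
  {A : Type} [Group A] [Finite A] (i : A →* E) (hi : Function.Injective i)

include hi in
lemma conj_map_iff (a : A) (P : Subgroup A) :
    conjSub (i a) (P.map i) = P.map i ↔ conjSub a P = P := by
  rw [conjSub_map' i a P]
  exact ⟨fun h => Subgroup.map_injective hi h, fun h => by rw [h]⟩

include hi in
lemma stab_upTo {G : Subgroup E} (hG : i.range = G) (σ : Set (Subgroup A)) (P : Subgroup A) :
    G ⊓ chainStabilizer {Q : Subgroup E | Q ∈ Subgroup.map i '' σ ∧ Q ≤ P.map i} =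
      (chainStabilizer (upTo σ P)).map i := by
  ext x
  rw [Subgroup.mem_inf, mem_chainStabilizer]
  constructor
  · rintro ⟨hx, h⟩
    rw [← hG] at hx
    obtain ⟨a, rfl⟩ := hx
    refine ⟨a, ?_, rfl⟩
    rw [SetLike.mem_coe, mem_chainStabilizer]
    intro Q hQ
    exact (conj_map_iff i hi a Q).mp (h _ ⟨⟨Q, hQ.1, rfl⟩, Subgroup.map_mono hQ.2⟩)
  · rintro ⟨a, ha, rfl⟩
    rw [SetLike.mem_coe, mem_chainStabilizer] at ha
    refine ⟨by rw [← hG]; exact ⟨a, rfl⟩, ?_⟩
    rintro _ ⟨⟨Q, hQ, rfl⟩, hle⟩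
    rw [conj_map_iff i hi]
    exact ha Q ⟨hQ, (Subgroup.map_le_map_iff_of_injective hi).mp hle⟩

include hi in
lemma isOp_map (S P : Subgroup A) : IsOp p (S.map i) (P.map i) ↔ IsOp p S P := by
  have hle : ∀ P Q : Subgroup A, P.map i ≤ Q.map i ↔ P ≤ Q := fun P Q =>
    Subgroup.map_le_map_iff_of_injective hi
  have hpg : ∀ P : Subgroup A, IsPGroup p (P.map i) ↔ IsPGroup p P := by
    intro P
    constructor
    · intro h
      have := h.comap_of_injective i hi
      rwa [Subgroup.comap_map_eq_self_of_injective hi] at this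
    · exact fun h => h.map _
  have hcj : ∀ (S P : Subgroup A), (∀ h ∈ S.map i, conjSub h (P.map i) = P.map i) ↔
      ∀ h ∈ S, conjSub h P = P := by
    intro S P
    constructor
    · intro h a ha
      exact (conj_map_iff i hi a P).mp (h _ ⟨a, ha, rfl⟩)
    · rintro h _ ⟨a, ha, rfl⟩
      exact (conj_map_iff i hi a P).mpr (h a ha)
  unfold IsOp
  rw [hle, hpg, hcj]
  refine and_congr Iff.rfl ⟨fun h Q h1 h2 h3 => ?_, fun h Q h1 h2 h3 => ?_⟩
  · exact (hle _ _).mp (h (Q.map i) ((hle _ _).mpr h1) ((hpg _).mpr h2) ((hcj _ _).mpr h3))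
  · have h4 : (Q.comap i).map i = Q := Subgroup.map_comap_eq_self (h1.trans
      (Subgroup.map_le_range i S))
    rw [← h4] at h1 h2 h3 ⊢
    exact (hle _ _).mpr (h _ ((hle _ _).mp h1) ((hpg _).mp h2) ((hcj _ _).mp h3))

lemma isRad_isOp {σ : Set (Subgroup A)} (hσ : IsPChain p σ) :
    IsRad p σ ↔ ∀ P ∈ σ, IsOp p (chainStabilizer (upTo σ P)) P := by
  unfold IsRad IsOp
  refine forall_congr' fun P => forall_congr' fun hP => ?_
  constructor
  · rintro ⟨h1, h2⟩
    refine ⟨⟨h1, hσ.isPGroup P hP, fun h hh => ?_⟩, fun Q h3 h4 h5 => h2 Q h3 h4 h5⟩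
    exact mem_chainStabilizer.mp hh P ⟨hP, le_rfl⟩
  · rintro ⟨⟨h1, _, _⟩, h2⟩
    exact ⟨h1, fun Q h3 h4 h5 => h2 Q h3 h4 h5⟩

include hi in
/-- radical chains of `A` and of its image -/
theorem rad_hom {G : Subgroup E} (hG : i.range = G) (σ : Set (Subgroup A)) :
    IsRadChain p G (Subgroup.map i '' σ) ↔ IsPChain p σ ∧ IsRad p σ := by
  constructor
  · intro h
    have h1 : IsPChain p σ := (pch_map i hi).mp ⟨h.chain, h.isPGroup, h.ne_bot⟩
    refine ⟨h1, (isRad_isOp h1).mpr fun P hP => ?_⟩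
    have h2 := h.radical _ ⟨P, hP, rfl⟩
    rwa [stab_upTo i hi hG, isOp_map i hi] at h2
  · rintro ⟨h1, h2⟩
    have h3 := (pch_map (p := p) i hi).mpr h1
    refine ⟨h3.chain, h3.isPGroup, ?_, h3.ne_bot, ?_⟩
    · rintro _ ⟨P, _, rfl⟩
      rw [← hG]
      exact Subgroup.map_le_range i P
    · rintro _ ⟨P, hP, rfl⟩
      rw [stab_upTo i hi hG, isOp_map i hi]
      exact (isRad_isOp h1).mp h2 P hP

include hi in
/-- **Radical chains and all chains.** -/
theorem cs_rad_hom {G : Subgroup E} [G.Normal] (hG : i.range = G) (hO : Op p G = ⊥)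
    (Φ : Subgroup E → R) :
    ∑ σ : {σ : Set (Subgroup A) // IsPChain p σ}, (-1) ^ σ.1.ncard *
      (if IsRad p σ.1 then Φ (chainStabilizer (Subgroup.map i '' σ.1)) else 0) =
    ∑ σ : {σ : Set (Subgroup A) // IsPChain p σ}, (-1) ^ σ.1.ncard *
      Φ (chainStabilizer (Subgroup.map i '' σ.1)) := by
  have : Fintype {σ : Set (Subgroup E) // IsRadChain p G σ} := Fintype.ofFinite _
  rw [← cs_hom i hi hG, ← cs_rad hO Φ]
  have h1 : ∀ σ : {σ : Set (Subgroup A) // IsPChain p σ}, (-1 : R) ^ σ.1.ncard *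
      (if IsRad p σ.1 then Φ (chainStabilizer (Subgroup.map i '' σ.1)) else 0) =
      if IsRad p σ.1 then (-1 : R) ^ σ.1.ncard * Φ (chainStabilizer (Subgroup.map i '' σ.1))
        else 0 := by
    intro σ
    split_ifs
    · rfl
    · rw [mul_zero]
  simp only [h1]
  rw [← Finset.sum_filter]
  refine Finset.sum_bij (fun σ hσ => ⟨Subgroup.map i '' σ.1,
    (rad_hom i hi hG σ.1).mpr ⟨σ.2, (Finset.mem_filter.mp hσ).2⟩⟩) ?_ ?_ ?_ ?_
  · intro σ _
    exact Finset.mem_univ _
  · intro σ _ τ _ h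
    apply Subtype.ext
    have h2 := congrArg Subtype.val h
    exact (Set.image_injective.mpr (Subgroup.map_injective hi)) h2
  · intro τ _
    have h2 : Subgroup.map i '' (Subgroup.comap i '' τ.1) = τ.1 := by
      rw [Set.image_image]
      have : ∀ Q ∈ τ.1, (Q.comap i).map i = Q := fun Q hQ =>
        Subgroup.map_comap_eq_self (by rw [hG]; exact τ.2.le Q hQ)
      rw [Set.image_congr this, Set.image_id']
    have h3 := (rad_hom (p := p) i hi hG (Subgroup.comap i '' τ.1)).mp (by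
      rw [h2]
      exact τ.2)
    exact ⟨⟨_, h3.1⟩, Finset.mem_filter.mpr ⟨Finset.mem_univ _, h3.2⟩, Subtype.ext h2⟩
  · intro σ _
    rw [Set.ncard_image_of_injective _ (Subgroup.map_injective hi)]

end Pool.Agent.H378.AC
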