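import Pool.Agent.H378.AC.Dec
import Pool.Agent.H378.AC.Rdc

/-!
# The ordinary conjecture
-/

set_option autoImplicit false
set_option linter.unusedSectionVars false
set_option linter.unusedVariables false

open scoped Classical BigOperators Polynomial
open Polynomial
open Pool.Agent.Helper884.IC Pool.Agent.Y63.AWC Pool.Agent.Y63.KR Pool.Agent.X209.EQ
open Pool.Agent.X209.PJ Pool.Agent.X209.DI Pool.Agent.X209.DQ Pool.Agent.X209.NB
open Pool.Agent.Y63.NV (IsClassFun IsBlock InZ centralValue redC conv classValue)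
open Pool.Agent.Q100.IV (Op NP op_np le_op)

noncomputable section

namespace Pool.Agent.H378.AC

section

variable {p : ℕ} [hp : Fact p.Prime] {F : Type} [Field F] [CharP F p]
  (red : integralClosure ℤ ℂ →+* F) {H : Type} [Group H] [Finite H]

/-- the function of the stabilisers -/
def PhB (p : ℕ) (β : (H → F) → F) (S : Subgroup H) : ℤ[X] :=
  (Nat.card S : ℤ[X]) * gf p (fun θ : S → ℂ => Induces red β θ)

lemma mmp_one (β : (H → F) → F) : MMP p (1 : MulAut H) (fun σ θ => Induces red β θ) =
    ∑ σ : {σ : Set (Subgroup H) // IsPChain p σ}, (-1) ^ σ.1.ncard *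
      PhB red p β (chainStabilizer (Subgroup.map (MonoidHom.id H) '' σ.1)) := by
  unfold MMP PhB
  refine Finset.sum_congr rfl fun σ _ => ?_
  have h1 : Subgroup.map (MonoidHom.id H) '' σ.1 = σ.1 := by
    have : (Subgroup.map (MonoidHom.id H)) = id := funext fun P => Subgroup.map_id P
    rw [this, Set.image_id]
  rw [h1]
  congr 2
  refine gf_congr fun χ hχ => ⟨fun h => h.1, fun h => ⟨h, 1, ?_⟩⟩
  rw [map_one, mul_one]
  exact (FA σ.1 χ).one_mem

lemma core_of_op (h : Op p (⊤ : Subgroup H) = ⊥) : IsCore p (⊥ : Subgroup H) := by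
  refine ⟨IsPGroup.of_bot, inferInstance, fun N hN hpN => ?_⟩
  rw [← h]
  refine le_op ⟨le_top, hpN, fun x _ => ?_⟩
  rw [conjSub_eq_iff]
  exact (Subgroup.normalizer_eq_top_iff.mpr hN) ▸ Subgroup.mem_top x

/-- the alternating sums vanish under the ordinary conjecture -/
theorem ord_zero (hOrd : IsCore p (⊥ : Subgroup H) → Ord red p H) {β : (H → F) → F}
    (hβ : IsBlock β) (hD : NoDZ p red β) :
    MMP p (1 : MulAut H) (fun σ θ => Induces red β θ) = 0 := by
  rw [mmp_one]
  have hr : (MonoidHom.id H).range = ⊤ := MonoidHom.range_eq_top.mpr fun x => ⟨x, rfl⟩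
  have hinj : Function.Injective (MonoidHom.id H) := fun x y h => h
  by_cases hO : Op p (⊤ : Subgroup H) = ⊥
  · rw [← cs_rad_hom (MonoidHom.id H) hinj hr hO]
    have h1 := hOrd (core_of_op hO) β hβ hD
    have : Fintype {σ : Set (Subgroup H) // IsChainAbove p (⊥ : Subgroup H) σ} :=
      Fintype.ofFinite _
    ext d
    rw [finsetSum_coeff, coeff_zero]
    have hk : ∀ (g : H) (σ : Set (Subgroup H)),
        kOrd p red β d (chainStabilizer (conjSub g '' σ)) =
          kOrd p red β d (chainStabilizer σ) := by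
      intro g σ
      rw [chainStabilizer_conj, kOrd_conj]
    have h2 := card_mul_altC (p := p) (A := (⊥ : Subgroup H))
      (fun σ => if IsRad p σ then (kOrd p red β d (chainStabilizer σ) : ℤ) else 0)
      (fun g σ _ => by simp only [isRad_conj, hk])
    have h3 := h1 d
    unfold altW at h3
    rw [h3, mul_zero] at h2
    rw [h2]
    refine Fintype.sum_equiv (Equiv.subtypeEquivRight fun σ => ⟨pch_above, above_pch⟩) _ _
      fun σ => ?_
    change ((-1 : ℤ[X]) ^ σ.1.ncard * (if IsRad p σ.1 then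
      PhB red p β (chainStabilizer (Subgroup.map (MonoidHom.id H) '' σ.1)) else 0)).coeff d =
      (-1 : ℤ) ^ σ.1.ncard * ((Nat.card (chainStabilizer σ.1) : ℤ) *
        if IsRad p σ.1 then (kOrd p red β d (chainStabilizer σ.1) : ℤ) else 0)
    have h4 : Subgroup.map (MonoidHom.id H) '' σ.1 = σ.1 := by
      have : (Subgroup.map (MonoidHom.id H)) = id := funext fun P => Subgroup.map_id P
      rw [this, Set.image_id]
    rw [h4]
    have h5 : ((-1 : ℤ[X]) ^ σ.1.ncard) = C ((-1 : ℤ) ^ σ.1.ncard) := by simp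
    rw [h5, coeff_C_mul]
    congr 1
    split_ifs
    · unfold PhB
      have h6 : (Nat.card (chainStabilizer σ.1) : ℤ[X]) =
          C ((Nat.card (chainStabilizer σ.1) : ℕ) : ℤ) := by simp
      rw [h6, coeff_C_mul, coeff_gf]
      rfl
    · rw [coeff_zero, mul_zero]
  · rw [← cs_hom (MonoidHom.id H) hinj hr]
    have h1 := op_np (p := p) (⊤ : Subgroup H)
    exact cs_zero h1 hO (fun x => h1.nrm x trivial) _

end

end Pool.Agent.H378.AC
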