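import Pool.Graph.R_pool_sql_team_seeded_2aa45f1a.Q100.PX.Alt

/-!
# Normal subgroups with abelian quotient of `p`-rank at most one: the posets of `p`-subgroups
-/

set_option autoImplicit false
set_option linter.unusedSectionVars false

open scoped Classical BigOperators

noncomputable section

namespace Pool.Agent.H378.AC

open Pool.Agent.Q100.IV Pool.Agent.Q100.PX Pool.Agent.Y63.KR

variable {E : Type} [Group E] [Finite E] {p : ℕ} [hp : Fact p.Prime] {G : Subgroup E} [hG : G.Normal]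

lemma sup_zp_inf {u : E} (huG : Subgroup.zpowers u ⊓ G = ⊥) {R : Subgroup E} (hRG : R ≤ G)
    (huR : conjSub u R = R) : (R ⊔ Subgroup.zpowers u) ⊓ G = R := by
  have hZT : Subgroup.zpowers u ≤ Subgroup.normalizer (R : Set E) := by
    rw [Subgroup.zpowers_le]
    exact conjSub_eq_iff.mp huR
  apply le_antisymm
  · rintro x ⟨hx, hxG⟩
    have h5 : x ∈ ((R ⊔ Subgroup.zpowers u : Subgroup E) : Set E) := hx
    rw [Subgroup.coe_mul_of_right_le_normalizer_left _ _ hZT] at h5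
    obtain ⟨t, ht, v, hv, rfl⟩ := Set.mem_mul.mp h5
    have h6 : v ∈ Subgroup.zpowers u ⊓ G := by
      refine ⟨hv, ?_⟩
      have h7 := G.mul_mem (G.inv_mem (hRG ht)) hxG
      rwa [inv_mul_cancel_left] at h7
    rw [huG, Subgroup.mem_bot] at h6
    rw [h6, mul_one]
    exact ht
  · exact le_inf le_sup_left hRG

lemma conj_zp {K : Set E} {u : E} (hK : ∀ x ∈ K, u * x = x * u) {x : E} (hx : x ∈ K) :
    conjSub x (Subgroup.zpowers u) = Subgroup.zpowers u :=
  conj_eq_self fun r hr => by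
    obtain ⟨k, rfl⟩ := Subgroup.mem_zpowers_iff.mp hr
    have : Commute u x := hK x hx
    exact (this.symm.zpow_right k).eq

/-- the subgroups above a subgroup of order `p` which meet `G` nontrivially -/
lemma alt_over {K : Set E} {u : E} (hu : u ^ p = 1) (huG : Subgroup.zpowers u ⊓ G = ⊥)
    (hK : ∀ x ∈ K, u * x = x * u) :
    alt (· ≤ ·) ((SS p K (⊤ : Subgroup E) (Subgroup.zpowers u)).filter (fun P => ¬ P ⊓ G = ⊥)) =
      alt (· ≤ ·) (SS p K (CG G u) ⊥) := by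
  have hup : ∃ k : ℕ, u ^ p ^ k = 1 := ⟨1, by rw [pow_one]; exact hu⟩
  rw [← alt_cent hup hK]
  set Q := Subgroup.zpowers u with hQ
  have hZ : IsPGroup p Q := by
    intro z
    obtain ⟨j, hj⟩ := Subgroup.mem_zpowers_iff.mp z.2
    refine ⟨1, Subtype.ext ?_⟩
    change (z : E) ^ p ^ 1 = 1
    rw [← hj, pow_one, ← zpow_natCast, ← zpow_mul, mul_comm, zpow_mul, zpow_natCast, hu, one_zpow]
  have hQK : ∀ x ∈ K, conjSub x Q = Q := fun x hx => conj_zp hK hx
  -- retraction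
  have h1 : alt (· ≤ ·) ((SS p K (⊤ : Subgroup E) Q).filter (fun P => ¬ P ⊓ G = ⊥)) =
      alt (· ≤ ·) (((SS p K (⊤ : Subgroup E) Q).filter (fun P => ¬ P ⊓ G = ⊥)).filter
        (fun P => P ⊓ G ⊔ Q = P)) := by
    refine retract_down (Finset.filter_subset _ _) (fun P => P ⊓ G ⊔ Q) ?_ ?_ ?_ ?_
    · intro P hP
      rw [Finset.mem_filter, mem_SS] at hP
      have hle : P ⊓ G ⊔ Q ≤ P := sup_le inf_le_left hP.1.2.1.le
      have hinf : (P ⊓ G ⊔ Q) ⊓ G = P ⊓ G :=
        le_antisymm (inf_le_inf_right _ hle) (le_inf le_sup_left inf_le_right)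
      rw [Finset.mem_filter, Finset.mem_filter, mem_SS, hinf]
      refine ⟨⟨⟨hP.1.1.to_le hle, ?_, le_top, ?_⟩, hP.2⟩, rfl⟩
      · refine lt_of_le_of_ne le_sup_right fun h => hP.2 ?_
        rw [eq_bot_iff, ← huG]
        exact le_inf (h ▸ le_sup_left) inf_le_right
      · intro x hx
        rw [conjSub_sup, conjSub_inf, hP.1.2.2.2 x hx, hQK x hx, conj_normal]
    · intro P hP
      rw [Finset.mem_filter, mem_SS] at hP
      exact sup_le inf_le_left hP.1.2.1.le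
    · intro P _ P' _ h
      exact sup_le_sup_right (inf_le_inf_right _ h) _
    · intro P hP
      exact (Finset.mem_filter.mp hP).2
  rw [h1, ← alt_image_on (r := (· ≤ ·)) (r' := (· ≤ ·)) (fun R : Subgroup E => R ⊓ G)
    (((SS p K (⊤ : Subgroup E) Q).filter (fun P => ¬ P ⊓ G = ⊥)).filter (fun P => P ⊓ G ⊔ Q = P))]
  · congr 1
    ext R
    rw [Finset.mem_image, mem_SS]
    constructor
    · rintro ⟨P, hP, rfl⟩
      rw [Finset.mem_filter, Finset.mem_filter, mem_SS] at hP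
      refine ⟨hP.1.1.1.to_le inf_le_left, bot_lt_iff_ne_bot.mpr hP.1.2, inf_le_right, ?_⟩
      rintro x (rfl | hx)
      · rw [conjSub_inf, conj_normal (G := G),
          conjSub_eq_iff.mpr (Subgroup.le_normalizer (hP.1.1.2.1.le (Subgroup.mem_zpowers x)))]
      · rw [conjSub_inf, conj_normal (G := G), hP.1.1.2.2.2 x hx]
    · rintro ⟨h2, h3, h4, h5⟩
      have huR : conjSub u R = R := h5 u (Set.mem_insert _ _)
      have hZR : Q ≤ Subgroup.normalizer (R : Set E) := by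
        rw [hQ, Subgroup.zpowers_le]
        exact conjSub_eq_iff.mp huR
      have hinf : (R ⊔ Q) ⊓ G = R := sup_zp_inf huG h4 huR
      refine ⟨R ⊔ Q, ?_, hinf⟩
      rw [Finset.mem_filter, Finset.mem_filter, mem_SS, hinf]
      refine ⟨⟨⟨IsPGroup.to_sup_of_normal_left' h2 hZ hZR, ?_, le_top, ?_⟩, h3.ne'⟩, rfl⟩
      · refine lt_of_le_of_ne le_sup_right fun h => h3.ne' ?_
        rw [← h, huG] at hinf
        exact hinf.symm
      · intro x hx
        rw [conjSub_sup, h5 x (Set.mem_insert_of_mem _ hx), hQK x hx]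
  · intro P hP P' hP' h
    have e1 := (Finset.mem_filter.mp hP).2
    have e2 := (Finset.mem_filter.mp hP').2
    have h' : P ⊓ G = P' ⊓ G := h
    rw [← e1, ← e2, h']
  · intro P hP P' hP'
    have e1 := (Finset.mem_filter.mp hP).2
    have e2 := (Finset.mem_filter.mp hP').2
    constructor
    · intro h
      exact inf_le_inf_right _ h
    · intro h
      rw [← e1, ← e2]
      exact sup_le_sup_right h _

/-- the subgroups above a subgroup of order `p` which meet `G` trivially -/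
lemma sum_over {K : Set E} {Q : Subgroup E} (hQp : IsPGroup p Q) (hQ1 : Q ≠ ⊥)
    (hQK : ∀ x ∈ K, conjSub x Q = Q) (hQG : Q ⊓ G = ⊥) :
    ∑ R ∈ ((SS p K (⊤ : Subgroup E) ⊥).filter (fun R => R ⊓ G = ⊥)).filter (fun R => Q ≤ R),
      alt (· ≤ ·) (SS p K ⊤ R) =
      alt (· ≤ ·) ((SS p K (⊤ : Subgroup E) Q).filter (fun P => ¬ P ⊓ G = ⊥)) := by
  have hnot : Q ∉ SS p K (⊤ : Subgroup E) Q := by
    rw [mem_SS]
    exact fun h => lt_irrefl _ h.2.1
  have h1 : alt (· ≤ ·) (insert Q (SS p K (⊤ : Subgroup E) Q)) = 0 := by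
    refine alt_cone (t := Q) (Finset.mem_insert_self _ _) fun P hP => Or.inr ?_
    rcases Finset.mem_insert.mp hP with rfl | hP
    · exact le_rfl
    · exact (mem_SS.mp hP).2.1.le
  rw [alt_least po_le] at h1
  have hup : ∀ P ∈ insert Q (SS p K (⊤ : Subgroup E) Q),
      alt (· ≤ ·) (up (· ≤ ·) (insert Q (SS p K (⊤ : Subgroup E) Q)) P) =
        alt (· ≤ ·) (SS p K ⊤ P) := by
    intro P hP
    congr 1
    have hQP : Q ≤ P := by
      rcases Finset.mem_insert.mp hP with rfl | hP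
      · exact le_rfl
      · exact (mem_SS.mp hP).2.1.le
    ext R
    rw [mem_up, Finset.mem_insert, mem_SS, mem_SS]
    constructor
    · rintro ⟨rfl | h2, h3, h4⟩
      · exact absurd (le_antisymm hQP h3) h4
      · exact ⟨h2.1, lt_of_le_of_ne h3 (Ne.symm h4), h2.2.2⟩
    · rintro ⟨h2, h3, h4, h5⟩
      exact ⟨Or.inr ⟨h2, hQP.trans_lt h3, h4, h5⟩, h3.le, h3.ne'⟩
  rw [Finset.sum_congr rfl hup] at h1
  have h2 := alt_least po_le ((SS p K (⊤ : Subgroup E) Q).filter (fun P => ¬ P ⊓ G = ⊥))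
  have hup2 : ∀ P ∈ (SS p K (⊤ : Subgroup E) Q).filter (fun P => ¬ P ⊓ G = ⊥),
      alt (· ≤ ·) (up (· ≤ ·) ((SS p K (⊤ : Subgroup E) Q).filter (fun P => ¬ P ⊓ G = ⊥)) P) =
        alt (· ≤ ·) (SS p K ⊤ P) := by
    intro P hP
    congr 1
    rw [Finset.mem_filter, mem_SS] at hP
    ext R
    rw [mem_up, Finset.mem_filter, mem_SS, mem_SS]
    constructor
    · rintro ⟨⟨h2, h5⟩, h3, h4⟩
      exact ⟨h2.1, lt_of_le_of_ne h3 (Ne.symm h4), h2.2.2⟩
    · rintro ⟨h2, h3, h4, h5⟩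
      refine ⟨⟨⟨h2, hP.1.2.1.trans h3, h4, h5⟩, fun h6 => hP.2 ?_⟩, h3.le, h3.ne'⟩
      rw [eq_bot_iff, ← h6]
      exact inf_le_inf_right _ h3.le
  rw [Finset.sum_congr rfl hup2] at h2
  rw [h2]
  rw [← Finset.sum_filter_add_sum_filter_not (insert Q (SS p K (⊤ : Subgroup E) Q))
    (fun R => R ⊓ G = ⊥)] at h1
  have e1 : (insert Q (SS p K (⊤ : Subgroup E) Q)).filter (fun R => ¬ R ⊓ G = ⊥) =
      (SS p K (⊤ : Subgroup E) Q).filter (fun P => ¬ P ⊓ G = ⊥) := by
    rw [Finset.filter_insert, if_neg (not_not.mpr hQG)]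
  have e2 : (insert Q (SS p K (⊤ : Subgroup E) Q)).filter (fun R => R ⊓ G = ⊥) =
      ((SS p K (⊤ : Subgroup E) ⊥).filter (fun R => R ⊓ G = ⊥)).filter (fun R => Q ≤ R) := by
    ext R
    rw [Finset.mem_filter, Finset.mem_insert, Finset.mem_filter, Finset.mem_filter, mem_SS, mem_SS]
    constructor
    · rintro ⟨rfl | h3, h4⟩
      · exact ⟨⟨⟨hQp, bot_lt_iff_ne_bot.mpr hQ1, le_top, hQK⟩, h4⟩, le_rfl⟩
      · exact ⟨⟨⟨h3.1, bot_le.trans_lt h3.2.1, h3.2.2⟩, h4⟩, h3.2.1.le⟩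
    · rintro ⟨⟨h3, h4⟩, h5⟩
      refine ⟨?_, h4⟩
      rcases h5.eq_or_lt with h6 | h6
      · exact Or.inl h6.symm
      · exact Or.inr ⟨h3.1, h6, h3.2.2⟩
  rw [e1, e2] at h1
  linarith

/-- the subgroups of order `p` which meet `G` trivially -/
def OQ (p : ℕ) (G : Subgroup E) : Finset (Subgroup E) :=
  fs {Q : Subgroup E | Nat.card Q = p ∧ Q ⊓ G = ⊥}

omit hp hG in
lemma mem_OQ {Q : Subgroup E} : Q ∈ OQ p G ↔ Nat.card Q = p ∧ Q ⊓ G = ⊥ := by
  unfold OQ
  rw [mem_fs]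
  exact Iff.rfl

/-- the centraliser -/
def CQ (G Q : Subgroup E) : Subgroup E := G ⊓ Subgroup.centralizer (Q : Set E)

omit [Finite E] hG in
lemma mem_CQ {Q : Subgroup E} {x : E} : x ∈ CQ G Q ↔ x ∈ G ∧ ∀ q ∈ Q, q * x = x * q := by
  unfold CQ
  rw [Subgroup.mem_inf, Subgroup.mem_centralizer_iff]
  exact Iff.rfl

omit [Finite E] hG in
lemma CQ_zpowers (u : E) : CQ G (Subgroup.zpowers u) = CG G u := by
  ext x
  rw [mem_CQ, mem_CG]
  refine and_congr Iff.rfl ⟨fun h => h u (Subgroup.mem_zpowers u), fun h q hq => ?_⟩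
  obtain ⟨k, rfl⟩ := Subgroup.mem_zpowers_iff.mp hq
  have : Commute u x := h
  exact (this.zpow_left k).eq

/-- `E / G` is abelian of `p`-rank at most one -/
structure R1 (p : ℕ) (G : Subgroup E) : Prop where
  comm : ∀ x y : E, x * y * x⁻¹ * y⁻¹ ∈ G
  rank : ∀ R : Subgroup E, IsPGroup p R → R ≠ ⊥ → R ⊓ G = ⊥ → ∃ Q : Subgroup E, Q ≤ R ∧
    Nat.card Q = p ∧ ∀ Q' : Subgroup E, Q' ≤ R → Nat.card Q' = p → Q' = Q

omit [Finite E] in
lemma cent_of_norm (hR : R1 p G) {Q : Subgroup E} (hQG : Q ⊓ G = ⊥) {x : E}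
    (hx : conjSub x Q = Q) {u : E} (hu : u ∈ Q) : u * x = x * u := by
  have h7 : x * u * x⁻¹ ∈ Q := by
    rw [← hx, mem_conjSub]
    have : x⁻¹ * (x * u * x⁻¹) * x = u := by group
    rw [this]
    exact hu
  have h8 : x * u * x⁻¹ * u⁻¹ ∈ Q ⊓ G := ⟨Q.mul_mem h7 (Q.inv_mem hu), hR.comm x u⟩
  rw [hQG, Subgroup.mem_bot] at h8
  calc u * x = (x * u * x⁻¹ * u⁻¹)⁻¹ * (x * u) := by group
    _ = x * u := by rw [h8]; group

omit hG in
lemma exists_zp {Q : Subgroup E} (hQ : Nat.card Q = p) : ∃ u : E, u ∈ Q ∧ u ^ p = 1 ∧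
    Q = Subgroup.zpowers u := by
  have hne : Nontrivial Q := Finite.one_lt_card_iff_nontrivial.mp (hQ ▸ hp.out.one_lt)
  obtain ⟨u, hu⟩ := exists_ne (1 : Q)
  have h1 : Subgroup.zpowers u = ⊤ := zpowers_eq_top_of_prime_card (p := p) hQ hu
  refine ⟨u, u.2, ?_, ?_⟩
  · have h2 : u ^ p = 1 := by rw [← hQ]; exact pow_card_eq_one'
    exact congrArg Subtype.val h2
  · apply le_antisymm
    · intro x hx
      have h2 : (⟨x, hx⟩ : Q) ∈ Subgroup.zpowers u := by rw [h1]; trivial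
      obtain ⟨k, hk⟩ := Subgroup.mem_zpowers_iff.mp h2
      exact Subgroup.mem_zpowers_iff.mpr ⟨k, congrArg Subtype.val hk⟩
    · rw [Subgroup.zpowers_le]
      exact u.2

/-- **The posets of `E` and of `G`.** -/
theorem alt_rank1 (hR : R1 p G) (K : Set E) :
    alt (· ≤ ·) (SS p K (⊤ : Subgroup E) ⊥) = alt (· ≤ ·) (SS p K G ⊥) -
      ∑ Q ∈ (OQ p G).filter (fun Q => ∀ x ∈ K, conjSub x Q = Q),
        alt (· ≤ ·) (SS p K (CQ G Q) ⊥) := by
  rw [alt_minimal (G := G) K]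
  congr 1
  have hΩ : ∀ R : Subgroup E, ∃ Q : Subgroup E,
      R ∈ (SS p K (⊤ : Subgroup E) ⊥).filter (fun Q => Q ⊓ G = ⊥) →
      (Q ≤ R ∧ Nat.card Q = p ∧ ∀ Q' : Subgroup E, Q' ≤ R → Nat.card Q' = p → Q' = Q) := by
    intro R
    by_cases h : R ∈ (SS p K (⊤ : Subgroup E) ⊥).filter (fun Q => Q ⊓ G = ⊥)
    · rw [Finset.mem_filter, mem_SS] at h
      obtain ⟨Q, hQ⟩ := hR.rank R h.1.1 h.1.2.1.ne' h.2
      exact ⟨Q, fun _ => hQ⟩
    · exact ⟨⊥, fun h' => absurd h' h⟩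
  choose Ω hΩ using hΩ
  rw [← Finset.sum_fiberwise_of_maps_to (g := Ω)
    (t := (OQ p G).filter (fun Q => ∀ x ∈ K, conjSub x Q = Q))]
  · refine Finset.sum_congr rfl fun Q hQ => ?_
    rw [Finset.mem_filter, mem_OQ] at hQ
    obtain ⟨⟨hQc, hQG⟩, hQK⟩ := hQ
    have hQp : IsPGroup p Q := IsPGroup.of_card (n := 1) (by rw [hQc, pow_one])
    have hQ1 : Q ≠ ⊥ := by
      intro h
      rw [h, Subgroup.card_bot] at hQc
      exact hp.out.one_lt.ne hQc
    have e1 : ((SS p K (⊤ : Subgroup E) ⊥).filter (fun Q => Q ⊓ G = ⊥)).filter (fun R => Ω R = Q) =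
        ((SS p K (⊤ : Subgroup E) ⊥).filter (fun Q => Q ⊓ G = ⊥)).filter (fun R => Q ≤ R) := by
      refine Finset.filter_congr fun R hR' => ?_
      obtain ⟨h1, h2, h3⟩ := hΩ R hR'
      constructor
      · rintro rfl
        exact h1
      · intro h
        exact (h3 Q h hQc).symm
    rw [e1, sum_over hQp hQ1 hQK hQG]
    obtain ⟨u, huQ, hup, rfl⟩ := exists_zp hQc
    rw [CQ_zpowers]
    exact alt_over hup hQG fun x hx => cent_of_norm hR hQG (hQK x hx) huQ
  · intro R hR'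
    obtain ⟨h1, h2, h3⟩ := hΩ R hR'
    rw [Finset.mem_filter, mem_OQ]
    rw [Finset.mem_filter, mem_SS] at hR'
    refine ⟨⟨h2, ?_⟩, fun x hx => ?_⟩
    · rw [eq_bot_iff, ← hR'.2]
      exact inf_le_inf_right _ h1
    · refine h3 _ ?_ ?_
      · have h4 : conjSub x (Ω R) ≤ conjSub x R := Subgroup.map_mono h1
        rwa [hR'.1.2.2.2 x hx] at h4
      · rw [← h2]
        exact Nat.card_congr (Subgroup.equivMapOfInjective _ _
          (MulAut.conj x).injective).toEquiv.symm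

omit [Finite E] in
lemma zp_unique {R : Type} [Group R] [Finite R] [IsCyclic R] {x y : R} (hx : orderOf x = p)
    (hy : orderOf y = p) : Subgroup.zpowers y ≤ Subgroup.zpowers x := by
  have : Fintype R := Fintype.ofFinite R
  have h1 : ∀ z : R, orderOf z = p → (Finset.univ.filter fun a : R => a ∈ Subgroup.zpowers z) =
      Finset.univ.filter fun a : R => a ^ p = 1 := by
    intro z hz
    apply Finset.eq_of_subset_of_card_le
    · intro a ha
      rw [Finset.mem_filter] at ha ⊢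
      refine ⟨Finset.mem_univ _, ?_⟩
      obtain ⟨k, rfl⟩ := Subgroup.mem_zpowers_iff.mp ha.2
      rw [← zpow_natCast, ← zpow_mul, mul_comm, zpow_mul, zpow_natCast, ← hz, pow_orderOf_eq_one,
        one_zpow]
    · refine (IsCyclic.card_pow_eq_one_le hp.out.pos).trans ?_
      rw [← Fintype.card_subtype, ← Nat.card_eq_fintype_card]
      change p ≤ Nat.card (Subgroup.zpowers z)
      rw [Nat.card_zpowers, hz]
  intro a ha
  have h2 : a ∈ Finset.univ.filter fun a : R => a ∈ Subgroup.zpowers y :=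
    Finset.mem_filter.mpr ⟨Finset.mem_univ _, ha⟩
  rw [h1 y hy, ← h1 x hx] at h2
  exact (Finset.mem_filter.mp h2).2

/-- cyclic quotients -/
theorem R1.of_cyclic (hc : IsCyclic (E ⧸ G)) : R1 p G := by
  have hcomm : ∀ a b : E ⧸ G, a * b = b * a := fun a b => by
    obtain ⟨g, hg⟩ := hc.exists_generator
    obtain ⟨i, rfl⟩ := Subgroup.mem_zpowers_iff.mp (hg a)
    obtain ⟨j, rfl⟩ := Subgroup.mem_zpowers_iff.mp (hg b)
    rw [← zpow_add, ← zpow_add, add_comm]
  refine ⟨?_, ?_⟩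
  · intro x y
    rw [← QuotientGroup.eq_one_iff, QuotientGroup.mk_mul, QuotientGroup.mk_mul,
      QuotientGroup.mk_mul, hcomm (x : E ⧸ G) (y : E ⧸ G), ← QuotientGroup.mk_mul,
      ← QuotientGroup.mk_mul, ← QuotientGroup.mk_mul]
    have : y * x * x⁻¹ * y⁻¹ = 1 := by group
    rw [this]
    rfl
  · intro R hRp hR1 hRG
    have hinj : Function.Injective ((QuotientGroup.mk' G).comp R.subtype) := by
      rw [injective_iff_map_eq_one]
      intro x hx
      have h2 : ((x : E) : E ⧸ G) = 1 := hx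
      rw [QuotientGroup.eq_one_iff] at h2
      have h3 : (x : E) ∈ R ⊓ G := ⟨x.2, h2⟩
      rw [hRG, Subgroup.mem_bot] at h3
      exact Subtype.ext h3
    have hcR : IsCyclic R := isCyclic_of_injective _ hinj
    have hdvd : p ∣ Nat.card R := by
      obtain ⟨n, hn⟩ := hRp.exists_card_eq
      rw [hn]
      refine dvd_pow_self p fun h0 => hR1 ?_
      rw [h0, pow_zero] at hn
      exact Subgroup.card_eq_one.mp hn
    obtain ⟨x, hx⟩ := exists_prime_orderOf_dvd_card' p hdvd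
    refine ⟨Subgroup.zpowers (x : E), ?_, ?_, ?_⟩
    · rw [Subgroup.zpowers_le]
      exact x.2
    · rw [Nat.card_zpowers, Subgroup.orderOf_coe, hx]
    · intro Q' hQ' hc'
      obtain ⟨v, hv, hvp, rfl⟩ := exists_zp hc'
      have hv1 : orderOf (⟨v, hQ' hv⟩ : R) = p := by
        rw [Subgroup.orderOf_mk, ← Nat.card_zpowers, hc']
      have h4 : Subgroup.zpowers (⟨v, hQ' hv⟩ : R) = Subgroup.zpowers x :=
        le_antisymm (zp_unique hx hv1) (zp_unique hv1 hx)
      have h5 := congrArg (Subgroup.map R.subtype) h4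
      rw [MonoidHom.map_zpowers, MonoidHom.map_zpowers] at h5
      exact h5

end Pool.Agent.H378.AC
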