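import Pool.Agent.H378.AC.Ordn

/-!
# Stable blocks
-/

set_option autoImplicit false
set_option linter.unusedSectionVars false
set_option linter.unusedVariables false

open scoped Classical BigOperators Polynomial
open Polynomial
open Pool.Agent.Helper884.IC Pool.Agent.Y63.AWC Pool.Agent.Y63.KR Pool.Agent.X209.EQ
open Pool.Agent.X209.PJ Pool.Agent.X209.DI Pool.Agent.X209.DQ Pool.Agent.X209.NB
open Pool.Agent.Y63.NV (IsClassFun IsBlock InZ centralValue redC conv classValue)
open Pool.Agent.Q100.IV (Op NP op_np le_op conj_op conj_normal)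

noncomputable section

namespace Pool.Agent.H378.AC

attribute [-instance] MonoidHom.fintypeRange MonoidHom.decidableMemRange

section

variable {p : ℕ} [hp : Fact p.Prime] {F : Type} [Field F] [CharP F p]
  (red : integralClosure ℤ ℂ →+* F) {A Y : Type} [Group A] [Group Y] [Finite A] [Finite Y]

/-- a block with fixed characters is stable -/
lemma fix_stab {B : (A → F) → F} {σ : Set (Subgroup A)} {θ : chainStabilizer σ → ℂ}
    (h : IsIrrChar θ) (hind : Induces red B θ) {γ : MulAut A} (hγ : FixAut σ θ γ)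
    {f : A → F} (hf : IsClassFun f) : B (fun x => f (γ x)) = B f := by
  have h1 : IsClassFun (fun x : A => f (γ x)) := by
    intro g x
    simp only [map_mul, map_inv]
    exact hf _ _
  have hγi : FixAut σ θ γ⁻¹ := (FA σ θ).inv_mem hγ
  rw [← hind _ h1, ← hind _ hf]
  let e : chainStabilizer σ ≃* chainStabilizer σ :=
    { toFun := fun x => ⟨γ x, mem_stab_aut hγ.1 x.2⟩
      invFun := fun x => ⟨γ⁻¹ x, mem_stab_aut hγi.1 x.2⟩
      left_inv := fun x => Subtype.ext (MulAut.inv_apply_self A γ x)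
      right_inv := fun x => Subtype.ext (MulAut.apply_inv_self A γ x)
      map_mul' := fun x y => Subtype.ext (map_mul γ _ _) }
  have h2 : IsClassFun (fun x : chainStabilizer σ => f (x : A)) := fun g x => hf g x
  have h3 := Pool.Agent.Y624.NV.centralValue_comp red e h h2
  rw [← h3]
  have e1 : (fun x => θ (e x)) = θ := by
    funext x
    exact hγ.2 x (e x) rfl
  rw [e1]
  rfl

lemma gf_zero {H : Type} [Group H] [Finite H] {P : (H → ℂ) → Prop}
    (h : ∀ θ, IsIrrChar θ → ¬ P θ) : gf p P = 0 := by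
  unfold gf
  refine Finset.sum_eq_zero fun θ hθ => ?_
  rw [Finset.mem_filter, mem_IrF] at hθ
  exact absurd hθ.2 (h θ hθ.1)

/-- the sums vanish for a block which is not stable -/
lemma mmp_unstable {B : (A → F) → F} (α : MulAut A)
    (h : ¬ ∀ f : A → F, IsClassFun f → B (fun x => f (α x)) = B f) :
    MMP p α (fun σ θ => Induces red B θ) = 0 := by
  unfold MMP
  refine Finset.sum_eq_zero fun σ _ => ?_
  have h1 : gf p (fun θ : chainStabilizer σ.1 → ℂ => Induces red B θ ∧
      ∃ a : A, FixAut σ.1 θ (α * MulAut.conj a)) = 0 := by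
    refine gf_zero fun θ h2 hθ' => ?_
    obtain ⟨h3, a, h4⟩ := hθ'
    apply h
    intro f hf
    have h5 := fix_stab red h2 h3 h4 hf
    rw [← h5]
    have h6 : IsClassFun (fun x : A => f (α x)) := by
      intro g x
      simp only [map_mul, map_inv]
      exact hf _ _
    refine congrArg B (funext fun x => ?_)
    change f (α x) = f (α (a * x * a⁻¹))
    exact (h6 a x).symm
  rw [h1, mul_zero, mul_zero]

variable (i : A →* Y) (hi : Function.Injective i)

include hi in
lemma lift_inv {z : A → F} (hz : ∀ (y : Y) (a b : A), i b = y * i a * y⁻¹ → z b = z a)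
    [hn : i.range.Normal] : ∃ z' : Y → F, InZ i.range z' ∧ ∀ a, z' (i a) = z a := by
  let z' : Y → F := fun y => if h : ∃ a, i a = y then z h.choose else 0
  have h1 : ∀ a, z' (i a) = z a := by
    intro a
    have h : ∃ b, i b = i a := ⟨a, rfl⟩
    have h2 : z' (i a) = z h.choose := dif_pos h
    rw [h2, hi h.choose_spec]
  have h0 : ∀ y, y ∉ i.range → z' y = 0 := fun y hy => dif_neg fun h => hy h
  refine ⟨z', ⟨fun g x => ?_, h0⟩, h1⟩
  by_cases hx : x ∈ i.range
  · obtain ⟨a, rfl⟩ := hx
    obtain ⟨b, hb⟩ := hn.conj_mem (i a) ⟨a, rfl⟩ g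
    rw [← hb, h1, h1]
    exact hz g a b hb
  · rw [h0 x hx, h0]
    intro h2
    apply hx
    have h3 := hn.conj_mem _ h2 g⁻¹
    have e : g⁻¹ * (g * x * g⁻¹) * g⁻¹⁻¹ = x := by group
    rwa [e] at h3

variable (hN : (⊤ : Subgroup Y) ≤ Subgroup.normalizer (i.range : Set Y))

lemma uniq_i [hn : i.range.Normal] {B B' : (A → F) → F} (hB : IsBlock B) (hB' : IsBlock B')
    (hI : ∀ (g : (⊤ : Subgroup Y)) (f : A → F), IsClassFun f →
      B (fun x => f (actI i hi ⊤ hN g x)) = B f)
    (h : ∀ z : Y → F, InZ i.range z → B' (fun a => z (i a)) = B (fun a => z (i a)))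
    {f : A → F} (hf : IsClassFun f) : B' f = B f := by
  refine uniq_aut (actI i hi ⊤ hN) hB hB' hI ?_ hf
  intro z hz hza
  obtain ⟨z', h1, h2⟩ := lift_inv i hi (z := z) (by
    intro y a b hab
    rw [← hza ⟨y, trivial⟩ a]
    congr 1
    apply hi
    rw [actI_apply, hab])
  have h3 := h z' h1
  simp only [h2] at h3
  exact h3

lemma cvv_iff [hn : i.range.Normal] {B : (A → F) → F} (hB : IsBlock B)
    (hI : ∀ (g : (⊤ : Subgroup Y)) (f : A → F), IsClassFun f →
      B (fun x => f (actI i hi ⊤ hN g x)) = B f) {σ : Set (Subgroup A)} (hσ : IsPChain p σ)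
    {θ : chainStabilizer σ → ℂ} (h : IsIrrChar θ) :
    Cvv red i.range (fun z => B (fun a => z (i a))) (i.comp (chainStabilizer σ).subtype) θ ↔
      Induces red B θ := by
  constructor
  · intro h1 f hf
    have hB' : IsBlock (fun1 red θ) :=
      induces_block (p := p) red hσ.chain (fun P hP => hσ.isPGroup P hP) h (fun _ _ => rfl)
    exact uniq_i i hi hN hB hB' hI (fun z hz => h1 z hz) hf
  · intro h1 z hz
    exact h1 (fun a => z (i a)) (class_comp i hz)

/-- stability under the generator -/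
lemma stable_all [hn : i.range.Normal] {B : (A → F) → F} {y₀ : Y}
    (hy : ∀ y : Y, ∃ k : ℕ, y⁻¹ * y₀ ^ k ∈ i.range) {α : MulAut A}
    (hα : ∀ a, i (α a) = y₀ * i a * y₀⁻¹)
    (h : ∀ f : A → F, IsClassFun f → B (fun x => f (α x)) = B f) (g : (⊤ : Subgroup Y))
    (f : A → F) (hf : IsClassFun f) : B (fun x => f (actI i hi ⊤ hN g x)) = B f := by
  obtain ⟨k, b, hb⟩ := hy g
  have hk : ∀ (k : ℕ) (f : A → F), IsClassFun f → B (fun x => f ((α ^ k) x)) = B f := by
    intro k
    induction k with
    | zero =>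
      intro f _
      rw [pow_zero]
      rfl
    | succ k ih =>
      intro f hf
      have h1 : IsClassFun (fun x : A => f ((α ^ k) x)) := by
        intro g x
        simp only [map_mul, map_inv]
        exact hf _ _
      rw [← ih f hf, ← h _ h1]
      refine congrArg B (funext fun x => ?_)
      rw [pow_succ]
      rfl
  rw [← hk k f hf]
  refine congrArg B (funext fun x => ?_)
  -- `g = y₀ ^ k (i b)⁻¹`
  have h2 : ∀ (k : ℕ) (a : A), i ((α ^ k) a) = y₀ ^ k * i a * (y₀ ^ k)⁻¹ := by
    intro k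
    induction k with
    | zero =>
      intro a
      simp
    | succ k ih =>
      intro a
      rw [pow_succ, MulAut.mul_apply, ih, hα]
      group
  have h3 : (g : Y) = y₀ ^ k * (i b)⁻¹ := by
    rw [hb]
    group
  have h4 : actI i hi ⊤ hN g x = (α ^ k) (b⁻¹ * x * b) := by
    apply hi
    rw [actI_apply, h2, h3, map_mul, map_mul, map_inv]
    group
  have h5 : IsClassFun (fun x : A => f ((α ^ k) x)) := by
    intro g x
    simp only [map_mul, map_inv]
    exact hf _ _
  rw [h4]
  have h6 := h5 b⁻¹ x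
  rw [inv_inv] at h6
  exact h6

/-- the blocks of `Y` which cover `B` -/
lemma noDZ_Y [hn : i.range.Normal] {B : (A → F) → F} (hB : IsBlock B) (hD : NoDZ p red B)
    {y₀ : Y} (hy : ∀ y : Y, ∃ k : ℕ, y⁻¹ * y₀ ^ k ∈ i.range)
    (hI : ∀ (g : (⊤ : Subgroup Y)) (f : A → F), IsClassFun f →
      B (fun x => f (actI i hi ⊤ hN g x)) = B f)
    {β : (Y → F) → F} (h : ∀ z : Y → F, InZ i.range z → β z = B (fun a => z (i a))) :
    NoDZ p red β := by
  intro χ hχ hχB hdef
  have : Fintype Y := Fintype.ofFinite _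
  have : Fintype A := Fintype.ofFinite _
  obtain ⟨θ', hθ', hm⟩ := mult_exists i.range hχ
  let e := MonoidHom.ofInjective hi
  have hθ : IsIrrChar (fun a : A => θ' (e a)) := irr_comp e hθ'
  have ho : Ov i hi χ (fun a : A => θ' (e a)) := by
    unfold Ov
    have h1 : (fun u => (fun a => θ' (e a)) ((MonoidHom.ofInjective hi).symm u)) = θ' := by
      funext u
      change θ' (e (e.symm u)) = θ' u
      rw [e.apply_symm_apply]
    rw [h1]
    exact hm
  have h2 : HasDefect p 0 (fun a : A => θ' (e a)) := by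
    rw [hasDefect_iff hθ]
    have h3 := dfc_over (p := p) i hi hy hχ hθ ho
    rw [(hasDefect_iff hχ).mp hdef] at h3
    omega
  refine hD _ hθ (fun f hf => ?_) h2
  refine uniq_i i hi hN hB (Pool.Agent.Y930.NV.cvh F red A _ hθ) hI ?_ hf
  intro z hz
  rw [← h z hz, ← hχB z (fun g x => hz.conj g x)]
  exact (cv_over_hom i hi red hχ hθ ho (f := z) (fun g x => hz.conj g x)
    (fun y hy => hz.supp y hy)).symm

end

end Pool.Agent.H378.AC
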